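import Pool.Agent.MP_3ee8cb_gt.TB.Defs

namespace Pool.Agent.MP_3ee8cb_gt.LV

open CR MeasureTheory
open scoped RealInnerProductSpace

variable {n : ℕ}

/-- A Borel set that meets every orbit exactly once. -/
def Fund (Γ : Type) [Group Γ] [MulAction Γ (E n)] (D : Set (E n)) : Prop :=
  MeasurableSet D ∧ ∀ x : E n, ∃! γ : Γ, γ • x ∈ D

/-- The covectors `r g(v, ·)` with `v ∈ B` and `0 < r ≤ 1`. -/
def cone (g : Met n) (B : Set (UT g)) : Set (E n × E n) :=
  {z | ∃ p ∈ B, ∃ r : ℝ, 0 < r ∧ r ≤ 1 ∧ z.1 = p.1.1 ∧ ∀ w, ⟪z.2, w⟫ = r * g p.1.1 p.1.2 w}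

/-- Liouville measure on the quotient: symplectic volume of the cone over the lift to `D`. -/
noncomputable def liou (g : Met n) (Γ : Type) [Group Γ] [MulAction Γ (E n)] (D : Set (E n))
    (B : Set (UM g Γ)) : ENNReal :=
  volume (cone g {p | p.1.1 ∈ D ∧ Quot.mk _ p ∈ B})

/-- Riemannian volume. -/
noncomputable def vol (g : Met n) (D : Set (E n)) : ENNReal :=
  ∫⁻ x in D, ENNReal.ofReal √(Matrix.of fun i j : Fin n =>
    g x (EuclideanSpace.single i 1) (EuclideanSpace.single j 1)).det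

end Pool.Agent.MP_3ee8cb_gt.LV
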