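import Pool.Agent.MP_3ee8cb_gt.CR.SpecA
import Pool.Agent.MP_3ee8cb_gt.LV.Defs

/-! A conjugacy of geodesic flows preserves Liouville measure: definitions and row statements. -/

namespace Pool.Agent.MP_3ee8cb_gt.LV

open CR Set Filter MeasureTheory Topology Real
open scoped RealInnerProductSpace

variable {n : ℕ}

/-! flows -/

def AddP {g : Met n} (Φ : ℝ → UT g → UT g) : Prop := ∀ s t p, Φ (s + t) p = Φ s (Φ t p)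

def JcP {g : Met n} (Φ : ℝ → UT g → UT g) : Prop := Continuous fun a : ℝ × UT g => Φ a.1 a.2

structure QP (g : Met n) (Γ : Type) [Group Γ] [MulAction Γ (E n)] (Φ : ℝ → UT g → UT g) :
    Prop where
  rp : RP g Γ Φ
  add : AddP Φ
  jc : JcP Φ
  dbr : DbrP g

/-- Fields of vector valued bilinear maps. -/
abbrev Con (n : ℕ) := E n → E n →L[ℝ] E n →L[ℝ] E n

structure ChrP (h : Met n) (G : Con n) : Prop where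
  smooth : ContDiff ℝ 1 G
  symm : ∀ x u v, G x u v = G x v u
  compat : ∀ x u v w, fderiv ℝ h x u v w = h x (G x u v) w + h x v (G x u w)

def OdeP {h : Met n} (G : Con n) (Ψ : ℝ → UT h → UT h) : Prop := ∀ p t,
  HasDerivAt (fun s => (Ψ s p).1.2) (-(G (Ψ t p).1.1 (Ψ t p).1.2 (Ψ t p).1.2)) t

def EqvP (g : Met n) (Γ : Type) [Group Γ] [MulAction Γ (E n)] (Φ : ℝ → UT g → UT g) : Prop :=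
  ∀ (γ : Γ) (p q : UT g), q.1 = tm γ p.1 → ∀ t, (Φ t q).1 = tm γ (Φ t p).1

structure BP (g : Met n) (Φ : ℝ → UT g → UT g) : Prop where
  lip : ∀ p x y, bus g Φ p x - bus g Φ p y ≤ dd g x y
  self : ∀ p t, bus g Φ p (Φ t p).1.1 = -t
  back : ∀ p t, bus g Φ (ng p) (Φ t p).1.1 = t
  shift : ∀ p t x, bus g Φ (Φ t p) x = bus g Φ p x + t
  bshift : ∀ p t x, bus g Φ (ng (Φ t p)) x = bus g Φ (ng p) x - t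
  opp : ∀ p x, 0 ≤ bus g Φ p x + bus g Φ (ng p) x
  lim : ∀ p x, Tendsto (fun t => dd g x (Φ t p).1.1 - t) atTop (𝓝 (bus g Φ p x))
  top : ∀ p p', Tendsto (fun t => dd g (Φ t p).1.1 (Φ t p').1.1) atTop (𝓝 0) →
    ∀ x, bus g Φ p x = bus g Φ p' x
  bot : ∀ p p', Tendsto (fun t => dd g (Φ t p).1.1 (Φ t p').1.1) atBot (𝓝 0) →
    ∀ x, bus g Φ (ng p) x = bus g Φ (ng p') x
  up : ∀ R : ℝ, ∃ C : ℝ, ∀ (p : UT g) (x : E n), ‖p.1.1‖ ≤ R → ‖x‖ ≤ R →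
    bus g Φ p x + g p.1.1 p.1.2 (x - p.1.1) ≤ C * ‖x - p.1.1‖ ^ 2

/-- A statement about one manifold. -/
def OnMan (P : ∀ (n : ℕ) (g : Met n) (Γ : Type) [Group Γ] [MulAction Γ (E n)]
    (_ : ℝ → UT g → UT g), Prop) : Prop :=
  ∀ (n : ℕ) (g : Met n) (Γ : Type) [Group Γ] [MulAction Γ (E n)] (Φ : ℝ → UT g → UT g),
    QP g Γ Φ → P n g Γ Φ

def SCHR : Prop := ∀ (n : ℕ) (h : Met n), Riem h → ∃ G, ChrP h G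
def SODE : Prop := ∀ (n : ℕ) (h : Met n) (G : Con n) (Ψ : ℝ → UT h → UT h), Riem h → ChrP h G →
  IsFlow h Ψ → OdeP G Ψ
def SODEC : Prop := ∀ (Z : Type) [NormedAddCommGroup Z] [NormedSpace ℝ Z] [FiniteDimensional ℝ Z]
  (V : Z → Z) (ζ₀ : ℝ → Z) (T ε : ℝ), ContDiff ℝ 1 V → 0 < ε →
  (∀ t ∈ Icc 0 T, HasDerivWithinAt ζ₀ (V (ζ₀ t)) (Icc 0 T) t) → ∃ δ, 0 < δ ∧ ∀ ζ : ℝ → Z,
    (∀ t ∈ Icc 0 T, HasDerivWithinAt ζ (V (ζ t)) (Icc 0 T) t) → ‖ζ 0 - ζ₀ 0‖ ≤ δ →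
      ∀ t ∈ Icc 0 T, ‖ζ t - ζ₀ t‖ ≤ ε
def SADD : Prop := ∀ (n : ℕ) (g : Met n) (Γ : Type) [Group Γ] [MulAction Γ (E n)]
  (Φ : ℝ → UT g → UT g), RP g Γ Φ → AddP Φ
def SJC : Prop := ∀ (n : ℕ) (g : Met n) (Γ : Type) [Group Γ] [MulAction Γ (E n)]
  (Φ : ℝ → UT g → UT g), RP g Γ Φ → JcP Φ
def SEQV : Prop := OnMan fun _ g Γ _ _ Φ => MinP g Φ → EqvP g Γ Φ
def SBP : Prop := OnMan fun _ g _ _ _ Φ => MinP g Φ → BP g Φ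

/-! comparison geometry -/

def Hinge (h : Met n) (Ψ : ℝ → UT h → UT h) (a : ℝ) : Prop := ∀ p q : UT h, p.1.1 = q.1.1 →
  ∀ s t : ℝ, 0 ≤ s → 0 ≤ t → cosh (a * s) * cosh (a * t) -
    h p.1.1 p.1.2 q.1.2 * (sinh (a * s) * sinh (a * t)) ≤ cosh (a * dd h (Ψ s p).1.1 (Ψ t q).1.1)

def I2P (h : Met n) (Ψ : ℝ → UT h → UT h) (a : ℝ) : Prop := ∀ (p : UT h) (y : E n) (L t : ℝ),
  0 ≤ t → t ≤ L → cosh (a * dd h y (Ψ t p).1.1) * sinh (a * L) ≤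
    sinh (a * (L - t)) * cosh (a * dd h y p.1.1) + sinh (a * t) * cosh (a * dd h y (Ψ L p).1.1)

def ThP (h : Met n) (Ψ : ℝ → UT h → UT h) (a : ℝ) : Prop := ∀ p q : UT h, p.1.1 = q.1.1 →
  ∀ R T : ℝ, 0 ≤ T → T ≤ R → cosh (a * dd h (Ψ (R - T) p).1.1 (Ψ (R - T) q).1.1) ≤
    1 + exp (-(2 * a * T)) * (cosh (a * dd h (Ψ R p).1.1 (Ψ R q).1.1) - 1)

def LbP (h : Met n) (Ψ : ℝ → UT h → UT h) (a : ℝ) : Prop := ∀ p q : UT h, p.1.1 = q.1.1 →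
  ∀ L : ℝ, 0 ≤ L →
    cosh (a * L) - h p.1.1 p.1.2 q.1.2 * sinh (a * L) ≤ exp (a * bus h Ψ p (Ψ L q).1.1)

def MorseP (h : Met n) (Ψ : ℝ → UT h → UT h) : Prop := ∀ D T ε : ℝ, 0 < ε → ∃ J : ℝ, ∀ j, J ≤ j →
  ∀ (w w' : UT h) (L : ℝ), 0 ≤ L → dd h w'.1.1 (Ψ (-j) w).1.1 ≤ D →
    dd h (Ψ L w').1.1 (Ψ j w).1.1 ≤ D → ∃ s : ℝ, T ≤ s ∧ T ≤ L - s ∧
      ∀ t, |t| ≤ T → dd h (Ψ (s + t) w').1.1 (Ψ t w).1.1 ≤ ε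

def Lp1P (h : Met n) (Ψ : ℝ → UT h → UT h) : Prop := ∀ η : ℝ, 0 < η → ∃ δ J : ℝ, 0 < δ ∧
  ∀ j, J ≤ j → ∀ (w w' u : UT h) (L : ℝ), dd h w.1.1 w'.1.1 ≤ δ →
    dd h (Ψ 1 w).1.1 (Ψ 1 w').1.1 ≤ δ → 0 ≤ L → u.1.1 = (Ψ (-j) w).1.1 →
    (Ψ L u).1.1 = (Ψ j w').1.1 → j ≤ L ∧ dd h (Ψ j u).1.1 w.1.1 ≤ η

def LpsP (h : Met n) (Ψ : ℝ → UT h → UT h) : Prop := ∀ (w₀ : UT h) (ε : ℝ), 0 < ε →
  ∃ U ∈ 𝓝 w₀, ∀ w ∈ U, ∀ w' ∈ U, ∃ (u : UT h) (t₀ : ℝ),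
    (∀ t, |t| ≤ 1 → dd h (Ψ t u).1.1 (Ψ t w₀).1.1 ≤ ε) ∧
    Tendsto (fun t => dd h (Ψ t u).1.1 (Ψ t w).1.1) atBot (𝓝 0) ∧
    Tendsto (fun t => dd h (Ψ t (Ψ t₀ u)).1.1 (Ψ t w').1.1) atTop (𝓝 0)

def SHM : Prop := OnMan fun _ h _ _ _ Ψ => ∀ a, 0 < a → Hinge h Ψ a → MinP h Ψ ∧ I2P h Ψ a
def STH : Prop := OnMan fun _ h _ _ _ Ψ => ∀ a, 0 < a → MinP h Ψ → I2P h Ψ a → ThP h Ψ a
def SLB : Prop := OnMan fun _ h _ _ _ Ψ => ∀ a, 0 < a → Hinge h Ψ a → BP h Ψ → LbP h Ψ a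
def SMORSE : Prop := OnMan fun _ h _ _ _ Ψ => ∀ a, 0 < a → MinP h Ψ → ThP h Ψ a → MorseP h Ψ
def SLP1 : Prop := OnMan fun _ h _ _ _ Ψ => ∀ a, 0 < a → MinP h Ψ → I2P h Ψ a → Lp1P h Ψ
def SLPS : Prop := OnMan fun _ h _ _ _ Ψ => ∀ a, 0 < a → MinP h Ψ → ThP h Ψ a → Lp1P h Ψ →
  LpsP h Ψ

/-! conjugacies -/

structure CJ (g h : Met n) {Γ Λ : Type} [Group Γ] [Group Λ] [MulAction Γ (E n)]
    [MulAction Λ (E n)] (Φ : ℝ → UT g → UT g) (Ψ : ℝ → UT h → UT h) (ρ : Γ ≃* Λ)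
    (F : UT g ≃ₜ UT h) : Prop where
  flow : ∀ t p, F (Φ t p) = Ψ t (F p)
  equi : ∀ (γ : Γ) (p q : UT g), q.1 = tm γ p.1 → (F q).1 = tm (ρ γ) (F p).1

structure UQ (g h : Met n) (Ψ : ℝ → UT h → UT h) (F : UT g ≃ₜ UT h) : Prop where
  foot : ∀ ε : ℝ, 0 < ε → ∃ δ, 0 < δ ∧ ∀ p p' : UT g,
    (∀ t ∈ Icc (0 : ℝ) 1, dd h (Ψ t (F p)).1.1 (Ψ t (F p')).1.1 ≤ δ) → dd g p.1.1 p'.1.1 ≤ ε
  bdd : ∃ D : ℝ, ∀ p p' : UT g, p.1.1 = p'.1.1 → dd h (F p).1.1 (F p').1.1 ≤ D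

structure TP (g h : Met n) (Φ : ℝ → UT g → UT g) (Ψ : ℝ → UT h → UT h) (F : UT g ≃ₜ UT h) :
    Prop where
  flow : ∀ t p, F (Φ t p) = Ψ t (F p)
  top : ∀ p p', Tendsto (fun t => dd h (Ψ t (F p)).1.1 (Ψ t (F p')).1.1) atTop (𝓝 0) →
    Tendsto (fun t => dd g (Φ t p).1.1 (Φ t p').1.1) atTop (𝓝 0)
  bot : ∀ p p', Tendsto (fun t => dd h (Ψ t (F p)).1.1 (Ψ t (F p')).1.1) atBot (𝓝 0) →
    Tendsto (fun t => dd g (Φ t p).1.1 (Φ t p').1.1) atBot (𝓝 0)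

/-- A statement about a lifted conjugacy. -/
def OnCJ (P : ∀ (n : ℕ) (g h : Met n) (Λ : Type) [Group Λ] [MulAction Λ (E n)]
    (_ : ℝ → UT g → UT g) (_ : ℝ → UT h → UT h) (_ : UT g ≃ₜ UT h), Prop) : Prop :=
  ∀ (n : ℕ) (g h : Met n) (Γ Λ : Type) [Group Γ] [Group Λ] [MulAction Γ (E n)]
    [MulAction Λ (E n)] (Φ : ℝ → UT g → UT g) (Ψ : ℝ → UT h → UT h) (ρ : Γ ≃* Λ)
    (F : UT g ≃ₜ UT h), QP g Γ Φ → QP h Λ Ψ → CJ g h Φ Ψ ρ F → P n g h Λ Φ Ψ F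

def SUQ : Prop := OnCJ fun _ g h Λ _ _ _ Ψ F => EqvP h Λ Ψ → UQ g h Ψ F
def SMIN2 : Prop := OnCJ fun _ g h _ _ _ Φ Ψ F => UQ g h Ψ F → MorseP h Ψ →
  MinP g Φ ∧ TP g h Φ Ψ F

def SLIFT2 : Prop := ∀ (n : ℕ) (g h : Met n) (Γ Λ : Type) [Group Γ] [Group Λ] [MulAction Γ (E n)]
  [MulAction Λ (E n)] (Φ : ℝ → UT g → UT g) (Ψ : ℝ → UT h → UT h) (f : UM g Γ ≃ₜ UM h Λ),
  3 ≤ n → RP g Γ Φ → RP h Λ Ψ →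
  (∀ t p q, f (Quot.mk _ p) = Quot.mk _ q → f (Quot.mk _ (Φ t p)) = Quot.mk _ (Ψ t q)) →
  ∃ (ρ : Γ ≃* Λ) (F : UT g ≃ₜ UT h), CJ g h Φ Ψ ρ F ∧ ∀ p, f (Quot.mk _ p) = Quot.mk _ (F p)

/-! the chart of hypersurfaces -/

def TayQ {h : Met n} (G : Con n) (Ψ : ℝ → UT h → UT h) : Prop := ∀ R ε : ℝ, 0 < ε →
  ∃ r, 0 < r ∧ ∀ (p : UT h) (L : ℝ), ‖p.1.1‖ ≤ R → 0 ≤ L → L ≤ r →
    ‖(Ψ L p).1.1 - p.1.1 - L • p.1.2 + (L ^ 2 / 2) • G p.1.1 p.1.2 p.1.2‖ ≤ ε * L ^ 2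

def Lb2P (h : Met n) (G : Con n) (Ψ : ℝ → UT h → UT h) (a : ℝ) : Prop := ∀ R ε : ℝ, 0 < ε →
  ∃ r, 0 < r ∧ ∀ (w : UT h) (D : E n), ‖w.1.1‖ ≤ R → ‖D‖ ≤ r →
    -h w.1.1 w.1.2 D - h w.1.1 w.1.2 (G w.1.1 D D) / 2 +
      a / 2 * (h w.1.1 D D - h w.1.1 w.1.2 D ^ 2) - ε * ‖D‖ ^ 2 ≤ bus h Ψ w (w.1.1 + D)

/-- The level function of the hypersurface with parameter `q`. -/
noncomputable def lv (l : E n →L[ℝ] ℝ) (e : E n) (B : E n →L[ℝ] E n →L[ℝ] ℝ) (q z : E n) : ℝ :=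
  l z + B z z / 2 - ⟪q, e + (z - l z • e)⟫

noncomputable def cp (l : E n →L[ℝ] ℝ) (e z : E n) (α : E n →L[ℝ] ℝ) : E n :=
  α e • (e + (z - l z • e))

noncomputable def cf (l : E n →L[ℝ] ℝ) (e : E n) (B : E n →L[ℝ] E n →L[ℝ] ℝ) (z : E n)
    (α : E n →L[ℝ] ℝ) : E n →L[ℝ] ℝ := B z - (α e)⁻¹ • (α - α e • l)

noncomputable def cq (l : E n →L[ℝ] ℝ) (e : E n) (B : E n →L[ℝ] E n →L[ℝ] ℝ) (z : E n)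
    (α : E n →L[ℝ] ℝ) : E n := (InnerProductSpace.toDual ℝ (E n)).symm
  (cf l e B z α + (l z + B z z / 2 - cf l e B z α z) • l)

structure AlgP (l : E n →L[ℝ] ℝ) (e : E n) (B : E n →L[ℝ] E n →L[ℝ] ℝ) : Prop where
  base : cq l e B 0 l = 0
  cq_cont : ContinuousOn (fun w : E n × (E n →L[ℝ] ℝ) => cq l e B w.1 w.2) {w | w.2 e ≠ 0}
  cp_cont : Continuous fun w : E n × (E n →L[ℝ] ℝ) => cp l e w.1 w.2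
  on : ∀ z (α : E n →L[ℝ] ℝ), α e ≠ 0 → lv l e B (cq l e B z α) z = 0
  inj : ∀ z z' (α α' : E n →L[ℝ] ℝ) (r r' : ℝ), α e ≠ 0 → α' e ≠ 0 → r ≠ 0 →
    cq l e B z α = cq l e B z' α' → r • cp l e z α = r' • cp l e z' α' → z = z' ∧ r • α = r' • α'
  step : ∀ z D q (α : E n →L[ℝ] ℝ), α e ≠ 0 → lv l e B q (z + D) = 0 →
    α D = ⟪cp l e z α, q - cq l e B z α⟫ + α e * (⟪q - cq l e B z α, D - l D • e⟫ - B D D / 2)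

def SALG : Prop := ∀ (n : ℕ) (l : E n →L[ℝ] ℝ) (e : E n) (B : E n →L[ℝ] E n →L[ℝ] ℝ), l e = 1 →
  (∀ u v, B u v = B v u) → B e = 0 → AlgP l e B

def SKEY : Prop := ∀ (n : ℕ) (e : E n) (B b₀ : E n →L[ℝ] E n →L[ℝ] ℝ)
  (G₀ : E n →L[ℝ] E n →L[ℝ] E n) (a : ℝ), 0 < a → (∀ u v, b₀ u v = b₀ v u) →
  (∀ v, v ≠ 0 → 0 < b₀ v v) → b₀ e e = 1 → (∀ u v, G₀ u v = G₀ v u) →
  (∀ u v, B u v = b₀ e (G₀ (u - b₀ e u • e) (v - b₀ e v • e))) → AlgP (b₀ e) e B →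
  ∃ δ C : ℝ, 0 < δ ∧ δ < 1 ∧ ∀ (b : E n →L[ℝ] E n →L[ℝ] ℝ) (G : E n →L[ℝ] E n →L[ℝ] E n)
    (α : E n →L[ℝ] ℝ) (z D q : E n) (s : ℝ), s = 1 ∨ s = -1 → ‖b - b₀‖ ≤ δ → ‖G - G₀‖ ≤ δ →
    ‖α - b₀ e‖ ≤ δ → α e ≠ 0 → ‖z‖ ≤ δ → ‖D‖ ≤ δ → ‖cq (b₀ e) e B z α‖ ≤ δ →
    lv (b₀ e) e B q (z + D) = 0 →
    s * ⟪cp (b₀ e) e z α, q - cq (b₀ e) e B z α⟫ - C * ‖q - cq (b₀ e) e B z α‖ ^ 2 ≤
      s * α D + s * α (G D D) / 2 + a / 2 * (b D D - α D ^ 2) - δ * ‖D‖ ^ 2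

def CrossP (h : Met n) (Ψ : ℝ → UT h → UT h) : Prop := ∀ (w₀ : UT h)
  (B : E n →L[ℝ] E n →L[ℝ] ℝ) (δ : ℝ), 0 < δ → ∃ ε δ' : ℝ, 0 < ε ∧ 0 < δ' ∧ ∀ (u : UT h) (q : E n),
    (∀ t, |t| ≤ 1 → dd h (Ψ t u).1.1 (Ψ t w₀).1.1 ≤ ε) → ‖q‖ ≤ δ' → ∃ t : ℝ,
      ‖(Ψ t u).1.1 - w₀.1.1‖ ≤ δ ∧ lv (h w₀.1.1 w₀.1.2) w₀.1.2 B q ((Ψ t u).1.1 - w₀.1.1) = 0

structure Chart (h : Met n) (Ψ : ℝ → UT h → UT h) (w₀ : UT h) (U : Set (UT h))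
    (q p : UT h → E n) (C ε : ℝ) : Prop where
  op : IsOpen U
  mem : w₀ ∈ U
  cq : ContinuousOn q U
  cp : ContinuousOn p U
  inj : ∀ w ∈ U, ∀ w' ∈ U, ∀ r r' : ℝ, 0 < r → 0 < r' → q w = q w' → r • p w = r' • p w' →
    w = w' ∧ r = r'
  pos : 0 < ε
  key : ∀ w ∈ U, ∀ w' ∈ U, ∀ u : UT h, (∀ t, |t| ≤ 1 → dd h (Ψ t u).1.1 (Ψ t w₀).1.1 ≤ ε) →
    ∃ t : ℝ, 0 ≤ bus h Ψ w' (Ψ t u).1.1 ∧
      ⟪p w, q w' - q w⟫ - C * ‖q w' - q w‖ ^ 2 ≤ bus h Ψ (ng w) (Ψ t u).1.1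

def STAY2 : Prop := OnMan fun _ h _ _ _ Ψ => ∀ G, ChrP h G → OdeP G Ψ → TayQ G Ψ
def SLB2 : Prop := OnMan fun _ h _ _ _ Ψ => ∀ G a, 0 < a → ChrP h G → TayQ G Ψ → LbP h Ψ a →
  Lb2P h G Ψ a
def SCROSS : Prop := OnMan fun _ h _ _ _ Ψ => CrossP h Ψ
def SCHART : Prop := ∀ (n : ℕ) (h : Met n) (G : Con n) (Ψ : ℝ → UT h → UT h) (a : ℝ), Riem h →
  ChrP h G → 0 < a → Lb2P h G Ψ a → CrossP h Ψ → ∀ w₀, ∃ U q p C ε, Chart h Ψ w₀ U q p C ε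

/-! measure -/

/-- The covector `e^s g(v, ·)`. -/
noncomputable def cov (g : Met n) (a : UT g × ℝ) : E n × E n :=
  (a.1.1.1, (InnerProductSpace.toDual ℝ (E n)).symm (exp a.2 • g a.1.1.1 a.1.1.2))

def Star (g h : Met n) (Ψ : ℝ → UT h → UT h) (F : UT g ≃ₜ UT h) (W : Set (UT g × ℝ))
    (q p : UT h → E n) (C : ℝ) : Prop := ∀ a ∈ W, ∀ b ∈ W,
  a.2 - g a.1.1.1 a.1.1.2 (b.1.1.1 - a.1.1.1) +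
    ⟪p (Ψ a.2 (F a.1)), q (Ψ b.2 (F b.1)) - q (Ψ a.2 (F a.1))⟫ -
    C * (‖b.1.1.1 - a.1.1.1‖ ^ 2 + ‖q (Ψ b.2 (F b.1)) - q (Ψ a.2 (F a.1))‖ ^ 2) ≤ b.2

def SSTAR : Prop := ∀ (n : ℕ) (g h : Met n) (Φ : ℝ → UT g → UT g) (Ψ : ℝ → UT h → UT h)
  (F : UT g ≃ₜ UT h) (a₀ : UT g × ℝ) (U : Set (UT h)) (q p : UT h → E n) (C ε : ℝ),
  (∀ v, Φ 0 v = v) → JcP Ψ → BP g Φ → BP h Ψ → TP g h Φ Ψ F → LpsP h Ψ →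
  Chart h Ψ (Ψ a₀.2 (F a₀.1)) U q p C ε → ∃ (W : Set (UT g × ℝ)) (C' : ℝ), IsOpen W ∧ a₀ ∈ W ∧
    (∀ a ∈ W, Ψ a.2 (F a.1) ∈ U) ∧ Star g h Ψ F W q p C'

def SSV2 : Prop := ∀ (n : ℕ) (ι : Type) [TopologicalSpace ι] [PolishSpace ι] [MeasurableSpace ι]
  [BorelSpace ι] (A : Set ι) (u : ι → ℝ) (x P q p : ι → E n) (C : ℝ), MeasurableSet A →
  ContinuousOn x A → ContinuousOn P A → ContinuousOn q A → ContinuousOn p A →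
  InjOn (fun a => (x a, P a)) A → InjOn (fun a => (q a, p a)) A →
  (∀ a ∈ A, ∀ b ∈ A, u a - ⟪P a, x b - x a⟫ + ⟪p a, q b - q a⟫ -
    C * (‖x b - x a‖ ^ 2 + ‖q b - q a‖ ^ 2) ≤ u b) →
  volume ((fun a => (x a, P a)) '' A) = volume ((fun a => (q a, p a)) '' A)

structure CovP (g : Met n) : Prop where
  pol : PolishSpace (UT g × ℝ)
  cont : Continuous (cov g)
  inj : Function.Injective (cov g)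
  meas : ∀ B : Set (UT g × ℝ), MeasurableSet B → MeasurableSet (cov g '' B)
  cone : ∀ B : Set (UT g), cone g B = cov g '' (B ×ˢ Iic (0 : ℝ))

def SCOV : Prop := ∀ (n : ℕ) (g : Met n), Riem g → CovP g

def SHALF : Prop := ∀ (n : ℕ) (g h : Met n) (Ψ : ℝ → UT h → UT h) (F : UT g ≃ₜ UT h)
  (w₀ : UT h) (U : Set (UT h)) (q p : UT h → E n) (C ε C' S : ℝ) (B : Set (UT g × ℝ)), CovP g →
  (∀ w, Ψ 0 w = w) → AddP Ψ → JcP Ψ → Chart h Ψ w₀ U q p C ε → MeasurableSet B →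
  (∀ a ∈ B, Ψ a.2 (F a.1) ∈ U ∧ a.2 ≤ S) → Star g h Ψ F B q p C' → volume (cov g '' B) =
    volume ((fun a : UT g × ℝ => (q (Ψ a.2 (F a.1)), exp a.2 • p (Ψ a.2 (F a.1)))) '' B)

def Pres (g h : Met n) (F : UT g ≃ₜ UT h) (B : Set (UT g × ℝ)) : Prop :=
  volume (cov g '' B) = volume (cov h '' (Prod.map F id '' B))

def SGLOB : Prop := ∀ (n : ℕ) (g h : Met n) (F : UT g ≃ₜ UT h), CovP g → CovP h →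
  (∀ a₀, ∃ W, IsOpen W ∧ a₀ ∈ W ∧ ∀ B ⊆ W, MeasurableSet B → Pres g h F B) →
  ∀ B, MeasurableSet B → Pres g h F B

def MvP (h : Met n) (Λ : Type) [Group Λ] [MulAction Λ (E n)] : Prop := ∀ γ : Λ,
  ∃ M : UT h ≃ₜ UT h, (∀ w, (M w).1 = tm γ w.1) ∧ ∀ B, MeasurableSet B → Pres h h M B

def SMV : Prop := OnMan fun _ h Λ _ _ Ψ => EqvP h Λ Ψ →
  ∀ γ : Λ, ∃ M : UT h ≃ₜ UT h, (∀ w, (M w).1 = tm γ w.1) ∧ TP h h Ψ Ψ M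

def SFUND : Prop := ∀ (n : ℕ) (g h : Met n) (Γ Λ : Type) [Group Γ] [Group Λ] [MulAction Γ (E n)]
  [MulAction Λ (E n)] (Φ : ℝ → UT g → UT g) (Ψ : ℝ → UT h → UT h) (ρ : Γ ≃* Λ)
  (F : UT g ≃ₜ UT h) (D D' : Set (E n)) (S : Set (UT g)), Deck g Γ → Deck h Λ → CovP g → CovP h →
  CJ g h Φ Ψ ρ F → (∀ B, MeasurableSet B → Pres g h F B) → MvP h Λ → Fund Γ D → Fund Λ D' →
  MeasurableSet S → (∀ (γ : Γ) (p q : UT g), q.1 = tm γ p.1 → p ∈ S → q ∈ S) →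
    volume (cone g {p | p.1.1 ∈ D ∧ p ∈ S}) = volume (cone h {w | w.1.1 ∈ D' ∧ w ∈ F '' S})

def SVOL : Prop := ∀ (n : ℕ) (g : Met n) (D : Set (E n)), 0 < n → Riem g → CovP g →
  MeasurableSet D →
    volume (cone g {p | p.1.1 ∈ D}) = volume (Metric.closedBall (0 : E n) 1) * vol g D

end Pool.Agent.MP_3ee8cb_gt.LV
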