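import Pool.Agent.MP_3ee8cb_gt.LV.Spec

namespace Pool.Agent.MP_3ee8cb_gt.LV

open CR Set
open scoped RealInnerProductSpace

variable {n : ℕ}

theorem alg_cf (l : E n →L[ℝ] ℝ) (e : E n) (B : E n →L[ℝ] E n →L[ℝ] ℝ) (z : E n)
    (α : E n →L[ℝ] ℝ) (ζ : E n) :
    cf l e B z α ζ = B z ζ - (α e)⁻¹ * (α ζ - α e * l ζ) := by
  simp [cf]

theorem alg_cq (l : E n →L[ℝ] ℝ) (e : E n) (B : E n →L[ℝ] E n →L[ℝ] ℝ) (z : E n)
    (α : E n →L[ℝ] ℝ) (ζ : E n) :
    ⟪cq l e B z α, ζ⟫ = B z ζ - (α e)⁻¹ * (α ζ - α e * l ζ) +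
      (l z + B z z / 2 - (B z z - (α e)⁻¹ * (α z - α e * l z))) * l ζ := by
  rw [cq, InnerProductSpace.toDual_symm_apply, ← alg_cf l e B z α ζ, ← alg_cf l e B z α z]
  simp

theorem alg : SALG := by
  intro n l e B hl hs he
  have he' : ∀ u, B u e = 0 := fun u => by rw [hs, he]; rfl
  have he2 : ∀ u, B e u = 0 := fun u => by rw [he]; rfl
  refine ⟨?_, ?_, ?_, ?_, ?_, ?_⟩
  · refine ext_inner_right ℝ fun ζ => ?_
    rw [alg_cq]; simp [hl]
  · have h1 : ContinuousOn (fun w : E n × (E n →L[ℝ] ℝ) => (w.2 e)⁻¹) {w | w.2 e ≠ 0} :=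
      ContinuousOn.inv₀ (by fun_prop) fun w hw => hw
    have h2 : ContinuousOn (fun w : E n × (E n →L[ℝ] ℝ) => cf l e B w.1 w.2) {w | w.2 e ≠ 0} := by
      unfold cf
      exact ContinuousOn.sub (by fun_prop) (h1.smul (by fun_prop))
    unfold cq
    refine (InnerProductSpace.toDual ℝ (E n)).symm.continuous.comp_continuousOn ?_
    have h3 : ContinuousOn (fun w : E n × (E n →L[ℝ] ℝ) =>
        l w.1 + B w.1 w.1 / 2 - cf l e B w.1 w.2 w.1) {w | w.2 e ≠ 0} :=
      ContinuousOn.sub (by fun_prop) (h2.clm_apply (by fun_prop))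
    exact h2.add (h3.smul continuousOn_const)
  · unfold cp; fun_prop
  · intro z α ha
    rw [lv, alg_cq]
    simp only [map_add, map_sub, map_smul, smul_eq_mul, hl, he']
    field_simp
    ring
  · intro z z' α α' r r' ha ha' hr hq hp
    have h1 : r * α e = r' * α' e := by
      have := congrArg l hp
      simpa [cp, hl] using this
    have h2 : z - l z • e = z' - l z' • e := by
      simp only [cp, smul_smul, ← h1] at hp
      exact add_left_cancel (smul_right_injective _ (mul_ne_zero hr ha) hp)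
    have h3 : ∀ ζ, _ := fun ζ => (alg_cq l e B z α ζ).symm.trans
      ((congrArg (fun x => ⟪x, ζ⟫) hq).trans (alg_cq l e B z' α' ζ))
    have h4 := h3 e
    simp only [hl, he', mul_one, sub_self, mul_zero, zero_add] at h4
    have hB : ∀ ζ, B z ζ = B z' ζ := fun ζ => by
      have := congrArg (fun x => B x ζ) h2
      simpa [he2] using this
    have h5 : ∀ ζ, (α e)⁻¹ * α ζ = (α' e)⁻¹ * α' ζ := fun ζ => by
      have := h3 ζ
      rw [h4, hB ζ, add_left_inj, sub_right_inj, mul_sub, mul_sub, ← mul_assoc, ← mul_assoc,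
        inv_mul_cancel₀ ha, inv_mul_cancel₀ ha'] at this
      linarith
    have h6 : α z - l z * α e = α z' - l z' * α e := by
      have := congrArg α h2
      simpa using this
    have h7 : B z z = B z' z' := by rw [hB z, hs, hB z']
    have h8 : (α e)⁻¹ * (α z - α e * l z) = (α' e)⁻¹ * (α' z' - α' e * l z') := by
      rw [mul_comm (α e), h6, mul_sub, mul_sub, h5 z', mul_comm (l z'), ← mul_assoc, ← mul_assoc,
        inv_mul_cancel₀ ha, inv_mul_cancel₀ ha']
    have h9 : l z = l z' := by rw [h7, h8] at h4; linarith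
    refine ⟨by rw [h9] at h2; exact sub_left_injective h2, ?_⟩
    ext ζ
    have h10 : r * α ζ = (r * α e) * ((α e)⁻¹ * α ζ) := by field_simp
    have h11 : r' * α' ζ = (r' * α' e) * ((α' e)⁻¹ * α' ζ) := by field_simp
    change r * α ζ = r' * α' ζ
    rw [h10, h11, h1, h5]
  · intro z D q α ha h
    have h1 : ⟪q, e + (z - l z • e)⟫ + ⟪q, D - l D • e⟫ =
        l z + l D + (B z z + 2 * B z D + B D D) / 2 := by
      rw [← inner_add_right]
      have : e + (z - l z • e) + (D - l D • e) = e + (z + D - l (z + D) • e) := by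
        rw [map_add, add_smul]; abel
      rw [this]
      simp only [lv, map_add, add_apply, hs D z] at h
      simp only [map_add]
      linarith
    rw [cp, real_inner_smul_left, real_inner_comm, inner_sub_left, inner_sub_left, alg_cq, alg_cq,
      eq_sub_of_add_eq h1]
    simp only [map_add, map_sub, map_smul, smul_eq_mul, hl, he']
    field_simp
    ring

end Pool.Agent.MP_3ee8cb_gt.LV
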