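import Pool.Agent.MP_3ee8cb_gt.LV.Spec
import Pool.Agent.MP_3ee8cb_gt.CR.RBU

/-! Busemann functions when all geodesics minimise. -/

namespace Pool.Agent.MP_3ee8cb_gt.LV

open CR Set Filter Topology

variable {n : ℕ} {g : Met n} {Φ : ℝ → UT g → UT g}

theorem bp_ng (p : UT g) : ng (ng p) = p := by
  apply Subtype.ext
  simp [ng]

theorem bp_lip (db : DBP g) (hm : MinP g Φ) (p : UT g) (x y : E n) :
    bus g Φ p x - bus g Φ p y ≤ dd g x y := by
  have := bu_ge db hm p y (bus g Φ p x - dd g x y) 0 fun t _ => by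
    have h1 := bu_le db hm p x t
    have h2 := db.tri x y (Φ t p).1.1
    linarith
  linarith

theorem bp_self (db : DBP g) (hm : MinP g Φ) (p : UT g) (t : ℝ) :
    bus g Φ p (Φ t p).1.1 = -t := by
  refine le_antisymm ?_ ?_
  · simpa [db.refl] using bu_le db hm p (Φ t p).1.1 t
  · refine bu_ge db hm p _ _ 0 fun s _ => ?_
    have := neg_le_abs (t - s)
    rw [hm]
    linarith

theorem bp_shift (db : DBP g) (hm : MinP g Φ) (ha : AddP Φ) (p : UT g) (t : ℝ) (x : E n) :
    bus g Φ (Φ t p) x = bus g Φ p x + t := by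
  refine le_antisymm ?_ ?_
  · have := bu_ge db hm p x (bus g Φ (Φ t p) x - t) 0 fun s _ => by
      have h1 := bu_le db hm (Φ t p) x (s - t)
      rw [← ha, sub_add_cancel] at h1
      linarith
    linarith
  · refine bu_ge db hm _ x _ 0 fun s _ => ?_
    have h1 := bu_le db hm p x (s + t)
    rw [← ha]
    linarith

theorem bp_top (db : DBP g) (hm : MinP g Φ) (p p' : UT g)
    (h : Tendsto (fun t => dd g (Φ t p).1.1 (Φ t p').1.1) atTop (𝓝 0)) (x : E n) :
    bus g Φ p x = bus g Φ p' x := by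
  have key : ∀ q q' : UT g, Tendsto (fun t => dd g (Φ t q).1.1 (Φ t q').1.1) atTop (𝓝 0) →
      bus g Φ q x ≤ bus g Φ q' x := by
    intro q q' hq
    refine le_of_forall_pos_le_add fun ε hε => ?_
    obtain ⟨T, hT⟩ := eventually_atTop.1 (hq.eventually (ge_mem_nhds hε))
    have := bu_ge db hm q' x (bus g Φ q x - ε) T fun t ht => by
      have h1 := hT t ht
      have h2 := bu_le db hm q x t
      have h3 := db.tri x (Φ t q').1.1 (Φ t q).1.1
      rw [db.symm (Φ t q').1.1] at h3
      linarith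
    linarith
  refine le_antisymm (key p p' h) (key p' p ?_)
  simpa only [db.symm (Φ _ p').1.1] using h

theorem bp : SBP := by
  intro n g Γ _ _ Φ Q hm
  have db := Q.rp.db
  have rev := Q.rp.fl.rev
  have ft : ∀ (t : ℝ) (p : UT g), (Φ t (ng p)).1.1 = (Φ (-t) p).1.1 := fun t p => by
    rw [rev]; rfl
  refine ⟨bp_lip db hm, bp_self db hm, fun p t => ?_, bp_shift db hm Q.add, fun p t x => ?_,
    fun p x => ?_, fun p x => ?_, bp_top db hm, fun p p' h x => ?_, fun R => ?_⟩
  · have h1 := bp_self db hm (ng p) (-t)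
    rw [ft, neg_neg] at h1
    exact h1
  · have e : ng (Φ t p) = Φ (-t) (ng p) := by rw [rev, neg_neg]
    rw [e, bp_shift db hm Q.add]
    ring
  · have := bu_ge db hm p x (-bus g Φ (ng p) x) 0 fun s _ => by
      have := bu_ge db hm (ng p) x (s - dd g x (Φ s p).1.1) 0 fun t _ => by
        have h1 := db.tri (Φ s p).1.1 x (Φ (-t) p).1.1
        have h2 := le_abs_self (s - -t)
        rw [hm, db.symm (Φ s p).1.1 x] at h1
        rw [ft]
        linarith
      linarith
    linarith
  · refine tendsto_atTop_ciInf (f := fun t : ℝ => dd g x (Φ t p).1.1 - t) (fun s t hst => ?_)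
      ⟨bus g Φ p x, ?_⟩
    · have h2 := db.tri x (Φ s p).1.1 (Φ t p).1.1
      rw [hm, abs_sub_comm, abs_of_nonneg (sub_nonneg.2 hst)] at h2
      change dd g x (Φ t p).1.1 - t ≤ dd g x (Φ s p).1.1 - s
      linarith
    · rintro _ ⟨s, rfl⟩
      exact bu_le db hm p x s
  · refine bp_top db hm (ng p) (ng p') ?_ x
    simp only [ft]
    exact h.comp tendsto_neg_atTop_atBot
  · obtain ⟨C, hC⟩ := Q.rp.sc (2 * R)
    refine ⟨C, fun p x hp hx => ?_⟩
    have h0 : 0 ≤ R := (norm_nonneg _).trans hx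
    have h1 := hC p (x - p.1.1) (by linarith) ((norm_sub_le _ _).trans (by linarith))
    have h2 := bp_lip db hm p x (Φ 1 p).1.1
    have h3 := bp_self db hm p 1
    have e : p.1.1 + (x - p.1.1) = x := by abel
    rw [e] at h1
    linarith

end Pool.Agent.MP_3ee8cb_gt.LV
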