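import Pool.Agent.MP_3ee8cb_gt.LV.Spec

/-! The chart of hypersurfaces near a unit vector. -/

namespace Pool.Agent.MP_3ee8cb_gt.LV

open CR Set Filter Topology
open scoped RealInnerProductSpace

variable {n : ℕ}

theorem chart_form (l : E n →L[ℝ] ℝ) (e : E n) (G₀ : E n →L[ℝ] E n →L[ℝ] E n) :
    ∃ B : E n →L[ℝ] E n →L[ℝ] ℝ, ∀ u v, B u v = l (G₀ (u - l u • e) (v - l v • e)) :=
  ⟨((ContinuousLinearMap.compL ℝ (E n) (E n) ℝ l).comp G₀).bilinearComp
    (ContinuousLinearMap.id ℝ (E n) - l.smulRight e)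
    (ContinuousLinearMap.id ℝ (E n) - l.smulRight e), fun _ _ => rfl⟩

theorem chart_ball {F : Type} [NormedAddCommGroup F] [NormedSpace ℝ F]
    {b b₀ : E n →L[ℝ] E n →L[ℝ] F} {δ : ℝ} (h : b ∈ Metric.ball b₀ δ) : ‖b - b₀‖ ≤ δ :=
  (mem_ball_iff_norm (E := E n →L[ℝ] E n →L[ℝ] F).1 h).le

theorem chart_inj {h : Met n} (hr : Riem h) {w w' : UT h} {r r' : ℝ} (h0 : 0 < r) (h0' : 0 < r')
    (h1 : w.1.1 = w'.1.1) (h2 : r • h w.1.1 w.1.2 = r' • h w'.1.1 w'.1.2) : w = w' ∧ r = r' := by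
  obtain ⟨⟨y, u⟩, hu⟩ := w
  obtain ⟨⟨y', u'⟩, hu'⟩ := w'
  dsimp only at h1 h2 hu hu'
  subst h1
  have h3 : r • u = r' • u' := by
    by_contra hne
    have := hr.pos y _ (sub_ne_zero.2 hne)
    rw [map_sub (h y), map_smul (h y), map_smul (h y), h2, sub_self] at this
    simp at this
  have h4 : h y (r • u) (r • u) = h y (r' • u') (r' • u') := by rw [h3]
  simp only [map_smul, smul_apply, smul_eq_mul, hu, hu', mul_one] at h4
  obtain rfl : r = r' := (mul_self_inj h0.le h0'.le).1 h4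
  obtain rfl : u = u' := smul_right_injective _ h0.ne' h3
  exact ⟨rfl, rfl⟩

theorem chart (h1 : SALG) (h2 : SKEY) : SCHART := by
  intro n h G Ψ a hr hG ha hL hC w₀
  obtain ⟨B, hB⟩ := chart_form (h w₀.1.1 w₀.1.2) w₀.1.2 (G w₀.1.1)
  have hA : AlgP (h w₀.1.1 w₀.1.2) w₀.1.2 B := h1 n _ _ B w₀.2
    (fun u v => by rw [hB, hB, hG.symm]) (by
      ext v
      rw [hB, w₀.2, one_smul, sub_self]
      simp)
  obtain ⟨δ, C, d0, d1, hk⟩ := h2 n w₀.1.2 B (h w₀.1.1) (G w₀.1.1) a ha (hr.symm _) (hr.pos _)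
    w₀.2 (hG.symm _) hB hA
  obtain ⟨r, r0, hl⟩ := hL (‖w₀.1.1‖ + 1) δ d0
  have m0 : 0 < min δ r / 2 := half_pos (lt_min d0 r0)
  obtain ⟨ε, δ', e0, d0', hc⟩ := hC w₀ B _ m0
  let q : UT h → E n := fun w =>
    cq (h w₀.1.1 w₀.1.2) w₀.1.2 B (w.1.1 - w₀.1.1) (h w.1.1 w.1.2)
  let p : UT h → E n := fun w => cp (h w₀.1.1 w₀.1.2) w₀.1.2 (w.1.1 - w₀.1.1) (h w.1.1 w.1.2)
  have c1 : Continuous fun w : UT h => w.1.1 := continuous_fst.comp continuous_subtype_val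
  have c2 : Continuous fun w : UT h => w.1.2 := continuous_snd.comp continuous_subtype_val
  have c3 : Continuous fun w : UT h => h w.1.1 := hr.smooth.continuous.comp c1
  have c4 : Continuous fun w : UT h => G w.1.1 := hG.smooth.continuous.comp c1
  have c5 : Continuous fun w : UT h => h w.1.1 w.1.2 := c3.clm_apply c2
  have c6 : Continuous fun w : UT h => (w.1.1 - w₀.1.1, h w.1.1 w.1.2) :=
    (c1.sub continuous_const).prodMk c5
  let O : Set (UT h) := {w | 0 < h w.1.1 w.1.2 w₀.1.2}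
  have hO : IsOpen O := isOpen_lt continuous_const (c5.clm_apply continuous_const)
  have cq1 : ContinuousOn q O := by
    have := hA.cq_cont.comp (s := O) c6.continuousOn fun w hw => ne_of_gt hw
    simpa only [Function.comp_def] using this
  have cp1 : Continuous p := by
    have := hA.cp_cont.comp c6
    simpa only [Function.comp_def] using this
  let U : Set (UT h) := (O ∩ q ⁻¹' Metric.ball 0 (min δ δ')) ∩
    ((fun w : UT h => h w.1.1) ⁻¹' Metric.ball (h w₀.1.1) δ ∩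
      (fun w : UT h => G w.1.1) ⁻¹' Metric.ball (G w₀.1.1) δ ∩
      {w | ‖h w.1.1 w.1.2 - h w₀.1.1 w₀.1.2‖ < δ} ∩ {w | ‖w.1.1 - w₀.1.1‖ < min δ r / 2})
  have key : ∀ w ∈ U, ∀ (y q' : E n) (s : ℝ), s = 1 ∨ s = -1 → ‖y - w₀.1.1‖ ≤ min δ r / 2 →
      lv (h w₀.1.1 w₀.1.2) w₀.1.2 B q' (y - w₀.1.1) = 0 → ‖w.1.1‖ ≤ ‖w₀.1.1‖ + 1 ∧
        ‖y - w.1.1‖ ≤ r ∧ s * ⟪p w, q' - q w⟫ - C * ‖q' - q w‖ ^ 2 ≤
          s * h w.1.1 w.1.2 (y - w.1.1) +
            s * h w.1.1 w.1.2 (G w.1.1 (y - w.1.1) (y - w.1.1)) / 2 +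
            a / 2 * (h w.1.1 (y - w.1.1) (y - w.1.1) - h w.1.1 w.1.2 (y - w.1.1) ^ 2) -
            δ * ‖y - w.1.1‖ ^ 2 := by
    rintro w ⟨⟨u1, u2⟩, ⟨⟨u3, u4⟩, u5⟩, u6⟩ y q' s hs hy hv
    have u6' : ‖w.1.1 - w₀.1.1‖ < min δ r / 2 := u6
    have u2' : ‖q w‖ < min δ δ' := mem_ball_zero_iff.1 u2
    have k1 := min_le_left δ r
    have k2 := min_le_right δ r
    have k3 : ‖y - w.1.1‖ ≤ min δ r := by
      have := norm_sub_le (y - w₀.1.1) (w.1.1 - w₀.1.1)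
      rw [sub_sub_sub_cancel_right] at this
      linarith
    refine ⟨by linarith [norm_le_norm_add_norm_sub' w.1.1 w₀.1.1], k3.trans k2,
      hk _ _ _ _ _ q' s hs (chart_ball u3) (chart_ball u4) (le_of_lt u5)
        (ne_of_gt u1) (by linarith)
        (k3.trans k1) (u2'.le.trans (min_le_left _ _)) ?_⟩
    rwa [sub_add_sub_cancel']
  refine ⟨U, q, p, C, ε, ?_, ?_, cq1.mono fun w hw => hw.1.1,
    cp1.continuousOn, fun w hw w' hw' s s' s0 s0' e1 e2 => ?_, e0,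
    fun w hw w' hw' u hu => ?_⟩
  · exact (cq1.isOpen_inter_preimage hO Metric.isOpen_ball).inter
      ((((Metric.isOpen_ball.preimage c3).inter (Metric.isOpen_ball.preimage c4)).inter
        (isOpen_lt (c5.sub continuous_const).norm continuous_const)).inter
        (isOpen_lt (c1.sub continuous_const).norm continuous_const))
  · refine ⟨⟨?_, ?_⟩, ⟨⟨?_, ?_⟩, ?_⟩, ?_⟩
    · exact zero_lt_one.trans_eq w₀.2.symm
    · have : q w₀ = 0 := by
        simp only [q, sub_self]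
        exact hA.base
      rw [mem_preimage, this]
      exact Metric.mem_ball_self (lt_min d0 d0')
    · exact Metric.mem_ball_self d0
    · exact Metric.mem_ball_self d0
    all_goals simp only [mem_ofPred_eq, sub_self, norm_zero]
    exacts [d0, m0]
  · obtain ⟨k1, k2⟩ := hA.inj _ _ _ _ s s' (ne_of_gt hw.1.1) (ne_of_gt hw'.1.1) s0.ne' e1 e2
    exact chart_inj hr s0 s0' (sub_left_injective k1) k2
  · obtain ⟨t, t1, t2⟩ := hc u (q w') hu
      ((mem_ball_zero_iff.1 hw'.1.2).le.trans (min_le_right _ _))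
    refine ⟨t, ?_, ?_⟩
    · obtain ⟨k1, k2, k3⟩ := key w' hw' _ _ (-1) (Or.inr rfl) t1 t2
      have k4 := hl w' _ k1 k2
      rw [add_sub_cancel] at k4
      rw [sub_self (q w'), inner_zero_right, norm_zero] at k3
      linarith
    · obtain ⟨k1, k2, k3⟩ := key w hw _ _ 1 (Or.inl rfl) t1 t2
      have k4 := hl (ng w) ((Ψ t u).1.1 - w.1.1) k1 k2
      simp only [ng, map_neg, neg_apply, add_sub_cancel, neg_neg, neg_sq] at k4
      refine le_trans ?_ k4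
      linarith

end Pool.Agent.MP_3ee8cb_gt.LV
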