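import Pool.Agent.MP_3ee8cb_gt.LV.Spec
import Pool.Agent.MP_3ee8cb_gt.CR.RUNI

/-! Christoffel symbols and the geodesic equation. -/

namespace Pool.Agent.MP_3ee8cb_gt.LV

open CR Set

variable {n : ℕ}

theorem chr_dsym {h : Met n} (hh : Riem h) (x u v w : E n) :
    fderiv ℝ h x u v w = fderiv ℝ h x u w v := by
  have h1 : HasFDerivAt h (fderiv ℝ h x) x :=
    ((hh.smooth.differentiable (by norm_num)) x).hasFDerivAt
  have h2 := (h1.clm_apply (hasFDerivAt_const v x)).clm_apply (hasFDerivAt_const w x)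
  have h3 := (h1.clm_apply (hasFDerivAt_const w x)).clm_apply (hasFDerivAt_const v x)
  have h4 : (fun y => h y v w) = fun y => h y w v := funext fun y => hh.symm y v w
  rw [h4] at h2
  have h5 := congrArg (fun L : E n →L[ℝ] ℝ => L u) (h2.unique h3)
  simpa using h5

theorem chr_inv {h : Met n} (hh : Riem h) : ContDiff ℝ 1 fun x => (h x).inverse := by
  have h1 : ContDiff ℝ 1 h := hh.smooth.of_le (by norm_num)
  rw [contDiff_iff_contDiffAt]
  intro x
  obtain ⟨e, he⟩ := uni_inv hh x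
  have h3 : ContDiffAt ℝ 1 ContinuousLinearMap.inverse (h x) := he ▸ contDiffAt_map_inverse e
  exact h3.comp x h1.contDiffAt

theorem chr_cancel {h : Met n} (hh : Riem h) (x : E n) (φ : E n →L[ℝ] ℝ) :
    h x ((h x).inverse φ) = φ := by
  obtain ⟨e, he⟩ := uni_inv hh x
  rw [← he]
  simp

/-- The covector valued Koszul form. -/
noncomputable def chr_K (D : E n →L[ℝ] E n →L[ℝ] E n →L[ℝ] ℝ) (u v : E n) : E n →L[ℝ] ℝ :=
  (1 / 2 : ℝ) • (D u v + D v u - (ContinuousLinearMap.apply ℝ ℝ v).comp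
    ((ContinuousLinearMap.apply ℝ (E n →L[ℝ] ℝ) u).comp D))

theorem chr_K_apply (D : E n →L[ℝ] E n →L[ℝ] E n →L[ℝ] ℝ) (u v w : E n) :
    chr_K D u v w = (D u v w + D v u w - D w u v) / 2 := by
  simp [chr_K]
  ring

/-- The Koszul form as a bilinear map. -/
noncomputable def chr_L (D : E n →L[ℝ] E n →L[ℝ] E n →L[ℝ] ℝ) (J : (E n →L[ℝ] ℝ) →L[ℝ] E n) :
    E n →ₗ[ℝ] E n →ₗ[ℝ] E n :=
  LinearMap.mk₂ ℝ (fun u v => J (chr_K D u v))
    (fun u u' v => by
      rw [← map_add]; congr 1; ext w; simp [chr_K_apply]; ring)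
    (fun c u v => by
      rw [← map_smul]; congr 1; ext w; simp [chr_K_apply]; ring)
    (fun u v v' => by
      rw [← map_add]; congr 1; ext w; simp [chr_K_apply]; ring)
    (fun c u v => by
      rw [← map_smul]; congr 1; ext w; simp [chr_K_apply]; ring)

/-- The Christoffel symbols. -/
noncomputable def chr_G (h : Met n) (x : E n) : E n →L[ℝ] E n →L[ℝ] E n :=
  LinearMap.toContinuousLinearMap
    ((LinearMap.toContinuousLinearMap : (E n →ₗ[ℝ] E n) ≃ₗ[ℝ] E n →L[ℝ] E n).toLinearMap ∘ₗ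
      chr_L (fderiv ℝ h x) (h x).inverse)

theorem chr_G_apply (h : Met n) (x u v : E n) :
    chr_G h x u v = (h x).inverse (chr_K (fderiv ℝ h x) u v) := rfl

theorem chr : SCHR := by
  intro n h hh
  refine ⟨chr_G h, ?_, ?_, ?_⟩
  · rw [contDiff_clm_apply_iff]
    intro u
    rw [contDiff_clm_apply_iff]
    intro v
    simp only [chr_G_apply]
    refine (chr_inv hh).clm_apply ?_
    rw [contDiff_clm_apply_iff]
    intro w
    simp only [chr_K_apply]
    have h1 : ∀ a b c : E n, ContDiff ℝ 1 fun x => fderiv ℝ h x a b c := fun a b c =>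
      ((uni_fd hh.smooth a).clm_apply contDiff_const).clm_apply contDiff_const
    exact (((h1 u v w).add (h1 v u w)).sub (h1 w u v)).div_const 2
  · intro x u v
    rw [chr_G_apply, chr_G_apply]
    congr 1
    ext w
    rw [chr_K_apply, chr_K_apply, chr_dsym hh x w u v]
    ring
  · intro x u v w
    rw [hh.symm x v, chr_G_apply, chr_G_apply, chr_cancel hh, chr_cancel hh, chr_K_apply,
      chr_K_apply, chr_dsym hh x u w v]
    ring

theorem chr_cur {A B C : Type} [NormedAddCommGroup A] [NormedSpace ℝ A] [NormedAddCommGroup B]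
    [NormedSpace ℝ B] [NormedAddCommGroup C] [NormedSpace ℝ C] {f : A → B →L[ℝ] C}
    {f' : A →L[ℝ] B →L[ℝ] C} {c : ℝ → A} {e : ℝ → B} {v : A} {a : B} {t : ℝ}
    (hf : HasFDerivAt f f' (c t)) (hc : HasDerivAt c v t) (he : HasDerivAt e a t) :
    HasDerivAt (fun s => f (c s) (e s)) (f' v (e t) + f (c t) a) t :=
  (hf.comp_hasDerivAt t hc).clm_apply he

theorem ode : SODE := by
  intro n h G Ψ hh hG hΨ p t
  have hP : HasDerivAt (fun s => h (Ψ s p).1.1 (Ψ s p).1.2)
      (uni_q (fderiv ℝ h (Ψ t p).1.1) (Ψ t p).1.2) t := by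
    rw [← hasDerivWithinAt_univ]
    refine uni_weak fun w => ?_
    rw [uni_q_apply]
    exact (hΨ.geo p t w).hasDerivWithinAt
  have hc := hΨ.vel p t
  have hI : DifferentiableAt ℝ (fun z : E n × (E n →L[ℝ] ℝ) => (h z.1).inverse z.2)
      ((Ψ t p).1.1, h (Ψ t p).1.1 (Ψ t p).1.2) :=
    ((((chr_inv hh).comp contDiff_fst).clm_apply contDiff_snd).differentiable (by norm_num)) _
  have hd : DifferentiableAt ℝ (fun s => (Ψ s p).1.2) t := by
    have h1 := hI.comp t (hc.prodMk hP).differentiableAt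
    have h2 : ((fun z : E n × (E n →L[ℝ] ℝ) => (h z.1).inverse z.2) ∘
        fun s => ((Ψ s p).1.1, h (Ψ s p).1.1 (Ψ s p).1.2)) = fun s => (Ψ s p).1.2 := by
      funext s
      simp only [Function.comp, uni_cancel hh]
    rwa [h2] at h1
  have ha := hd.hasDerivAt
  set a := deriv (fun s => (Ψ s p).1.2) t with hadef
  have key : ∀ w, h (Ψ t p).1.1 a w =
      h (Ψ t p).1.1 (-(G (Ψ t p).1.1 (Ψ t p).1.2 (Ψ t p).1.2)) w := by
    intro w
    have h1 : HasFDerivAt h (fderiv ℝ h (Ψ t p).1.1) (Ψ t p).1.1 :=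
      ((hh.smooth.differentiable (by norm_num)) _).hasFDerivAt
    have h3 := (chr_cur h1 hc ha).clm_apply (hasDerivAt_const t w)
    have h4 := h3.unique (hΨ.geo p t w)
    simp at h4
    have c1 := hG.compat (Ψ t p).1.1 (Ψ t p).1.2 (Ψ t p).1.2 w
    have c2 := hG.compat (Ψ t p).1.1 w (Ψ t p).1.2 (Ψ t p).1.2
    rw [hG.symm _ w, hh.symm _ (G _ _ w)] at c2
    simp only [map_neg, ContinuousLinearMap.neg_apply]
    linarith
  have h5 : a = -(G (Ψ t p).1.1 (Ψ t p).1.2 (Ψ t p).1.2) := by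
    rw [← uni_cancel hh (Ψ t p).1.1 a, ← uni_cancel hh (Ψ t p).1.1 (-(G _ _ _))]
    congr 1
    exact ContinuousLinearMap.ext key
  rwa [h5] at ha

end Pool.Agent.MP_3ee8cb_gt.LV
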