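import Pool.Agent.MP_3ee8cb_gt.LV.Spec
import Pool.Agent.MP_3ee8cb_gt.CR.RLIFT

/-! Equivariance of the geodesic flow under the deck group. -/

namespace Pool.Agent.MP_3ee8cb_gt.LV

open CR Set Filter Topology

variable {n : ℕ}

theorem eqv_neg {Γ : Type} [Group Γ] [MulAction Γ (E n)] {g : Met n} (γ : Γ) (p q : UT g) :
    (ng q).1 = tm γ (ng p).1 ↔ q.1 = tm γ p.1 := by
  have h1 : (tm γ (ng p).1).2 = -(tm γ p.1).2 :=
    map_neg (fderiv ℝ (fun y : E n => γ • y) p.1.1) p.1.2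
  rw [Prod.ext_iff, Prod.ext_iff, h1]
  exact and_congr Iff.rfl neg_inj

theorem eqv_pos {g : Met n} {Γ : Type} [Group Γ] [MulAction Γ (E n)] {Φ : ℝ → UT g → UT g}
    (hQ : QP g Γ Φ) (hm : MinP g Φ) (γ : Γ) (p q : UT g) (hq : q.1 = tm γ p.1) {t : ℝ}
    (ht : 0 ≤ t) : (Φ t q).1 = tm γ (Φ t p).1 := by
  have hL : 0 < t + 1 := by linarith
  have hΦ := hQ.rp.flow
  obtain ⟨σ', hσ, -⟩ := hQ.dbr (fun s => γ • (Φ s p).1.1) (t + 1) hL fun s _ u _ => by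
    rw [hQ.rp.inv, hm]
  have h1 : ∀ s ∈ Icc 0 (t + 1), σ' s = (tm γ (Φ s p).1).2 := fun s hs => by
    have h2 : HasDerivAt (fun s => γ • (Φ s p).1.1) (tm γ (Φ s p).1).2 s :=
      (((hQ.rp.deck.smooth γ).differentiable one_ne_zero _).hasFDerivAt).comp_hasDerivAt s
        (hΦ.vel p s)
    exact (uniqueDiffOn_Icc hL s hs).eq_deriv _ (hσ s hs).1 h2.hasDerivWithinAt
  have h3 : GeoOn g (fun s => (Φ s q).1.1) (fun s => (Φ s q).1.2) 0 (t + 1) :=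
    fun s _ => ⟨(hΦ.vel _ s).hasDerivWithinAt, fun w => (hΦ.geo _ s w).hasDerivWithinAt⟩
  have ht' : t ∈ Icc 0 (t + 1) := ⟨ht, by linarith⟩
  have h4 := hQ.rp.uni _ _ _ _ 0 (t + 1) h3 hσ (by simp only [hΦ.zero, hq]; rfl)
    (by rw [h1 0 ⟨le_rfl, hL.le⟩]; simp only [hΦ.zero, hq]) t ht'
  exact Prod.ext h4.1 (h4.2.trans (h1 t ht'))

theorem eqv : SEQV := by
  intro n g Γ _ _ Φ hQ hm γ p q hq t
  rcases le_total 0 t with ht | ht
  · exact eqv_pos hQ hm γ p q hq ht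
  · have h := eqv_pos hQ hm γ (ng p) (ng q) ((eqv_neg γ p q).2 hq) (neg_nonneg.2 ht)
    rw [hQ.rp.fl.rev, hQ.rp.fl.rev, neg_neg] at h
    exact (eqv_neg γ _ _).1 h

/-- The action of one deck transformation on unit vectors. -/
noncomputable def eqv_mv {g : Met n} {Γ : Type} [Group Γ] [MulAction Γ (E n)] (hd : Deck g Γ)
    (γ : Γ) (p : UT g) : UT g :=
  ⟨tm γ p.1, (hd.iso γ p.1.1 p.1.2 p.1.2).trans p.2⟩

/-- The same as a homeomorphism. -/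
noncomputable def eqv_hom {g : Met n} {Γ : Type} [Group Γ] [MulAction Γ (E n)] (hd : Deck g Γ)
    (γ : Γ) : UT g ≃ₜ UT g where
  toFun := eqv_mv hd γ
  invFun := eqv_mv hd γ⁻¹
  left_inv p := Subtype.ext (by
    show tm γ⁻¹ (tm γ p.1) = p.1
    rw [← lift_tm_mul hd, inv_mul_cancel, lift_tm_one])
  right_inv p := Subtype.ext (by
    show tm γ (tm γ⁻¹ p.1) = p.1
    rw [← lift_tm_mul hd, mul_inv_cancel, lift_tm_one])
  continuous_toFun := ((lift_tm_cont hd γ).comp continuous_subtype_val).subtype_mk _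
  continuous_invFun := ((lift_tm_cont hd γ⁻¹).comp continuous_subtype_val).subtype_mk _

theorem mv : SMV := by
  intro n h Λ _ _ Ψ hQ he γ
  have h1 : ∀ t p, (Ψ t (eqv_hom hQ.rp.deck γ p)).1 = tm γ (Ψ t p).1 := fun t p =>
    he γ p _ rfl t
  have h2 : ∀ t p p', dd h (Ψ t (eqv_hom hQ.rp.deck γ p)).1.1 (Ψ t (eqv_hom hQ.rp.deck γ p')).1.1 =
      dd h (Ψ t p).1.1 (Ψ t p').1.1 := fun t p p' => by
    rw [h1, h1]
    exact hQ.rp.inv γ _ _
  refine ⟨eqv_hom hQ.rp.deck γ, fun _ => rfl, fun t p => Subtype.ext (h1 t p).symm,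
    fun p p' hp => ?_, fun p p' hp => ?_⟩
  · simpa only [h2] using hp
  · simpa only [h2] using hp

end Pool.Agent.MP_3ee8cb_gt.LV
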