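import Pool.Agent.MP_3ee8cb_gt.LV.Spec

namespace Pool.Agent.MP_3ee8cb_gt.LV

open CR Set Filter MeasureTheory Topology Real
open scoped RealInnerProductSpace

theorem half (h1 : SSV2) : SHALF := by
  intro n g h Ψ F w₀ U q p C ε C' S B cg z0 add jc ch mB hB st
  haveI := cg.pol
  have cw : Continuous fun a : UT g × ℝ => Ψ a.2 (F a.1) :=
    Continuous.comp (g := fun a : ℝ × UT h => Ψ a.1 a.2)
      (f := fun a : UT g × ℝ => (a.2, F a.1)) jc (by fun_prop)
  have mp : MapsTo (fun a : UT g × ℝ => Ψ a.2 (F a.1)) B U := fun a ha => (hB a ha).1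
  have cq' : ContinuousOn (fun a : UT g × ℝ => q (Ψ a.2 (F a.1))) B :=
    ch.cq.comp cw.continuousOn mp
  have cp' : ContinuousOn (fun a : UT g × ℝ => p (Ψ a.2 (F a.1))) B :=
    ch.cp.comp cw.continuousOn mp
  have ce : Continuous fun a : UT g × ℝ => exp a.2 := by fun_prop
  refine h1 n (UT g × ℝ) B (fun a => exp a.2) (fun a => (cov g a).1) (fun a => (cov g a).2)
    (fun a => q (Ψ a.2 (F a.1))) (fun a => exp a.2 • p (Ψ a.2 (F a.1))) (max C' 0 * exp S) mB
    cg.cont.fst.continuousOn cg.cont.snd.continuousOn cq' (ce.continuousOn.smul cp')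
    cg.inj.injOn ?_ ?_
  · intro a ha b hb hab
    simp only [Prod.mk.injEq] at hab
    obtain ⟨e1, e2⟩ := ch.inj _ (mp ha) _ (mp hb) _ _ (exp_pos _) (exp_pos _) hab.1 hab.2
    have e3 : a.2 = b.2 := exp_injective e2
    have e4 : Ψ (-a.2) (Ψ a.2 (F a.1)) = Ψ (-a.2) (Ψ a.2 (F b.1)) := by
      rw [show Ψ a.2 (F a.1) = Ψ b.2 (F b.1) from e1, e3]
    rw [← add, ← add, neg_add_cancel, z0, z0] at e4
    exact Prod.ext (F.injective e4) e3
  · intro a ha b hb
    have s1 := st a ha b hb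
    have s2 : exp a.2 ≤ exp S := exp_le_exp.2 (hB a ha).2
    have s3 : exp a.2 * (b.2 - a.2 + 1) ≤ exp b.2 := by
      have := mul_le_mul_of_nonneg_left (add_one_le_exp (b.2 - a.2)) (exp_pos a.2).le
      rwa [← exp_add, add_sub_cancel] at this
    simp only [cov, InnerProductSpace.toDual_symm_apply, ContinuousLinearMap.smul_apply,
      smul_eq_mul, real_inner_smul_left]
    generalize g a.1.1.1 a.1.1.2 (b.1.1.1 - a.1.1.1) = X at s1 ⊢
    generalize ⟪p (Ψ a.2 (F a.1)), q (Ψ b.2 (F b.1)) - q (Ψ a.2 (F a.1))⟫ = Y at s1 ⊢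
    have hN : 0 ≤ ‖b.1.1.1 - a.1.1.1‖ ^ 2 + ‖q (Ψ b.2 (F b.1)) - q (Ψ a.2 (F a.1))‖ ^ 2 := by
      positivity
    generalize ‖b.1.1.1 - a.1.1.1‖ ^ 2 + ‖q (Ψ b.2 (F b.1)) - q (Ψ a.2 (F a.1))‖ ^ 2 = N
      at s1 hN ⊢
    have s4 : exp a.2 * C' ≤ max C' 0 * exp S := by
      calc exp a.2 * C' ≤ exp a.2 * max C' 0 :=
            mul_le_mul_of_nonneg_left (le_max_left _ _) (exp_pos _).le
        _ ≤ exp S * max C' 0 := mul_le_mul_of_nonneg_right s2 (le_max_right _ _)
        _ = _ := mul_comm _ _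
    have s5 := mul_le_mul_of_nonneg_right s4 hN
    have s6 := mul_le_mul_of_nonneg_left s1 (exp_pos a.2).le
    nlinarith

theorem glob : SGLOB := by
  intro n g h F cg ch loc B mB
  choose W hW using loc
  have hm : ∀ s : Set (UT g × ℝ), MeasurableSet s → MeasurableSet (Prod.map F id '' s) :=
    fun s hs => (F.prodCongr (Homeomorph.refl ℝ)).measurableEmbedding.measurableSet_image.2 hs
  have a1 : ∀ s : Set (UT g × ℝ), MeasurableSet s →
      Measure.comap (cov g) volume s = volume (cov g '' s) := fun s hs =>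
    Measure.comap_apply _ cg.inj cg.meas _ hs
  have a2 : ∀ s : Set (UT g × ℝ), MeasurableSet s →
      Measure.comap (cov h ∘ Prod.map F id) volume s = volume (cov h '' (Prod.map F id '' s)) :=
    fun s hs => by
      rw [Measure.comap_apply _ (ch.inj.comp (F.injective.prodMap Function.injective_id)) _ _ hs,
        image_comp]
      intro t ht
      rw [image_comp]
      exact ch.meas _ (hm t ht)
  obtain ⟨s, sc, su⟩ := TopologicalSpace.countable_cover_nhds (f := W)
    fun a => (hW a).1.mem_nhds (hW a).2.1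
  have e : Measure.comap (cov g) volume = Measure.comap (cov h ∘ Prod.map F id) volume := by
    refine Measure.ext_of_biUnion_eq_univ sc su fun a _ => ?_
    ext t ht
    have mt : MeasurableSet (t ∩ W a) := ht.inter (hW a).1.measurableSet
    rw [Measure.restrict_apply ht, Measure.restrict_apply ht, a1 _ mt, a2 _ mt]
    exact (hW a).2.2 _ inter_subset_right mt
  unfold Pres
  rw [← a1 B mB, ← a2 B mB, e]

end Pool.Agent.MP_3ee8cb_gt.LV
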