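import Pool.Agent.MP_3ee8cb_gt.LV.Spec

/-! Comparison geometry from the hinge inequality. -/

namespace Pool.Agent.MP_3ee8cb_gt.LV

open CR Set Filter Topology Real

variable {n : ℕ}

theorem hm_min {h : Met n} {Γ : Type} [Group Γ] [MulAction Γ (E n)] {Ψ : ℝ → UT h → UT h}
    (Q : QP h Γ Ψ) {a : ℝ} (ha : 0 < a) (H : Hinge h Ψ a) : MinP h Ψ := by
  have key : ∀ (p : UT h) (s t : ℝ), s ≤ t → dd h (Ψ s p).1.1 (Ψ t p).1.1 = |s - t| := by
    intro p s t hst
    have h1 := H (Ψ s p) (Ψ s p) rfl 0 (t - s) le_rfl (sub_nonneg.2 hst)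
    rw [Q.rp.flow.zero, ← Q.add, sub_add_cancel, mul_zero, cosh_zero, sinh_zero, one_mul,
      zero_mul, mul_zero, sub_zero, cosh_le_cosh] at h1
    have h2 := Q.rp.fl.lip p s t
    have h3 := Q.rp.db.nonneg (Ψ s p).1.1 (Ψ t p).1.1
    rw [abs_mul, abs_mul, abs_of_nonneg h3, abs_of_pos ha] at h1
    have h4 := le_of_mul_le_mul_left h1 ha
    rw [abs_sub_comm] at h4
    exact le_antisymm h2 h4
  intro p s t
  rcases le_total s t with hst | hst
  · exact key p s t hst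
  · rw [Q.rp.db.symm, abs_sub_comm]
    exact key p t s hst

theorem hm_i2 {h : Met n} {Γ : Type} [Group Γ] [MulAction Γ (E n)] {Ψ : ℝ → UT h → UT h}
    (Q : QP h Γ Ψ) {a : ℝ} (ha : 0 < a) (H : Hinge h Ψ a) : I2P h Ψ a := by
  intro p y L t ht htL
  obtain ⟨q, hq, hy⟩ := Q.rp.hr (Ψ t p).1.1 y
  have hρ := Q.rp.db.nonneg (Ψ t p).1.1 y
  have h1 := H (Ψ t p) q hq.symm (L - t) _ (sub_nonneg.2 htL) hρ
  have h2 := H (ng (Ψ t p)) q hq.symm t _ ht hρ
  rw [hy, ← Q.add, sub_add_cancel] at h1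
  rw [hy, Q.rp.fl.rev, ← Q.add, neg_add_cancel, Q.rp.flow.zero] at h2
  have e1 : (ng p).1.1 = p.1.1 := rfl
  have e2 : h (ng (Ψ t p)).1.1 (ng (Ψ t p)).1.2 q.1.2 = -h (Ψ t p).1.1 (Ψ t p).1.2 q.1.2 := by
    simp [ng]
  rw [e1, e2] at h2
  rw [Q.rp.db.symm y (Ψ t p).1.1, Q.rp.db.symm y p.1.1, Q.rp.db.symm y (Ψ L p).1.1]
  have s1 : 0 ≤ sinh (a * t) := sinh_nonneg_iff.2 (by positivity)
  have s2 : 0 ≤ sinh (a * (L - t)) := sinh_nonneg_iff.2 (mul_nonneg ha.le (sub_nonneg.2 htL))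
  have e3 : sinh (a * L) = sinh (a * t) * cosh (a * (L - t)) + cosh (a * t) * sinh (a * (L - t)) := by
    rw [← sinh_add]; congr 1; ring
  have h3 := mul_le_mul_of_nonneg_left h1 s1
  have h4 := mul_le_mul_of_nonneg_left h2 s2
  rw [e3]
  nlinarith [h3, h4]

theorem hm : SHM := fun _ _ _ _ _ _ Q _ ha H => ⟨hm_min Q ha H, hm_i2 Q ha H⟩

theorem hm_ratio (A B : ℝ) (hB : 0 ≤ B) : sinh A ≤ exp (-B) * sinh (A + B) := by
  have e1 : exp (-B) * exp (A + B) = exp A := by rw [← exp_add]; congr 1; ring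
  have e2 : exp (-B) * exp (-(A + B)) ≤ exp (-A) := by
    rw [← exp_add]; exact exp_le_exp.2 (by linarith)
  rw [sinh_eq, sinh_eq]
  nlinarith [e1, e2]

theorem hm_alg (A B X Y D : ℝ) (hA : 0 ≤ A) (hB : 0 ≤ B) (hS : 0 < A + B) (hD : 1 ≤ D)
    (h1 : X * sinh (A + B) ≤ sinh B * cosh (A + B) + sinh A * D)
    (h2 : Y * sinh (A + B) ≤ sinh B * cosh A + sinh A * X) :
    Y ≤ 1 + exp (-(2 * B)) * (D - 1) := by
  have sS : 0 < sinh (A + B) := sinh_pos_iff.2 hS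
  have sA : 0 ≤ sinh A := sinh_nonneg_iff.2 hA
  have hr := hm_ratio A B hB
  have e0 : exp (-(2 * B)) = exp (-B) * exp (-B) := by rw [← exp_add]; congr 1; ring
  have hsq : sinh A * sinh A ≤ exp (-(2 * B)) * (sinh (A + B) * sinh (A + B)) := by
    have := mul_self_le_mul_self sA hr
    rw [e0]; nlinarith [this]
  have id1 : sinh B * cosh A * sinh (A + B) + sinh A * (sinh B * cosh (A + B)) +
      sinh A * sinh A = sinh (A + B) * sinh (A + B) := by
    rw [sinh_add, cosh_add]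
    have c1 := cosh_sq A
    have c2 := cosh_sq B
    have : sinh A * sinh A * (cosh B ^ 2) = sinh A * sinh A * (sinh B ^ 2 + 1) := by rw [c2]
    nlinarith [this]
  have h3 := mul_le_mul_of_nonneg_left h1 sA
  have h4 := mul_le_mul_of_nonneg_right h2 sS.le
  have h5 := mul_le_mul_of_nonneg_right hsq (sub_nonneg.2 hD)
  have h6 : Y * (sinh (A + B) * sinh (A + B)) ≤
      (1 + exp (-(2 * B)) * (D - 1)) * (sinh (A + B) * sinh (A + B)) := by
    nlinarith [h3, h4, h5, id1]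
  exact le_of_mul_le_mul_right h6 (mul_pos sS sS)

theorem th : STH := by
  intro n h Γ _ _ Ψ Q a ha M I p q hpq R T hT hTR
  rcases hT.eq_or_lt with rfl | hT'
  · simp
  have hR : 0 ≤ R := hT.trans hTR
  have ht : 0 ≤ R - T := sub_nonneg.2 hTR
  have h1 := I p (Ψ R q).1.1 R (R - T) ht (by linarith)
  have h2 := I q (Ψ (R - T) p).1.1 R (R - T) ht (by linarith)
  have m1 : dd h (Ψ R q).1.1 p.1.1 = R := by
    have := M q R 0
    rw [Q.rp.flow.zero, sub_zero, abs_of_nonneg hR] at this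
    rw [hpq, this]
  have m2 : dd h (Ψ (R - T) p).1.1 q.1.1 = R - T := by
    have := M p (R - T) 0
    rw [Q.rp.flow.zero, sub_zero, abs_of_nonneg ht] at this
    rw [← hpq, this]
  have e1 : a * R = a * (R - T) + a * T := by ring
  have e2 : R - (R - T) = T := by ring
  rw [m1, e2, Q.rp.db.symm (Ψ R q).1.1 (Ψ (R - T) p).1.1, Q.rp.db.symm (Ψ R q).1.1 (Ψ R p).1.1,
    e1] at h1
  rw [m2, e2, e1] at h2
  have := hm_alg (a * (R - T)) (a * T) _ _ _ (mul_nonneg ha.le ht) (mul_nonneg ha.le hT)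
    (by rw [← e1]; exact mul_pos ha (by linarith)) (one_le_cosh _) h1 h2
  rwa [← mul_assoc] at this

theorem hm_pt (u k C S d : ℝ) (hd : 0 ≤ d)
    (H : cosh u * C - k * (sinh u * S) ≤ cosh d) :
    (1 + exp (-u) * exp (-u)) * C - k * ((1 - exp (-u) * exp (-u)) * S) ≤
      exp (d - u) + exp (-u) := by
  have p1 : 0 < exp (-u) := exp_pos _
  have e1 : exp (-u) * exp u = 1 := by rw [← exp_add]; simp
  have e2 : exp (d - u) = exp (-u) * exp d := by rw [← exp_add]; congr 1; ring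
  have e3 : exp (-d) ≤ 1 := exp_le_one_iff.2 (by linarith)
  have h1 := mul_le_mul_of_nonneg_left H (by positivity : 0 ≤ 2 * exp (-u))
  rw [cosh_eq, sinh_eq, cosh_eq] at h1
  have h2 := mul_le_mul_of_nonneg_left e3 p1.le
  have e4 : 2 * exp (-u) * ((exp u + exp (-u)) / 2 * C - k * ((exp u - exp (-u)) / 2 * S)) =
      (exp (-u) * exp u + exp (-u) * exp (-u)) * C -
        k * ((exp (-u) * exp u - exp (-u) * exp (-u)) * S) := by ring
  rw [e4, e1] at h1
  rw [e2]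
  nlinarith [h1, h2]

theorem lb : SLB := by
  intro n h Γ _ _ Ψ Q a ha H B p q hpq L hL
  have t0 : Tendsto (fun s : ℝ => exp (-(a * s))) atTop (𝓝 0) :=
    tendsto_exp_neg_atTop_nhds_zero.comp (tendsto_id.const_mul_atTop ha)
  have t1 : Tendsto (fun s : ℝ => (1 + exp (-(a * s)) * exp (-(a * s))) * cosh (a * L) -
      h p.1.1 p.1.2 q.1.2 * ((1 - exp (-(a * s)) * exp (-(a * s))) * sinh (a * L))) atTop
      (𝓝 ((1 + 0 * 0) * cosh (a * L) - h p.1.1 p.1.2 q.1.2 * ((1 - 0 * 0) * sinh (a * L)))) :=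
    (((t0.mul t0).const_add 1).mul_const _).sub
      ((((t0.mul t0).const_sub 1).mul_const _).const_mul _)
  have t2 : Tendsto (fun s : ℝ => exp (a * (dd h (Ψ L q).1.1 (Ψ s p).1.1 - s)) + exp (-(a * s)))
      atTop (𝓝 (exp (a * bus h Ψ p (Ψ L q).1.1) + 0)) :=
    ((continuous_exp.tendsto _).comp ((B.lim p _).const_mul a)).add t0
  have := le_of_tendsto_of_tendsto t1 t2 (by
    filter_upwards [eventually_ge_atTop (0 : ℝ)] with s hs
    have h1 := H p q hpq s L hs hL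
    have h2 := hm_pt _ _ _ _ _ (mul_nonneg ha.le (Q.rp.db.nonneg _ _)) h1
    rw [Q.rp.db.symm (Ψ L q).1.1, mul_sub]
    exact h2)
  simpa using this

end Pool.Agent.MP_3ee8cb_gt.LV
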