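import Pool.Agent.MP_3ee8cb_gt.LV.Spec

/-! The geodesic flow is a jointly continuous action of the line. -/

namespace Pool.Agent.MP_3ee8cb_gt.LV

open CR Set Filter Topology

variable {n : ℕ}

theorem jc_ng {g : Met n} (p : UT g) : ng (ng p) = p := by
  apply Subtype.ext
  simp [ng]

theorem jc_cng {g : Met n} : Continuous (ng : UT g → UT g) := by
  refine Continuous.subtype_mk ?_ _
  fun_prop

theorem jc_pos {g : Met n} {Φ : ℝ → UT g → UT g} (hΦ : IsFlow g Φ) (hu : UniP g) (s t : ℝ)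
    (hs : 0 ≤ s) (p : UT g) : Φ (s + t) p = Φ s (Φ t p) := by
  have h1 : GeoOn g (fun u => (Φ (u + t) p).1.1) (fun u => (Φ (u + t) p).1.2) 0 s := by
    intro u _
    refine ⟨?_, fun w => ?_⟩
    · exact (HasDerivAt.comp_add_const u t (hΦ.vel p (u + t))).hasDerivWithinAt
    · exact (HasDerivAt.comp_add_const u t (hΦ.geo p (u + t) w)).hasDerivWithinAt
  have h2 : GeoOn g (fun u => (Φ u (Φ t p)).1.1) (fun u => (Φ u (Φ t p)).1.2) 0 s :=
    fun u _ => ⟨(hΦ.vel _ u).hasDerivWithinAt, fun w => (hΦ.geo _ u w).hasDerivWithinAt⟩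
  have h := hu _ _ _ _ 0 s h1 h2 (by simp [hΦ.zero]) (by simp [hΦ.zero]) s ⟨hs, le_rfl⟩
  exact Subtype.ext (Prod.ext h.1 h.2)

theorem add : SADD := by
  intro n g Γ _ _ Φ R s t p
  rcases le_total 0 s with hs | hs
  · exact jc_pos R.flow R.uni s t hs p
  · have h := jc_pos R.flow R.uni (-s) (-t) (by linarith) (ng p)
    rw [R.fl.rev, R.fl.rev, R.fl.rev, ← neg_add, neg_neg, neg_neg, neg_neg] at h
    rw [← jc_ng (Φ (s + t) p), h, jc_ng]

/-- Uniform closeness of orbits on a forward time interval. -/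
theorem jc_unif (h1 : SODEC) {g : Met n} {Φ : ℝ → UT g → UT g} {G : Con n} (hG : ChrP g G)
    (hΦ : IsFlow g Φ) (hO : OdeP G Φ) (p₀ : UT g) (T ε : ℝ) (hε : 0 < ε) :
    ∀ᶠ p in 𝓝 p₀, ∀ t ∈ Icc 0 T, dist (Φ t p) (Φ t p₀) ≤ ε := by
  let V : E n × E n → E n × E n := fun z => (z.2, -(G z.1 z.2 z.2))
  have hV : ContDiff ℝ 1 V := by
    refine contDiff_snd.prodMk (ContDiff.neg ?_)
    exact ((hG.smooth.comp contDiff_fst).clm_apply contDiff_snd).clm_apply contDiff_snd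
  have hd : ∀ (p : UT g), ∀ t ∈ Icc 0 T,
      HasDerivWithinAt (fun s => (Φ s p).1) (V (Φ t p).1) (Icc 0 T) t :=
    fun p t _ => ((hΦ.vel p t).prodMk (hO p t)).hasDerivWithinAt
  obtain ⟨δ, hδ, H⟩ := h1 (E n × E n) V (fun s => (Φ s p₀).1) T ε hV hε (hd p₀)
  filter_upwards [Metric.closedBall_mem_nhds p₀ hδ] with p hp t ht
  have h0 : ‖(Φ 0 p).1 - (Φ 0 p₀).1‖ ≤ δ := by
    rw [hΦ.zero, hΦ.zero, ← dist_eq_norm]
    exact hp
  have := H (fun s => (Φ s p).1) (hd p) h0 t ht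
  rw [Subtype.dist_eq, dist_eq_norm]
  exact this

theorem jc_dist {g : Met n} (p q : UT g) : dist (ng p) (ng q) = dist p q := by
  rw [Subtype.dist_eq, Subtype.dist_eq, Prod.dist_eq, Prod.dist_eq]
  simp [ng]

theorem jc (h1 : SODEC) (h2 : SCHR) (h3 : SODE) : SJC := by
  intro n g Γ _ _ Φ R
  obtain ⟨G, hG⟩ := h2 n g R.riem
  have hO := h3 n g G Φ R.riem hG R.flow
  refine continuous_iff_continuousAt.mpr fun a => ?_
  obtain ⟨t₀, p₀⟩ := a
  refine Metric.tendsto_nhds.mpr fun ε hε => ?_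
  have hA := jc_unif h1 hG R.flow hO p₀ (|t₀| + 1) (ε / 2) (half_pos hε)
  have hB := (jc_cng (g := g)).continuousAt.tendsto.eventually
    (jc_unif h1 hG R.flow hO (ng p₀) (|t₀| + 1) (ε / 2) (half_pos hε))
  have hC := Metric.tendsto_nhds.mp ((R.fl.cont p₀).tendsto t₀) (ε / 2) (half_pos hε)
  have hD : ∀ᶠ t in 𝓝 t₀, |t| < |t₀| + 1 :=
    continuous_abs.continuousAt.eventually_lt_const (lt_add_one _)
  rw [nhds_prod_eq]
  filter_upwards [(hC.and hD).prod_mk (hA.and hB)] with a ha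
  obtain ⟨⟨hc, hd⟩, ha, hb⟩ := ha
  have key : dist (Φ a.1 a.2) (Φ a.1 p₀) ≤ ε / 2 := by
    rcases le_total 0 a.1 with h | h
    · exact ha a.1 ⟨h, by linarith [le_abs_self a.1]⟩
    · have := hb (-a.1) ⟨by linarith, by linarith [neg_le_abs a.1]⟩
      rwa [R.fl.rev, R.fl.rev, neg_neg, jc_dist] at this
  calc dist (Φ a.1 a.2) (Φ t₀ p₀) ≤ dist (Φ a.1 a.2) (Φ a.1 p₀) + dist (Φ a.1 p₀) (Φ t₀ p₀) :=
        dist_triangle _ _ _
    _ < ε := by linarith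

end Pool.Agent.MP_3ee8cb_gt.LV
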