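import Pool.Agent.MP_3ee8cb_gt.LV.Spec
import Pool.Agent.MP_3ee8cb_gt.CR.RLOW

/-! The key inequality for the chart of hypersurfaces. -/

namespace Pool.Agent.MP_3ee8cb_gt.LV

open CR
open scoped RealInnerProductSpace

theorem key_real0 {κ K : ℝ} (hκ : 0 < κ) (hK : 0 < K) : ∃ δ C : ℝ, 0 < δ ∧ δ < 1 ∧
    ∀ x y t d : ℝ, 0 ≤ x → 0 ≤ y → 0 ≤ t → 0 ≤ d → t ≤ K * (δ * x) + K * y → d ≤ x + K * t →
      K * (x * y) + K * (t * (d + x)) + K * (δ * d ^ 2) ≤ κ * x ^ 2 + C * y ^ 2 := by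
  obtain ⟨L, hL⟩ : ∃ L, L = 1 + K ^ 2 := ⟨_, rfl⟩
  have L0 : 0 < L := by rw [hL]; positivity
  obtain ⟨N, hN⟩ : ∃ N, N = K + K ^ 2 * (L + 1) + K * L ^ 2 := ⟨_, rfl⟩
  have N0 : 0 < N := by rw [hN]; positivity
  obtain ⟨δ, d0, d1, d2⟩ : ∃ δ : ℝ, 0 < δ ∧ δ ≤ 1 / 2 ∧ δ ≤ κ / (2 * N) :=
    ⟨min (1 / 2) (κ / (2 * N)), lt_min (by positivity) (by positivity), min_le_left _ _,
      min_le_right _ _⟩
  refine ⟨δ, N + 2 * N ^ 2 / κ, d0, by linarith, fun x y t d hx hy ht hd h1 h2 => ?_⟩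
  have xy : 0 ≤ x * y := mul_nonneg hx hy
  have dx : δ * x ≤ x := by nlinarith
  have e1 : d ≤ L * (x + y) := by
    have : K * t ≤ K * (K * x + K * y) := by
      refine mul_le_mul_of_nonneg_left (h1.trans ?_) hK.le
      gcongr
    rw [hL]
    nlinarith
  have e2 : t * (d + x) ≤ K * (L + 1) * (δ * x ^ 2 + 2 * (x * y) + y ^ 2) := by
    have a1 : t * (d + x) ≤ (K * (δ * x) + K * y) * ((L + 1) * (x + y)) :=
      mul_le_mul h1 (by nlinarith) (by positivity) (by positivity)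
    have a2 : (δ * x + y) * (x + y) ≤ δ * x ^ 2 + 2 * (x * y) + y ^ 2 := by nlinarith
    calc _ ≤ _ := a1
      _ = K * (L + 1) * ((δ * x + y) * (x + y)) := by ring
      _ ≤ _ := by gcongr
  have e3 : δ * d ^ 2 ≤ L ^ 2 * (δ * x ^ 2 + 2 * (x * y) + y ^ 2) := by
    have a2 : δ * (x + y) ^ 2 ≤ δ * x ^ 2 + 2 * (x * y) + y ^ 2 := by nlinarith [sq_nonneg y]
    calc δ * d ^ 2 ≤ δ * (L * (x + y)) ^ 2 := by gcongr
      _ = L ^ 2 * (δ * (x + y) ^ 2) := by ring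
      _ ≤ _ := by gcongr
  have e4 : x * y ≤ δ * x ^ 2 + 2 * (x * y) + y ^ 2 := by
    have : 0 ≤ δ * x ^ 2 := by positivity
    nlinarith [sq_nonneg y]
  have e5 : N * (δ * x ^ 2) ≤ κ / 2 * x ^ 2 := by
    have : N * δ ≤ κ / 2 := by
      rw [le_div_iff₀ (by positivity)] at d2
      linarith
    rw [← mul_assoc]
    gcongr
  have e6 : N * (2 * (x * y)) ≤ κ / 2 * x ^ 2 + 2 * N ^ 2 / κ * y ^ 2 := by
    have : κ / 2 * x ^ 2 + 2 * N ^ 2 / κ * y ^ 2 - N * (2 * (x * y)) =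
        (κ * x - 2 * N * y) ^ 2 / (2 * κ) := by
      field_simp
      ring
    have h : 0 ≤ (κ * x - 2 * N * y) ^ 2 / (2 * κ) := by positivity
    linarith
  calc _ ≤ K * (δ * x ^ 2 + 2 * (x * y) + y ^ 2) +
        K * (K * (L + 1) * (δ * x ^ 2 + 2 * (x * y) + y ^ 2)) +
        K * (L ^ 2 * (δ * x ^ 2 + 2 * (x * y) + y ^ 2)) := by gcongr
    _ = N * (δ * x ^ 2) + N * (2 * (x * y)) + N * y ^ 2 := by rw [hN]; ring
    _ ≤ _ := by linarith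

theorem key_real {κ k₁ k₂ k₃ k₄ k₅ k₆ : ℝ} (hκ : 0 < κ) (p₁ : 0 < k₁) (p₂ : 0 ≤ k₂) (p₃ : 0 ≤ k₃)
    (p₄ : 0 ≤ k₄) (p₅ : 0 ≤ k₅) (p₆ : 0 ≤ k₆) : ∃ δ C : ℝ, 0 < δ ∧ δ < 1 ∧
    ∀ x y t d : ℝ, 0 ≤ x → 0 ≤ y → 0 ≤ t → 0 ≤ d → t ≤ k₁ * (δ * x) + k₂ * y → d ≤ x + k₃ * t →
      k₄ * (x * y) + k₅ * (t * (d + x)) + k₆ * (δ * d ^ 2) ≤ κ * x ^ 2 + C * y ^ 2 := by
  obtain ⟨δ, C, d0, d1, h⟩ := key_real0 (K := k₁ + k₂ + k₃ + k₄ + k₅ + k₆) hκ (by positivity)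
  refine ⟨δ, C, d0, d1, fun x y t d hx hy ht hd h1 h2 =>
    le_trans ?_ (h x y t d hx hy ht hd (h1.trans ?_) (h2.trans ?_))⟩ <;> gcongr <;> linarith

variable {n : ℕ}

theorem key_l (l : E n →L[ℝ] ℝ) {A X : ℝ} {u : E n} (h1 : ‖l‖ ≤ A) (h2 : ‖u‖ ≤ X) :
    |l u| ≤ A * X :=
  (l.le_opNorm u).trans (mul_le_mul h1 h2 (norm_nonneg _) ((norm_nonneg _).trans h1))

theorem key_b {F : Type} [NormedAddCommGroup F] [NormedSpace ℝ F] (b : E n →L[ℝ] E n →L[ℝ] F)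
    {A X Y : ℝ} {u v : E n} (h1 : ‖b‖ ≤ A) (h2 : ‖u‖ ≤ X) (h3 : ‖v‖ ≤ Y) :
    ‖b u v‖ ≤ A * X * Y := by
  have := (norm_nonneg b).trans h1
  have := (norm_nonneg _).trans h2
  refine (b.le_opNorm₂ u v).trans ?_
  gcongr

theorem key : SKEY := by
  intro n e B b₀ G₀ a ha hs hp he hG hB al
  obtain ⟨c, hc, hc1⟩ := low_coer b₀ hp
  obtain ⟨δ, C, d0, d1, h⟩ := key_real (κ := a / 2 * c) (k₁ := 2 * ‖B‖ + 1)
    (k₂ := ‖e‖ + (2 + ‖b₀ e‖ * 2 * ‖e‖)) (k₃ := ‖e‖) (k₄ := 1 + ‖e‖)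
    (k₅ := ‖b₀ e‖ * ‖G₀‖ * ‖e‖ / 2)
    (k₆ := (‖G₀‖ + 1 + ‖b₀ e‖ + ‖e‖ * ‖B‖) / 2 + a / 2 * (1 + (2 * ‖b₀ e‖ + 1)) + 1)
    (by positivity) (by positivity) (by positivity) (by positivity) (by positivity)
    (by positivity) (by positivity)
  refine ⟨δ, C, d0, d1, fun b G α z D q s hs1 hb hG1 hα α0 hz hD hq hl => ?_⟩
  have st := al.step z D q α α0 hl
  have on := al.on z α α0
  generalize cq (b₀ e) e B z α = q₀ at st on hq ⊢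
  generalize cp (b₀ e) e z α = p₀ at st ⊢
  obtain ⟨P, hP⟩ : ∃ P, P = D - b₀ e D • e := ⟨_, rfl⟩
  obtain ⟨τ, hτ⟩ : ∃ τ, τ = b₀ e D := ⟨_, rfl⟩
  rw [← hP] at st
  have eD : D = P + τ • e := by rw [hP, hτ, sub_add_cancel]
  have lP : b₀ e P = 0 := by rw [hP, map_sub, map_smul, he, smul_eq_mul, mul_one, sub_self]
  have BP : ∀ u, B u D = B u P := fun u => by rw [hB, hB, lP, zero_smul, sub_zero, hP]
  have Bs : B D z = B z D := by rw [hB, hB, hG]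
  have nd : ‖D‖ ≤ ‖P‖ + ‖e‖ * |τ| := by
    rw [eD]
    refine (norm_add_le _ _).trans ?_
    rw [norm_smul, Real.norm_eq_abs, mul_comm]
  have nt : |τ| ≤ (2 * ‖B‖ + 1) * (δ * ‖P‖) + (‖e‖ + (2 + ‖b₀ e‖ * 2 * ‖e‖)) * ‖q - q₀‖ := by
    have e1 : τ = -B z P - B D P / 2 + ⟪q - q₀, e + (z + D - b₀ e (z + D) • e)⟫ + ⟪q₀, P⟫ := by
      have e2 : e + (z + D - b₀ e (z + D) • e) = e + (z - b₀ e z • e) + P := by
        rw [hP, map_add, add_smul]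
        abel
      rw [lv] at hl on
      rw [inner_sub_left, e2, inner_add_right q₀, ← e2, ← BP, ← BP, hτ]
      simp only [map_add, add_apply, Bs] at hl ⊢
      linarith
    have a1 := key_b B le_rfl hz (le_refl ‖P‖)
    have a2 := key_b B le_rfl hD (le_refl ‖P‖)
    have zD : ‖z + D‖ ≤ 2 := (norm_add_le _ _).trans (by linarith)
    have a3 : ‖e + (z + D - b₀ e (z + D) • e)‖ ≤ ‖e‖ + (2 + ‖b₀ e‖ * 2 * ‖e‖) := by
      refine (norm_add_le _ _).trans (add_le_add_right ((norm_sub_le _ _).trans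
        (add_le_add zD ?_)) _)
      rw [norm_smul]
      exact mul_le_mul_of_nonneg_right (key_l _ le_rfl zD) (norm_nonneg _)
    have a4 := (abs_real_inner_le_norm (q - q₀) _).trans
      (mul_le_mul_of_nonneg_left a3 (norm_nonneg _))
    have a5 := (abs_real_inner_le_norm q₀ P).trans (mul_le_mul_of_nonneg_right hq (norm_nonneg _))
    have a6 : 0 ≤ ‖B‖ * δ * ‖P‖ := by positivity
    rw [Real.norm_eq_abs, abs_le] at a1 a2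
    rw [abs_le] at a4 a5 ⊢
    constructor <;> linarith [a1.1, a1.2, a2.1, a2.2, a4.1, a4.2, a5.1, a5.2]
  have H := h ‖P‖ ‖q - q₀‖ |τ| ‖D‖ (norm_nonneg _) (norm_nonneg _) (abs_nonneg _) (norm_nonneg _)
    nt nd
  have b1 : |α e - 1| ≤ δ * ‖e‖ := by
    simpa [he] using key_l (α - b₀ e) hα (le_refl ‖e‖)
  have b2 : |α e * ⟪q - q₀, P⟫| ≤ (1 + ‖e‖) * (‖P‖ * ‖q - q₀‖) := by
    rw [abs_mul, mul_comm ‖P‖]
    refine mul_le_mul ?_ (abs_real_inner_le_norm _ _) (abs_nonneg _) (by positivity)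
    have : δ * ‖e‖ ≤ ‖e‖ := mul_le_of_le_one_left (norm_nonneg _) d1.le
    rw [abs_le] at b1 ⊢
    constructor <;> linarith [b1.1, b1.2, norm_nonneg e]
  have nG : ‖G‖ ≤ ‖G₀‖ + 1 := by linarith [norm_sub_norm_le G G₀]
  have b3 := key_l (α - b₀ e) hα (key_b G nG (le_refl ‖D‖) (le_refl ‖D‖))
  have b4 := key_l (b₀ e) le_rfl (key_b (G - G₀) hG1 (le_refl ‖D‖) (le_refl ‖D‖))
  have b5 : |b₀ e (G₀ D D) - B D D| ≤ ‖b₀ e‖ * ‖G₀‖ * ‖e‖ * (|τ| * (‖D‖ + ‖P‖)) := by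
    have e1 : b₀ e (G₀ D D) - B D D = τ * (b₀ e (G₀ e D) + b₀ e (G₀ P e)) := by
      have e2 : G₀ D D = G₀ P P + τ • G₀ P e + τ • G₀ e D := by
        have e3 : G₀ D D = G₀ P D + τ • G₀ e D := by
          conv_lhs => rw [show G₀ D = G₀ (P + τ • e) from congrArg _ eD, map_add, map_smul]
          rfl
        rw [e3, show G₀ P D = G₀ P (P + τ • e) from congrArg _ eD, map_add, map_smul]
      rw [hB, ← hP, e2, map_add, map_add, map_smul, map_smul, smul_eq_mul, smul_eq_mul]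
      ring
    have a1 := key_l (b₀ e) le_rfl (key_b G₀ le_rfl (le_refl ‖e‖) (le_refl ‖D‖))
    have a2 := key_l (b₀ e) le_rfl (key_b G₀ le_rfl (le_refl ‖P‖) (le_refl ‖e‖))
    rw [e1, abs_mul]
    calc _ ≤ |τ| * (‖b₀ e‖ * (‖G₀‖ * ‖e‖ * ‖D‖) + ‖b₀ e‖ * (‖G₀‖ * ‖P‖ * ‖e‖)) :=
          mul_le_mul_of_nonneg_left ((abs_add_le _ _).trans (add_le_add a1 a2)) (abs_nonneg _)
      _ = _ := by ring
  have b6 : |(α e - 1) * B D D| ≤ δ * ‖e‖ * (‖B‖ * ‖D‖ * ‖D‖) := by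
    rw [abs_mul]
    exact mul_le_mul b1 (key_b B le_rfl le_rfl le_rfl) (abs_nonneg _) (by positivity)
  have b7 : c * ‖P‖ ^ 2 ≤ b₀ D D - τ ^ 2 := by
    refine (hc1 P).trans_eq ?_
    rw [hP, ← hτ]
    simp only [map_sub, map_smul, sub_apply, smul_apply,
      smul_eq_mul, he, hs D e, ← hτ]
    ring
  have b8 := key_b (b - b₀) hb (le_refl ‖D‖) (le_refl ‖D‖)
  have b9 : |α D ^ 2 - τ ^ 2| ≤ δ * ‖D‖ * ((2 * ‖b₀ e‖ + 1) * ‖D‖) := by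
    have a1 := key_l (α - b₀ e) hα (le_refl ‖D‖)
    have a2 := key_l (α + b₀ e) (A := 2 * ‖b₀ e‖ + 1)
      (by linarith [norm_add_le α (b₀ e), norm_sub_norm_le α (b₀ e)]) (le_refl ‖D‖)
    rw [sq_sub_sq, mul_comm, abs_mul, hτ]
    exact mul_le_mul a1 a2 (abs_nonneg _) (by positivity)
  simp only [sub_apply, map_sub, Real.norm_eq_abs] at b3 b4 b8
  have b10 : a / 2 * (c * ‖P‖ ^ 2 - δ * ‖D‖ * ‖D‖ - δ * ‖D‖ * ((2 * ‖b₀ e‖ + 1) * ‖D‖)) ≤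
      a / 2 * (b D D - α D ^ 2) := by
    refine mul_le_mul_of_nonneg_left ?_ (by positivity)
    linarith [(abs_le.1 b8).1, (abs_le.1 b9).2]
  rw [abs_le] at b2 b3 b4 b5 b6
  rcases hs1 with rfl | rfl <;>
    linarith [b2.1, b2.2, b3.1, b3.2, b4.1, b4.2, b5.1, b5.2, b6.1, b6.2]

end Pool.Agent.MP_3ee8cb_gt.LV
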