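import Pool.Agent.MP_3ee8cb_gt.LV.Spec
import Pool.Agent.MP_3ee8cb_gt.CR.RSC
import Pool.Agent.MP_3ee8cb_gt.CR.RLOW
import Pool.Agent.MP_3ee8cb_gt.CR.RLEN

/-! The second order lower bound for Busemann functions. -/

namespace Pool.Agent.MP_3ee8cb_gt.LV

open CR Set Real

variable {n : ℕ}

theorem lb2_exp (y : ℝ) (hy : |y| ≤ 1) : |exp y - (1 + y + y ^ 2 / 2)| ≤ 2 / 9 * |y| ^ 3 := by
  have h := Real.exp_bound hy (n := 3) (by norm_num)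
  simp only [Finset.sum_range_succ, Finset.sum_range_zero, Nat.factorial] at h
  norm_num at h
  calc |exp y - (1 + y + y ^ 2 / 2)| ≤ |y| ^ 3 * (2 / 9) := h
    _ = 2 / 9 * |y| ^ 3 := by ring

theorem lb2_real (x θ b : ℝ) (hx : 0 ≤ x) (hx1 : x ≤ 1 / 4) (hθ : |θ| ≤ 1)
    (hb : cosh x - θ * sinh x ≤ exp b) : -θ * x + (1 - θ ^ 2) * x ^ 2 / 2 - 2 * x ^ 3 ≤ b := by
  obtain ⟨h1, h2⟩ := abs_le.1 hθ
  have hp : 1 + x + x ^ 2 / 2 ≤ exp x := Real.quadratic_le_exp_of_nonneg hx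
  have hm : 1 - x + x ^ 2 / 2 - 2 / 9 * x ^ 3 ≤ exp (-x) := by
    have h := (abs_le.1 (lb2_exp (-x) (by rw [abs_neg, abs_of_nonneg hx]; linarith))).1
    rw [abs_neg, abs_of_nonneg hx] at h
    nlinarith
  have hx3 : 0 ≤ x ^ 3 := by positivity
  have hlow : 1 - θ * x + x ^ 2 / 2 - 2 / 9 * x ^ 3 ≤ cosh x - θ * sinh x := by
    rw [Real.cosh_eq, Real.sinh_eq]
    have a1 := mul_le_mul_of_nonneg_left hp (show 0 ≤ 1 - θ by linarith)
    have a2 := mul_le_mul_of_nonneg_left hm (show 0 ≤ 1 + θ by linarith)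
    have a3 := mul_le_mul_of_nonneg_right (show 1 + θ ≤ 2 by linarith) hx3
    nlinarith
  obtain ⟨w, hw⟩ : ∃ w, w = (1 - θ ^ 2) * x ^ 2 / 2 - 2 * x ^ 3 := ⟨_, rfl⟩
  have hθ2 : θ ^ 2 ≤ 1 := by nlinarith
  have hx2 : 0 ≤ x ^ 2 := by positivity
  have hx23 : x ^ 3 ≤ x ^ 2 / 4 := by nlinarith
  have hw1 : w ≤ x ^ 2 / 2 := by
    have := mul_nonneg (sq_nonneg θ) hx2
    nlinarith
  have hw2 : -(x ^ 2 / 2) ≤ w := by
    have := mul_nonneg (show 0 ≤ 1 - θ ^ 2 by linarith) hx2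
    nlinarith
  have hwa : |w| ≤ x ^ 2 / 2 := abs_le.2 ⟨hw2, hw1⟩
  have htx : |θ * x| ≤ x := by
    rw [abs_mul, abs_of_nonneg hx]
    exact mul_le_of_le_one_left hx hθ
  have hy : |-θ * x + w| ≤ 9 / 8 * x := by
    have e : -θ * x + w = w - θ * x := by ring
    rw [e]
    have := abs_sub w (θ * x)
    nlinarith
  have hy3 : |-θ * x + w| ^ 3 ≤ (9 / 8 * x) ^ 3 := pow_le_pow_left₀ (abs_nonneg _) hy 3
  have hup := (abs_le.1 (lb2_exp (-θ * x + w) (by linarith))).2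
  have hc : |θ * x * w| ≤ x ^ 3 / 2 := by
    rw [abs_mul]
    calc |θ * x| * |w| ≤ x * (x ^ 2 / 2) := mul_le_mul htx hwa (abs_nonneg _) hx
      _ = x ^ 3 / 2 := by ring
  have hc1 := (abs_le.1 hc).1
  have hww : w ^ 2 ≤ x ^ 3 / 16 := by
    have h3 : w ^ 2 ≤ (x ^ 2 / 2) ^ 2 := sq_le_sq' hw2 hw1
    have h4 : x ^ 4 ≤ x ^ 3 / 4 := by nlinarith
    nlinarith
  have hfin : exp (-θ * x + w) ≤ exp b := by
    refine le_trans ?_ (hlow.trans hb)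
    have e : (-θ * x + w) ^ 2 = θ ^ 2 * x ^ 2 - 2 * (θ * x * w) + w ^ 2 := by ring
    have e3 : (9 / 8 * x) ^ 3 = 729 / 512 * x ^ 3 := by ring
    nlinarith
  have := Real.exp_le_exp.1 hfin
  linarith

theorem lb2_op {F : Type} [NormedAddCommGroup F] [NormedSpace ℝ F] (B : E n →L[ℝ] E n →L[ℝ] F)
    {u v : E n} {H p q : ℝ} (hB : ‖B‖ ≤ H) (hu : ‖u‖ ≤ p) (hv : ‖v‖ ≤ q) :
    ‖B u v‖ ≤ H * p * q := by
  have hH : 0 ≤ H := B.opNorm_nonneg.trans hB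
  have hp : 0 ≤ p := (norm_nonneg _).trans hu
  calc ‖B u v‖ ≤ ‖B‖ * ‖u‖ * ‖v‖ := B.le_opNorm₂ u v
    _ ≤ H * p * q := by gcongr

theorem lb2_alg (H V a : ℝ) (hH : 0 ≤ H) (hV : 0 ≤ V) (ha : 0 < a) : ∃ C : ℝ, 0 ≤ C ∧
    ∀ (B : E n →L[ℝ] E n →L[ℝ] ℝ) (G : E n →L[ℝ] E n →L[ℝ] E n) (u e D : E n) (L η : ℝ),
      ‖B‖ ≤ H → ‖G‖ ≤ H → ‖u‖ ≤ V → ‖e‖ ≤ V → B e e = 1 → |B u e| ≤ 1 → 0 ≤ L → L ≤ 1 →
      η ≤ 1 → ‖D - L • e + (L ^ 2 / 2) • G e e‖ ≤ η * L ^ 2 →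
      -B u D - B u (G D D) / 2 + a / 2 * (B D D - B u D ^ 2) ≤
        -B u e * L + a * ((1 - B u e ^ 2) * L ^ 2 / 2) + H * V * η * L ^ 2 + C * L ^ 3 := by
  obtain ⟨S, hS⟩ : ∃ S, S = H * V * V / 2 + 1 := ⟨_, rfl⟩
  have hS0 : 0 ≤ S := by rw [hS]; positivity
  refine ⟨(H * V * (H * V * S) + H * V * (H * S * (V + S))) / 2 +
    a / 2 * (H * V * S + H * S * (V + S) + 2 * (H * V * S)), by positivity, ?_⟩
  intro B G u e D L η hB hG hu he hee hθ hL hL1 hη hρ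
  obtain ⟨ρ, hρd⟩ : ∃ ρ, ρ = D - L • e + (L ^ 2 / 2) • G e e := ⟨_, rfl⟩
  obtain ⟨σ, hσd⟩ : ∃ σ, σ = D - L • e := ⟨_, rfl⟩
  rw [← hρd] at hρ
  have hL2 : 0 ≤ L ^ 2 := by positivity
  have hD : D = L • e + σ := by rw [hσd]; abel
  have hσρ : σ = ρ - (L ^ 2 / 2) • G e e := by rw [hρd, hσd]; abel
  have hGee : ‖G e e‖ ≤ H * V * V := lb2_op G hG he he
  have hσ : ‖σ‖ ≤ S * L ^ 2 := by
    rw [hσρ]
    refine (norm_sub_le _ _).trans ?_
    rw [norm_smul, Real.norm_of_nonneg (by positivity)]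
    have a1 := mul_le_mul_of_nonneg_left hGee (show 0 ≤ L ^ 2 / 2 by positivity)
    have a2 := mul_le_mul_of_nonneg_right hη hL2
    rw [hS]
    linarith
  have hDn : ‖D‖ ≤ (V + S) * L := by
    rw [hD]
    refine (norm_add_le _ _).trans ?_
    rw [norm_smul, Real.norm_of_nonneg hL]
    have a1 := mul_le_mul_of_nonneg_left he hL
    have a2 : L ^ 2 ≤ L := by nlinarith
    have a3 := mul_le_mul_of_nonneg_left a2 hS0
    linarith
  have e1 : B u D = L * B u e - L ^ 2 / 2 * B u (G e e) + B u ρ := by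
    rw [hD, hσρ]
    simp only [map_add, map_sub, map_smul, smul_eq_mul]
    ring
  have e2 : G D D = L ^ 2 • G e e + L • G e σ + G σ D := by
    have a1 : G D D = L • G e D + G σ D := by
      conv_lhs => rw [show G D = G (L • e + σ) by rw [← hD]]
      simp only [map_add, map_smul, add_apply, smul_apply]
    have a2 : G e D = L • G e e + G e σ := by
      conv_lhs => rw [hD]
      simp only [map_add, map_smul]
    rw [a1, a2, smul_add, smul_smul, ← pow_two]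
  have e3 : B u (G D D) = L ^ 2 * B u (G e e) + L * B u (G e σ) + B u (G σ D) := by
    rw [e2]
    simp only [map_add, map_smul, smul_eq_mul]
  have e4 : B D D = L ^ 2 + L * B e σ + B σ D := by
    have a1 : B D D = L * B e D + B σ D := by
      conv_lhs => rw [show B D = B (L • e + σ) by rw [← hD]]
      simp only [map_add, map_smul, add_apply, smul_apply, smul_eq_mul]
    have a2 : B e D = L * B e e + B e σ := by
      conv_lhs => rw [hD]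
      simp only [map_add, map_smul, smul_eq_mul]
    rw [a1, a2, hee]
    ring
  have e5 : B u D = L * B u e + B u σ := by
    conv_lhs => rw [hD]
    simp only [map_add, map_smul, smul_eq_mul]
  have b1 := abs_le.1 (show |B u ρ| ≤ H * V * (η * L ^ 2) from lb2_op B hB hu hρ)
  have b2 := abs_le.1 (show |B u (G e σ)| ≤ H * V * (H * V * (S * L ^ 2)) from
    lb2_op B hB hu (lb2_op G hG he hσ))
  have b3 := abs_le.1 (show |B u (G σ D)| ≤ H * V * (H * (S * L ^ 2) * ((V + S) * L)) from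
    lb2_op B hB hu (lb2_op G hG hσ hDn))
  have b4 := abs_le.1 (show |B e σ| ≤ H * V * (S * L ^ 2) from lb2_op B hB he hσ)
  have b5 := abs_le.1 (show |B σ D| ≤ H * (S * L ^ 2) * ((V + S) * L) from lb2_op B hB hσ hDn)
  have b6 : |B u σ| ≤ H * V * (S * L ^ 2) := lb2_op B hB hu hσ
  have b7 : |B u e * B u σ| ≤ H * V * (S * L ^ 2) := by
    rw [abs_mul]
    exact (mul_le_of_le_one_left (abs_nonneg _) hθ).trans b6
  have c2 := mul_le_mul_of_nonneg_left b2.1 hL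
  have c4 := mul_le_mul_of_nonneg_left b4.2 hL
  have c7 := mul_le_mul_of_nonneg_left (abs_le.1 b7).1 hL
  have d1 : -B u D - B u (G D D) / 2 ≤ -B u e * L + H * V * η * L ^ 2 +
      (H * V * (H * V * S) + H * V * (H * S * (V + S))) / 2 * L ^ 3 := by
    rw [e3, e1]
    linarith [b1.1, b3.1]
  have d2 : B D D - B u D ^ 2 ≤ (1 - B u e ^ 2) * L ^ 2 +
      (H * V * S + H * S * (V + S) + 2 * (H * V * S)) * L ^ 3 := by
    rw [e4, e5]
    linarith [b5.2, sq_nonneg (B u σ)]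
  have d3 := mul_le_mul_of_nonneg_left d2 (show 0 ≤ a / 2 by positivity)
  linarith

theorem lb2 : SLB2 := by
  intro n h Γ _ _ Ψ hq G a ha hG hT hLb R ε hε
  have rp := hq.rp
  obtain ⟨H₁, -, hH₁, -⟩ := sc_bnd h (rp.riem.smooth.of_le (by norm_num)) (R + 1)
  obtain ⟨H₂, -, hH₂, -⟩ := sc_bnd G hG.smooth (R + 1)
  obtain ⟨V, hV, hVb⟩ := sc_vel rp.riem (R + 1)
  obtain ⟨H, hH⟩ : ∃ H, H = max 1 (max H₁ H₂) := ⟨_, rfl⟩
  have hH1 : 1 ≤ H := by rw [hH]; exact le_max_left _ _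
  have hH0 : 0 < H := by linarith
  have hh : ∀ z : E n, ‖z‖ ≤ R + 1 → ‖h z‖ ≤ H := fun z hz =>
    (hH₁ z (mem_closedBall_zero_iff.2 hz)).trans
      (by rw [hH]; exact (le_max_left _ _).trans (le_max_right _ _))
  have hg : ∀ z : E n, ‖z‖ ≤ R + 1 → ‖G z‖ ≤ H := fun z hz =>
    (hH₂ z (mem_closedBall_zero_iff.2 hz)).trans
      (by rw [hH]; exact (le_max_right _ _).trans (le_max_right _ _))
  obtain ⟨C, hC, hA⟩ := lb2_alg (n := n) H V a hH0.le hV ha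
  obtain ⟨η, hη0, hη1, hη2⟩ : ∃ η : ℝ, 0 < η ∧ η ≤ 1 ∧ H * V * η * H ≤ ε / 2 := by
    refine ⟨min 1 (ε / 2 / (H * V * H + 1)), by positivity, min_le_left _ _, ?_⟩
    have a1 : min 1 (ε / 2 / (H * V * H + 1)) * (H * V * H + 1) ≤ ε / 2 :=
      (le_div_iff₀ (by positivity)).1 (min_le_right _ _)
    have a2 : 0 < min 1 (ε / 2 / (H * V * H + 1)) := by positivity
    nlinarith
  obtain ⟨r₁, hr₁, hT1⟩ := hT R η hη0
  obtain ⟨l, hl0, hl1, hl2, hl3, hl4⟩ : ∃ l : ℝ, 0 < l ∧ l ≤ 1 ∧ l ≤ r₁ ∧ a * l ≤ 1 / 4 ∧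
      (C + 2 * a ^ 2) * l * H ≤ ε / 2 := by
    refine ⟨min (min 1 r₁) (min (1 / 4 / a) (ε / 2 / ((C + 2 * a ^ 2) * H))), by positivity,
      (min_le_left _ _).trans (min_le_left _ _), (min_le_left _ _).trans (min_le_right _ _),
      ?_, ?_⟩
    · rw [mul_comm]
      exact (le_div_iff₀ ha).1 ((min_le_right _ _).trans (min_le_left _ _))
    · have a1 := (le_div_iff₀ (show 0 < (C + 2 * a ^ 2) * H by positivity)).1
        ((min_le_right (min 1 r₁) _).trans (min_le_right (1 / 4 / a)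
          (ε / 2 / ((C + 2 * a ^ 2) * H))))
      nlinarith
  have hs0 : 0 < √H := Real.sqrt_pos.2 hH0
  refine ⟨min 1 (l / √H), by positivity, ?_⟩
  intro w D hw hD
  have hD1 : ‖D‖ ≤ 1 := hD.trans (min_le_left _ _)
  have hD2 : ‖D‖ * √H ≤ l := (le_div_iff₀ hs0).1 (hD.trans (min_le_right _ _))
  have hw1 : ‖w.1.1‖ ≤ R + 1 := by linarith
  have hw2 : ‖w.1.1 + D‖ ≤ R + 1 := (norm_add_le _ _).trans (by linarith)
  obtain ⟨q, hq1, hq2⟩ := rp.hr w.1.1 (w.1.1 + D)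
  obtain ⟨L, hL⟩ : ∃ L, L = dd h w.1.1 (w.1.1 + D) := ⟨_, rfl⟩
  rw [← hL] at hq2
  have hL0 : 0 ≤ L := by rw [hL]; exact rp.db.nonneg _ _
  have hLD : L ≤ √H * ‖D‖ := by
    have a1 := len_seg h (R + 1) H hh _ _ hw1 hw2
    rw [add_sub_cancel_left] at a1
    rw [hL]
    exact (rp.db.le_seg _ _).trans a1
  have hLl : L ≤ l := by nlinarith
  have hee : h w.1.1 q.1.2 q.1.2 = 1 := by rw [← hq1]; exact q.2
  have hpos : ∀ v, 0 ≤ h w.1.1 v v := fun v => by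
    by_cases hv : v = 0
    · simp [hv]
    · exact (rp.riem.pos _ _ hv).le
  have hθ : |h w.1.1 w.1.2 q.1.2| ≤ 1 := by
    have a1 := low_cs (h w.1.1) (rp.riem.symm _) hpos w.1.2 q.1.2
    have a2 := low_cs (h w.1.1) (rp.riem.symm _) hpos w.1.2 (-q.1.2)
    simp only [map_neg, neg_apply, neg_neg] at a2
    rw [w.2, hee, Real.sqrt_one] at a1 a2
    exact abs_le.2 ⟨by linarith, by linarith⟩
  have hρ := hT1 q L (by rw [hq1]; exact hw) hL0 (hLl.trans hl2)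
  rw [hq2, hq1, add_sub_cancel_left] at hρ
  have hm := mem_closedBall_zero_iff.2 hw1
  have a1 := hA (h w.1.1) (G w.1.1) w.1.2 q.1.2 D L η (hh _ hw1) (hg _ hw1) (hVb _ hm _ w.2)
    (hVb _ hm _ hee) hee hθ hL0 (hLl.trans hl1) hη1 hρ
  have a2 := hLb w q hq1.symm L hL0
  rw [hq2] at a2
  have a3 := lb2_real (a * L) _ _ (by positivity)
    ((mul_le_mul_of_nonneg_left hLl ha.le).trans hl3) hθ a2
  have a4 : -h w.1.1 w.1.2 q.1.2 * L + a * ((1 - h w.1.1 w.1.2 q.1.2 ^ 2) * L ^ 2 / 2) -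
      2 * a ^ 2 * L ^ 3 ≤ bus h Ψ w (w.1.1 + D) := by
    refine le_of_mul_le_mul_left ?_ ha
    calc _ = -h w.1.1 w.1.2 q.1.2 * (a * L) + (1 - h w.1.1 w.1.2 q.1.2 ^ 2) * (a * L) ^ 2 / 2 -
        2 * (a * L) ^ 3 := by ring
      _ ≤ _ := a3
  have hL2 : L ^ 2 ≤ H * ‖D‖ ^ 2 := by
    calc L ^ 2 ≤ (√H * ‖D‖) ^ 2 := pow_le_pow_left₀ hL0 hLD 2
      _ = H * ‖D‖ ^ 2 := by rw [mul_pow, Real.sq_sqrt hH0.le]
  have hN : 0 ≤ ‖D‖ ^ 2 := by positivity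
  have b1 : H * V * η * L ^ 2 ≤ ε / 2 * ‖D‖ ^ 2 :=
    calc H * V * η * L ^ 2 ≤ H * V * η * (H * ‖D‖ ^ 2) := by gcongr
      _ = H * V * η * H * ‖D‖ ^ 2 := by ring
      _ ≤ _ := by gcongr
  have b2 : (C + 2 * a ^ 2) * L ^ 3 ≤ ε / 2 * ‖D‖ ^ 2 :=
    calc (C + 2 * a ^ 2) * L ^ 3 = (C + 2 * a ^ 2) * L * L ^ 2 := by ring
      _ ≤ (C + 2 * a ^ 2) * l * (H * ‖D‖ ^ 2) := by gcongr
      _ = (C + 2 * a ^ 2) * l * H * ‖D‖ ^ 2 := by ring
      _ ≤ _ := by gcongr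
  linarith

end Pool.Agent.MP_3ee8cb_gt.LV
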