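import Pool.Agent.MP_3ee8cb_gt.LV.Spec
import Pool.Agent.MP_3ee8cb_gt.CR.RLIFT

/-! Rows LIFT2 and COV: the lifted conjugacy covers the given one; the chart of covectors. -/

namespace Pool.Agent.MP_3ee8cb_gt.LV

open CR Set Topology Real
open scoped RealInnerProductSpace

theorem lift2 : SLIFT2 := by
  intro n g h Γ Λ _ _ _ _ Φ Ψ f hn A B hf
  letI := lift_act A.deck
  letI := lift_act B.deck
  have hp := lift_cov A.deck
  have hq := lift_cov B.deck
  obtain ⟨⟨c₀⟩, cX, lX⟩ := lift_ut hn A.riem
  obtain ⟨-, cY, lY⟩ := lift_ut hn B.riem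
  obtain ⟨F, hF, hFl⟩ := lX _ _ _ hq.isCoveringMap hq.surjective (fun c => f (Quot.mk _ c))
    (f.continuous.comp hp.isCoveringMap.continuous)
  obtain ⟨G, hG, hGl⟩ := lY _ _ _ hp.isCoveringMap hp.surjective
    (fun c => f.symm (Quot.mk _ c)) (f.symm.continuous.comp hq.isCoveringMap.continuous)
  obtain ⟨hs, ρ, hρ⟩ := G76.lift_abs hp hq f c₀ hF hFl hG hGl
  have h1 : ∀ a, (Quot.mk _ (G (F a)) : UM g Γ) = Quot.mk _ a := fun a => by
    rw [hGl, hFl, f.symm_apply_apply]
  obtain ⟨γ, hγ⟩ := hp.apply_eq_iff_mem_orbit.1 (h1 c₀)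
  have h2 : G ∘ F = fun a => γ • a :=
    hp.isCoveringMap.eq_of_comp_eq (hG.comp hF) (hp.continuous_const_smul γ)
      (funext fun a => (h1 a).trans (hp.map_smul γ).symm) c₀ hγ.symm
  have h3 : ∀ a, γ⁻¹ • G (F a) = a := fun a => by
    rw [show G (F a) = γ • a from congrFun h2 a, inv_smul_smul]
  refine ⟨ρ,
    { toFun := F
      invFun := fun b => γ⁻¹ • G b
      left_inv := h3
      right_inv := fun b => ?_
      continuous_toFun := hF
      continuous_invFun := (hp.continuous_const_smul γ⁻¹).comp hG }, ⟨fun t c => ?_, ?_⟩,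
    fun p => (hFl p).symm⟩
  · obtain ⟨a, rfl⟩ := hs b
    exact congrArg F (h3 a)
  · have h4 : (fun t : ℝ => F (Φ t c)) = fun t : ℝ => Ψ t (F c) :=
      hq.isCoveringMap.eq_of_comp_eq (hF.comp (A.fl.cont c)) (B.fl.cont (F c))
        (funext fun t => (hFl _).trans (hf t c (F c) (hFl c).symm)) 0
        (by rw [A.flow.zero, B.flow.zero])
    exact congrFun h4 t
  · intro δ p q hpq
    have h5 : q = δ • p := Subtype.ext hpq
    exact congrArg Subtype.val ((congrArg F h5).trans (hρ δ p))

theorem lift2_inner {n : ℕ} (g : Met n) (a : UT g × ℝ) (w : E n) :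
    ⟪(cov g a).2, w⟫ = exp a.2 * g a.1.1.1 a.1.1.2 w := by
  simp only [cov, InnerProductSpace.toDual_symm_apply]
  rfl

theorem lift2_inj {n : ℕ} {g : Met n} (H : Riem g) : Function.Injective (cov g) := by
  rintro ⟨⟨⟨x, v⟩, hv⟩, s⟩ ⟨⟨⟨y, u⟩, hu⟩, t⟩ h
  obtain rfl : x = y := congrArg Prod.fst h
  have h1 : ∀ w, exp s * g x v w = exp t * g x u w := fun w => by
    have := congrArg (fun z : E n × E n => ⟪z.2, w⟫) h
    simpa only [lift2_inner] using this
  have h2 : exp s • v = exp t • u := by
    by_contra hne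
    have h3 := H.pos x _ (sub_ne_zero.2 hne)
    generalize hw : exp s • v - exp t • u = w at h3
    have h4 : g x w w = 0 := by
      have := h1 w
      conv_lhs => arg 1; rw [← hw]
      simp only [map_sub, map_smul, ContinuousLinearMap.sub_apply, ContinuousLinearMap.smul_apply,
        smul_eq_mul]
      linarith
    exact h3.ne' h4
  have hv' : g x v v = 1 := hv
  have hu' : g x u u = 1 := hu
  have h5 : exp s * exp s = exp t * exp t := by
    have a := h1 v
    have b := h1 u
    rw [hv'] at a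
    rw [hu', H.symm] at b
    calc exp s * exp s = exp s * (exp s * 1) := by ring
      _ = exp t * (exp s * g x u v) := by rw [a]; ring
      _ = exp t * exp t := by rw [b]; ring
  have h6 : exp s = exp t := (mul_self_inj (exp_pos s).le (exp_pos t).le).1 h5
  obtain rfl : s = t := exp_injective h6
  obtain rfl : v = u := smul_right_injective _ (exp_pos s).ne' h2
  rfl

theorem cov' : SCOV := by
  intro n g H
  have hg : Continuous g := H.smooth.continuous
  have hcl : IsClosed {p : E n × E n | g p.1 p.2 p.2 = 1} :=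
    isClosed_eq (((hg.comp continuous_fst).clm_apply continuous_snd).clm_apply continuous_snd)
      continuous_const
  have : PolishSpace (UT g) := hcl.polishSpace
  have hc : Continuous (cov g) := by
    have h1 : Continuous fun a : UT g × ℝ => a.1.1.1 := by fun_prop
    have h2 : Continuous fun a : UT g × ℝ => a.1.1.2 := by fun_prop
    exact h1.prodMk ((InnerProductSpace.toDual ℝ (E n)).symm.continuous.comp
      ((continuous_exp.comp continuous_snd).smul ((hg.comp h1).clm_apply h2)))
  refine ⟨inferInstance, hc, lift2_inj H, fun B hB =>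
    hB.image_of_continuousOn_injOn hc.continuousOn (lift2_inj H).injOn, fun B => ?_⟩
  ext z
  constructor
  · rintro ⟨p, hp, r, r0, r1, h1, h2⟩
    refine ⟨(p, log r), ⟨hp, log_nonpos r0.le r1⟩, Prod.ext h1.symm ?_⟩
    refine ext_inner_right ℝ fun w => ?_
    rw [lift2_inner, h2, exp_log r0]
  · rintro ⟨a, ⟨ha, hs⟩, rfl⟩
    exact ⟨a.1, ha, exp a.2, exp_pos _, exp_le_one_iff.2 hs, rfl, lift2_inner g a⟩

end Pool.Agent.MP_3ee8cb_gt.LV
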