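import Pool.Agent.MP_3ee8cb_gt.LV.Spec

/-! Row LP1: the geodesic joining the far past of `w` to the far future of a nearby `w'` passes
close to the foot point of `w`. -/

namespace Pool.Agent.MP_3ee8cb_gt.LV

open CR Set Filter Topology Real

theorem lp1_cosh_ge {t s : ℝ} (h : s ≤ t) : exp s / 2 ≤ cosh t := by
  have h1 := exp_le_exp.mpr h
  have h2 := exp_pos (-t)
  rw [cosh_eq]; linarith

theorem lp1_cosh_le {t s : ℝ} (h0 : 0 ≤ t) (h : t ≤ s) : cosh t ≤ (exp s + 1) / 2 := by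
  have h1 := exp_le_exp.mpr h
  have h2 : exp (-t) ≤ 1 := exp_le_one_iff.mpr (by linarith)
  rw [cosh_eq]; linarith

theorem lp1_sinh_ge {t : ℝ} (h0 : 0 ≤ t) : (exp t - 1) / 2 ≤ sinh t := by
  have h2 : exp (-t) ≤ 1 := exp_le_one_iff.mpr (by linarith)
  rw [sinh_eq]; linarith

theorem lp1_sinh_le (t : ℝ) : sinh t ≤ exp t / 2 := by
  have h2 := exp_pos (-t)
  rw [sinh_eq]; linarith

theorem lp1_first {a j δ L b₀ b₁ : ℝ} (ha : 0 < a) (hj : 0 ≤ j) (hδ : 0 ≤ δ) (hL : 0 ≤ L)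
    (h0 : j - δ ≤ b₀) (h1 : 0 ≤ b₁) (h2 : b₁ ≤ j - 1 + δ)
    (h : cosh (a * b₀) * sinh (a * (j + 1)) ≤
      sinh a * cosh (a * L) + sinh (a * j) * cosh (a * b₁)) :
    exp (a * j) ^ 2 * sinh (a - a * δ) ≤ sinh a * (exp (a * L) + 1) + exp (a * j) := by
  have hx := exp_pos (a * j)
  have e1 : exp (a * j) * exp (-(a * δ)) / 2 ≤ cosh (a * b₀) := by
    rw [← exp_add]; exact lp1_cosh_ge (by nlinarith)
  have e2 : (exp (a * j) * exp a - 1) / 2 ≤ sinh (a * (j + 1)) := by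
    rw [← exp_add, mul_add, mul_one]; exact lp1_sinh_ge (by positivity)
  have e3 : cosh (a * L) ≤ (exp (a * L) + 1) / 2 := lp1_cosh_le (by positivity) le_rfl
  have e4 := lp1_sinh_le (a * j)
  have e5 : cosh (a * b₁) ≤ (exp (a * j) * exp (-(a - a * δ)) + 1) / 2 := by
    rw [← exp_add]; exact lp1_cosh_le (by positivity) (by nlinarith)
  have e6 : exp (-(a * δ)) * exp a = exp (a - a * δ) := by
    rw [← exp_add]; congr 1; ring
  have e7 : exp (-(a * δ)) ≤ 1 := exp_le_one_iff.mpr (neg_nonpos.mpr (by positivity))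
  have e8 : 0 < sinh a := sinh_pos_iff.mpr ha
  have e9 : 1 ≤ exp (a * j) * exp a := by
    rw [← exp_add]; exact one_le_exp (by positivity)
  have f1 : exp (a * j) * exp (-(a * δ)) / 2 * ((exp (a * j) * exp a - 1) / 2) ≤
      cosh (a * b₀) * sinh (a * (j + 1)) :=
    mul_le_mul e1 e2 (by linarith) (cosh_pos _).le
  have f2 : sinh (a * j) * cosh (a * b₁) ≤
      exp (a * j) / 2 * ((exp (a * j) * exp (-(a - a * δ)) + 1) / 2) :=
    mul_le_mul e4 e5 (cosh_pos _).le (by positivity)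
  have f3 := mul_le_mul_of_nonneg_left e3 e8.le
  have f4 := mul_le_mul_of_nonneg_left e7 hx.le
  have f5 : exp (a * j) * exp (-(a * δ)) / 2 * ((exp (a * j) * exp a - 1) / 2) =
      (exp (a * j) ^ 2 * exp (a - a * δ) - exp (a * j) * exp (-(a * δ))) / 4 := by
    rw [← e6]; ring
  rw [sinh_eq (a - a * δ)]
  nlinarith

theorem lp1_second {a j δ L b₀ d : ℝ} (ha : 0 < a) (hj : 0 ≤ j) (hL : j ≤ L)
    (h1 : 0 ≤ b₀) (h2 : b₀ ≤ j + δ)
    (h : cosh (a * d) * sinh (a * L) ≤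
      sinh (a * (L - j)) * cosh (a * j) + sinh (a * j) * cosh (a * b₀)) :
    2 * cosh (a * d) * (exp (a * L) - 1) ≤ exp (a * L) + exp (a * L) / exp (a * j) +
      exp (a * j) ^ 2 * exp (a * δ) + exp (a * j) := by
  have hx := exp_pos (a * j)
  have hL0 : 0 ≤ L := hj.trans hL
  have e1 := lp1_sinh_ge (t := a * L) (by positivity)
  have e2 : sinh (a * (L - j)) ≤ exp (a * L) / exp (a * j) / 2 := by
    rw [← exp_sub, mul_sub]; exact lp1_sinh_le _
  have e3 : cosh (a * j) ≤ (exp (a * j) + 1) / 2 := lp1_cosh_le (by positivity) le_rfl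
  have e4 := lp1_sinh_le (a * j)
  have e5 : cosh (a * b₀) ≤ (exp (a * j) * exp (a * δ) + 1) / 2 := by
    rw [← exp_add]; exact lp1_cosh_le (by positivity) (by nlinarith)
  have f1 := mul_le_mul_of_nonneg_left e1 (cosh_pos (a * d)).le
  have f2 : sinh (a * (L - j)) * cosh (a * j) ≤
      exp (a * L) / exp (a * j) / 2 * ((exp (a * j) + 1) / 2) :=
    mul_le_mul e2 e3 (cosh_pos _).le (by positivity)
  have f3 : sinh (a * j) * cosh (a * b₀) ≤
      exp (a * j) / 2 * ((exp (a * j) * exp (a * δ) + 1) / 2) :=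
    mul_le_mul e4 e5 (cosh_pos _).le (by positivity)
  have f4 : exp (a * L) / exp (a * j) / 2 * ((exp (a * j) + 1) / 2) =
      (exp (a * L) + exp (a * L) / exp (a * j)) / 4 := by
    field_simp
    ring
  nlinarith

theorem lp1_alg1 {x y σ κ θ : ℝ} (hσ : 0 < σ) (hx : 1 ≤ x)
    (hX : 1 / σ + 1 ≤ θ * x) (hκ : (1 - θ) * σ ≤ κ) (h : x ^ 2 * κ ≤ σ * (y + 1) + x) :
    (1 - 2 * θ) * x ^ 2 ≤ y := by
  have h1 : 1 + σ ≤ σ * (θ * x) := by
    have := mul_le_mul_of_nonneg_left hX hσ.le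
    rwa [mul_add, mul_one_div_cancel hσ.ne', mul_one] at this
  have h2 := mul_le_mul_of_nonneg_left hκ (sq_nonneg x)
  have h3 := mul_le_mul_of_nonneg_left h1 (by linarith : 0 ≤ x)
  have h4 := mul_le_mul_of_nonneg_left hx hσ.le
  refine le_of_mul_le_mul_left ?_ hσ
  nlinarith

theorem lp1_alg2 {x y r c θ : ℝ} (hθ : 0 < θ) (hθ1 : θ ≤ 1 / 10) (hX : 1 ≤ θ * x)
    (hr : r ≤ 1 + θ) (hy : (1 - 2 * θ) * x ^ 2 ≤ y) (hxy : x ≤ y)
    (h : 2 * c * (y - 1) ≤ y + y / x + x ^ 2 * r + x) : c < 1 + 10 * θ := by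
  have hx : 10 ≤ x := by nlinarith
  have hx0 : 0 < x := by linarith
  have hy0 : 0 < y := by linarith
  have h1 : y / x ≤ θ * y := by
    rw [div_le_iff₀ hx0]; nlinarith
  have h2 : x ≤ θ * x ^ 2 := by nlinarith
  have h3 : x ^ 2 * r ≤ x ^ 2 * (1 + θ) := mul_le_mul_of_nonneg_left hr (sq_nonneg x)
  have h4 : (1 + 2 * θ) * x ^ 2 ≤ (1 + 5 * θ) * y := by
    have h5 := mul_le_mul_of_nonneg_left hy (by linarith : 0 ≤ 1 + 5 * θ)
    have h6 : (1 + 2 * θ) ≤ (1 + 5 * θ) * (1 - 2 * θ) := by nlinarith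
    have h7 := mul_le_mul_of_nonneg_right h6 (sq_nonneg x)
    nlinarith
  have h5 : 1 ≤ θ * y := by nlinarith
  have h6 : 2 * c * (y - 1) ≤ (2 + 6 * θ) * y := by nlinarith
  by_contra hc
  have hc' : 1 + 10 * θ ≤ c := not_lt.mp hc
  have h7 : 2 * (1 + 10 * θ) * (y - 1) ≤ 2 * c * (y - 1) :=
    mul_le_mul_of_nonneg_right (by linarith) (by linarith)
  have h8 : 0 < θ * y := by linarith
  have h9 : θ * 1 ≤ θ * (θ * y) := mul_le_mul_of_nonneg_left h5 hθ.le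
  have h10 : θ * (θ * y) ≤ 1 / 10 * (θ * y) := mul_le_mul_of_nonneg_right hθ1 h8.le
  nlinarith

theorem lp1_delta {a θ : ℝ} (ha : 0 < a) (hθ : 0 < θ) : ∃ δ : ℝ, 0 < δ ∧
    exp (a * δ) ≤ 1 + θ ∧ (1 - θ) * sinh a ≤ sinh (a - a * δ) := by
  have hs : 0 < sinh a := sinh_pos_iff.mpr ha
  have h1 : ∀ᶠ δ in 𝓝 (0 : ℝ), exp (a * δ) < 1 + θ :=
    (by fun_prop : Continuous fun δ : ℝ => exp (a * δ)).continuousAt.eventually_lt
      continuousAt_const (by simpa using hθ)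
  have h2 : ∀ᶠ δ in 𝓝 (0 : ℝ), (1 - θ) * sinh a < sinh (a - a * δ) :=
    continuousAt_const.eventually_lt
      (by fun_prop : Continuous fun δ : ℝ => sinh (a - a * δ)).continuousAt
      (by simp only [mul_zero, sub_zero]; nlinarith)
  obtain ⟨δ, h3, h4⟩ := (((h1.and h2).filter_mono nhdsWithin_le_nhds).and
    (self_mem_nhdsWithin (s := Ioi (0 : ℝ)))).exists
  exact ⟨δ, h4, h3.1.le, h3.2.le⟩

theorem lp1 : SLP1 := by
  intro n h Λ _ _ Ψ hQ a ha hM hI η hη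
  have hD := hQ.rp.db
  have hc : 1 < cosh (a * η) := one_lt_cosh.mpr (by positivity)
  set θ : ℝ := min (1 / 10) ((cosh (a * η) - 1) / 10) with hθd
  have hθ : 0 < θ := lt_min (by norm_num) (by linarith)
  have hθ1 : θ ≤ 1 / 10 := min_le_left _ _
  have hθ2 : θ ≤ (cosh (a * η) - 1) / 10 := min_le_right _ _
  have hσ : 0 < sinh a := sinh_pos_iff.mpr ha
  obtain ⟨δ, hδ, hr, hκ⟩ := lp1_delta ha hθ
  refine ⟨δ, max 1 ((1 / sinh a + 1) / θ / a), hδ, fun j hj w w' u L h0 h1 hL hu hB => ?_⟩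
  have hj1 : 1 ≤ j := (le_max_left _ _).trans hj
  have hj0 : 0 ≤ j := by linarith
  have hX : 1 / sinh a + 1 ≤ θ * exp (a * j) := by
    have h2 : (1 / sinh a + 1) / θ / a ≤ j := (le_max_right _ _).trans hj
    rw [div_le_iff₀ ha, div_le_iff₀ hθ] at h2
    have h3 := add_one_le_exp (a * j)
    nlinarith
  have hX1 : 1 ≤ θ * exp (a * j) := by
    have : 0 < 1 / sinh a := by positivity
    linarith
  have z := hQ.rp.flow.zero
  have dAB : dd h (Ψ j w').1.1 (Ψ (-j) w).1.1 = L := by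
    have := hM u L 0
    rwa [z, hB, hu, sub_zero, abs_of_nonneg hL] at this
  have dB0 : dd h (Ψ j w').1.1 w'.1.1 = j := by
    have := hM w' j 0
    rwa [z, sub_zero, abs_of_nonneg hj0] at this
  have dB1 : dd h (Ψ j w').1.1 (Ψ 1 w').1.1 = j - 1 := by
    rw [hM w' j 1, abs_of_nonneg (by linarith)]
  have dA0 : dd h w.1.1 (Ψ (-j) w).1.1 = j := by
    have := hM w 0 (-j)
    rwa [z, zero_sub, neg_neg, abs_of_nonneg hj0] at this
  have t1 := hD.tri (Ψ j w').1.1 w.1.1 w'.1.1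
  have t2 := hD.tri (Ψ j w').1.1 w'.1.1 w.1.1
  have t3 := hD.tri (Ψ j w').1.1 (Ψ 1 w').1.1 (Ψ 1 w).1.1
  rw [hD.symm w'.1.1] at t2
  rw [hD.symm (Ψ 1 w').1.1] at t3
  have i1 := hI (Ψ (-j) w) (Ψ j w').1.1 (j + 1) j hj0 (by linarith)
  rw [← hQ.add, ← hQ.add, add_neg_cancel, z, dAB, show j + 1 + -j = 1 by ring,
    show j + 1 - j = 1 by ring, mul_one] at i1
  have k1 := lp1_first ha hj0 hδ.le hL (by linarith) (hD.nonneg _ _) (by linarith) i1
  have hx1 : 1 ≤ exp (a * j) := one_le_exp (by positivity)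
  have k2 := lp1_alg1 hσ hx1 hX hκ k1
  have hxy : exp (a * j) ≤ exp (a * L) := by
    have hx : 10 ≤ exp (a * j) := by nlinarith
    nlinarith
  have hjL : j ≤ L := le_of_mul_le_mul_left (exp_le_exp.mp hxy) ha
  refine ⟨hjL, ?_⟩
  have i2 := hI u w.1.1 L j hj0 hjL
  rw [hu, hB, dA0, hD.symm w.1.1 (Ψ j w').1.1, hD.symm w.1.1] at i2
  have k3 := lp1_second (δ := δ) ha hj0 hjL (hD.nonneg _ _) (by linarith) i2
  have k4 := lp1_alg2 hθ hθ1 hX1 hr k2 hxy k3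
  have k5 : cosh (a * dd h (Ψ j u).1.1 w.1.1) < cosh (a * η) := by linarith
  rw [cosh_lt_cosh, abs_of_nonneg (mul_nonneg ha.le (hD.nonneg _ _)),
    abs_of_nonneg (by positivity)] at k5
  exact (lt_of_mul_lt_mul_left k5 ha.le).le

end Pool.Agent.MP_3ee8cb_gt.LV
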