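import Pool.Agent.MP_3ee8cb_gt.LV.Spec
import Pool.Agent.MP_3ee8cb_gt.CR.RUC

/-! Local product structure: a geodesic backward asymptotic to one and forward asymptotic to
another nearby geodesic. -/

namespace Pool.Agent.MP_3ee8cb_gt.LV

open CR Set Filter MeasureTheory Topology Real

variable {n : ℕ}

theorem lps_decay {f : ℝ → ℝ} {a b : ℝ} (ha : 0 < a) (hb : 0 ≤ b) (h0 : ∀ T, 0 ≤ f T)
    (h : ∀ T, 0 ≤ T → cosh (a * f T) ≤ 1 + exp (-(2 * a * T)) * (cosh (a * b) - 1)) :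
    (∀ T, 0 ≤ T → f T ≤ b) ∧ Tendsto f atTop (𝓝 0) := by
  have hM : 0 ≤ cosh (a * b) - 1 := sub_nonneg.mpr (one_le_cosh _)
  constructor
  · intro T hT
    have h1 : exp (-(2 * a * T)) ≤ 1 := exp_le_one_iff.mpr (by nlinarith [mul_nonneg ha.le hT])
    have h2 : cosh (a * f T) ≤ cosh (a * b) := by nlinarith [h T hT]
    rw [cosh_le_cosh, abs_of_nonneg (mul_nonneg ha.le (h0 T)),
      abs_of_nonneg (mul_nonneg ha.le hb)] at h2
    exact le_of_mul_le_mul_left h2 ha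
  · refine tendsto_order.mpr ⟨fun c hc => Eventually.of_forall fun T => hc.trans_le (h0 T),
      fun c hc => ?_⟩
    have h1 : Tendsto (fun T : ℝ => exp (-(2 * a * T))) atTop (𝓝 0) :=
      tendsto_exp_neg_atTop_nhds_zero.comp (tendsto_id.const_mul_atTop (by positivity))
    have h2 : Tendsto (fun T : ℝ => 1 + exp (-(2 * a * T)) * (cosh (a * b) - 1)) atTop
        (𝓝 (1 + 0 * (cosh (a * b) - 1))) := (h1.mul_const _).const_add _
    have h3 : 1 + 0 * (cosh (a * b) - 1) < cosh (a * c) := by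
      rw [zero_mul, add_zero]
      exact one_lt_cosh.mpr (mul_pos ha hc).ne'
    filter_upwards [h2.eventually_lt_const h3, eventually_ge_atTop 0] with T hT hT0
    have h4 := (h T hT0).trans_lt hT
    rw [cosh_lt_cosh, abs_of_nonneg (mul_nonneg ha.le (h0 T)),
      abs_of_nonneg (mul_pos ha hc).le] at h4
    exact lt_of_mul_lt_mul_left h4 ha.le

theorem lps_foot {h : Met n} {Ψ : ℝ → UT h → UT h} (jc : JcP Ψ) :
    Continuous fun a : ℝ × UT h => (Ψ a.1 a.2).1.1 :=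
  continuous_fst.comp (continuous_subtype_val.comp jc)

theorem lps_tube {h : Met n} {Ψ : ℝ → UT h → UT h} (db : DBP h) (jc : JcP Ψ) (w₀ : UT h) {κ : ℝ}
    (hκ : 0 < κ) : ∀ᶠ w in 𝓝 w₀, ∀ t ∈ Icc (-1 : ℝ) 1, dd h (Ψ t w).1.1 (Ψ t w₀).1.1 < κ := by
  refine isCompact_Icc.eventually_forall_of_forall_eventually fun t _ => ?_
  have c1 : Continuous fun z : UT h × ℝ => (Ψ z.2 z.1).1.1 :=
    (lps_foot jc).comp (continuous_snd.prodMk continuous_fst)
  have c2 : Continuous fun z : UT h × ℝ => (Ψ z.2 w₀).1.1 :=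
    (lps_foot jc).comp (continuous_snd.prodMk continuous_const)
  have c3 : Continuous fun z : UT h × ℝ => dd h (Ψ z.2 z.1).1.1 (Ψ z.2 w₀).1.1 :=
    db.cont.comp (c1.prodMk c2)
  refine c3.continuousAt.eventually_lt_const ?_
  show dd h (Ψ t w₀).1.1 (Ψ t w₀).1.1 < κ
  rw [db.refl]
  exact hκ

theorem lps_mono {a x b e : ℝ} (ha : 0 < a) (hx : 0 ≤ x) (hxb : x ≤ b) (he : 0 ≤ e) :
    1 + e * (cosh (a * x) - 1) ≤ 1 + e * (cosh (a * b) - 1) := by
  have : cosh (a * x) ≤ cosh (a * b) := by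
    rw [cosh_le_cosh, abs_of_nonneg (mul_nonneg ha.le hx),
      abs_of_nonneg (mul_nonneg ha.le (hx.trans hxb))]
    exact mul_le_mul_of_nonneg_left hxb ha.le
  nlinarith

theorem lps_step {h : Met n} {Γ : Type} [Group Γ] [MulAction Γ (E n)] {Ψ : ℝ → UT h → UT h}
    (Q : QP h Γ Ψ) {a : ℝ} (ha : 0 < a) (hm : MinP h Ψ) (hth : ThP h Ψ a) {w w' u : UT h}
    {j L η κ : ℝ} (hj : 0 ≤ j) (hL : L = dd h (Ψ (-j) w).1.1 (Ψ j w').1.1)
    (h1 : u.1.1 = (Ψ (-j) w).1.1) (h2 : (Ψ L u).1.1 = (Ψ j w').1.1) (h3 : j ≤ L)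
    (h4 : dd h (Ψ j u).1.1 w.1.1 ≤ η) (h5 : dd h w.1.1 w'.1.1 ≤ κ) :
    |L - 2 * j| ≤ η + κ ∧ ∀ T, 0 ≤ T → T ≤ j →
      cosh (a * dd h (Ψ (-T) (Ψ j u)).1.1 (Ψ (-T) w).1.1) ≤
        1 + exp (-(2 * a * T)) * (cosh (a * η) - 1) ∧
      cosh (a * dd h (Ψ (T + (L - 2 * j)) (Ψ j u)).1.1 (Ψ T w').1.1) ≤
        1 + exp (-(2 * a * T)) * (cosh (a * (2 * (η + κ))) - 1) := by
  have db := Q.rp.db
  have z0 := Q.rp.flow.zero
  have hη : 0 ≤ η := (db.nonneg _ _).trans h4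
  have m1 : dd h (Ψ (-j) w).1.1 w.1.1 = j := by
    have := hm w (-j) 0
    rw [z0, sub_zero, abs_neg, abs_of_nonneg hj] at this
    exact this
  have m2 : dd h w'.1.1 (Ψ j w').1.1 = j := by
    have := hm w' 0 j
    rw [z0, zero_sub, abs_neg, abs_of_nonneg hj] at this
    exact this
  have m3 : dd h (Ψ j u).1.1 (Ψ j w').1.1 = L - j := by
    have := hm u j L
    rw [h2, abs_sub_comm, abs_of_nonneg (sub_nonneg.mpr h3)] at this
    exact this
  have b1 : L ≤ 2 * j + κ := by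
    have t1 := db.tri (Ψ (-j) w).1.1 w.1.1 (Ψ j w').1.1
    have t2 := db.tri w.1.1 w'.1.1 (Ψ j w').1.1
    linarith
  have b2 : 2 * j - (η + κ) ≤ L := by
    have t1 := db.tri w'.1.1 w.1.1 (Ψ j w').1.1
    have t2 := db.tri w.1.1 (Ψ j u).1.1 (Ψ j w').1.1
    have s1 := db.symm w'.1.1 w.1.1
    have s2 := db.symm w.1.1 (Ψ j u).1.1
    linarith
  have b3 : |L - 2 * j| ≤ η + κ := abs_le.mpr ⟨by linarith, by linarith⟩
  refine ⟨b3, fun T hT hTj => ⟨?_, ?_⟩⟩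
  · have t1 := hth u (Ψ (-j) w) h1 j T hT hTj
    have e1 : Ψ (j - T) u = Ψ (-T) (Ψ j u) := by
      rw [← Q.add]; congr 1; ring
    have e2 : Ψ (j - T) (Ψ (-j) w) = Ψ (-T) w := by
      rw [← Q.add]; congr 1; ring
    have e3 : Ψ j (Ψ (-j) w) = w := by
      rw [← Q.add, add_neg_cancel, z0]
    rw [e1, e2, e3] at t1
    exact t1.trans (lps_mono ha (db.nonneg _ _) h4 (exp_pos _).le)
  · have t1 := hth (ng (Ψ L u)) (ng (Ψ j w')) h2 j T hT hTj
    have e0 : ∀ (s : ℝ) (p : UT h), (Ψ s (ng p)).1.1 = (Ψ (-s) p).1.1 := fun s p => by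
      rw [Q.rp.fl.rev]; rfl
    have e1 : Ψ (-(j - T)) (Ψ L u) = Ψ (T + (L - 2 * j)) (Ψ j u) := by
      rw [← Q.add, ← Q.add]; congr 1; ring
    have e2 : Ψ (-(j - T)) (Ψ j w') = Ψ T w' := by
      rw [← Q.add]; congr 1; ring
    have e3 : Ψ (-j) (Ψ j w') = w' := by
      rw [← Q.add, neg_add_cancel, z0]
    have e4 : Ψ (-j) (Ψ L u) = Ψ (L - j) u := by
      rw [← Q.add]; congr 1; ring
    rw [e0, e0, e0, e0, e1, e2, e3, e4] at t1
    refine t1.trans (lps_mono ha (db.nonneg _ _) ?_ (exp_pos _).le)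
    have t2 := db.tri (Ψ (L - j) u).1.1 (Ψ j u).1.1 w'.1.1
    have t3 := db.tri (Ψ j u).1.1 w.1.1 w'.1.1
    have t4 := hm u (L - j) j
    have t5 : L - j - j = L - 2 * j := by ring
    rw [t5] at t4
    linarith

theorem lps : SLPS := by
  intro n h Γ _ _ Ψ Q a ha hm hth hlp w₀ ε hε
  have db := Q.rp.db
  have z0 := Q.rp.flow.zero
  obtain ⟨δ, J, hδ, hJ⟩ := hlp (ε / 10) (by positivity)
  set κ : ℝ := min (δ / 2) (ε / 20) with hκ
  have hκ0 : 0 < κ := lt_min (by positivity) (by positivity)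
  have hκ1 : κ ≤ δ / 2 := min_le_left _ _
  have hκ2 : κ ≤ ε / 20 := min_le_right _ _
  refine ⟨_, lps_tube db Q.jc w₀ hκ0, fun w hw w' hw' => ?_⟩
  have near : ∀ t ∈ Icc (-1 : ℝ) 1, dd h (Ψ t w).1.1 (Ψ t w').1.1 ≤ 2 * κ := fun t ht => by
    have t1 := db.tri (Ψ t w).1.1 (Ψ t w₀).1.1 (Ψ t w').1.1
    have t2 := db.symm (Ψ t w₀).1.1 (Ψ t w').1.1
    have t3 := hw t ht
    have t4 := hw' t ht
    linarith
  have n0 : dd h w.1.1 w'.1.1 ≤ 2 * κ := by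
    have := near 0 ⟨by norm_num, by norm_num⟩
    rwa [z0, z0] at this
  have n1 := near 1 ⟨by norm_num, le_rfl⟩
  have ex : ∀ k : ℕ, ∃ x : ℝ × UT h, |x.1| ≤ ε / 10 + 2 * κ ∧ dd h x.2.1.1 w.1.1 ≤ ε / 10 ∧
      ∀ T : ℝ, 0 ≤ T → T ≤ k →
        cosh (a * dd h (Ψ (-T) x.2).1.1 (Ψ (-T) w).1.1) ≤
          1 + exp (-(2 * a * T)) * (cosh (a * (ε / 10)) - 1) ∧
        cosh (a * dd h (Ψ (T + x.1) x.2).1.1 (Ψ T w').1.1) ≤
          1 + exp (-(2 * a * T)) * (cosh (a * (2 * (ε / 10 + 2 * κ))) - 1) := by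
    intro k
    set j : ℝ := max J k with hj
    have hj0 : 0 ≤ j := (Nat.cast_nonneg k).trans (le_max_right _ _)
    obtain ⟨u, hu1, hu2⟩ := Q.rp.hr (Ψ (-j) w).1.1 (Ψ j w').1.1
    obtain ⟨l1, l2⟩ := hJ j (le_max_left _ _) w w' u _ (by linarith) (by linarith)
      (db.nonneg _ _) hu1 hu2
    obtain ⟨s1, s2⟩ := lps_step Q ha hm hth hj0 rfl hu1 hu2 l1 l2 n0
    exact ⟨(_, Ψ j u), s1, l2, fun T hT hTk => s2 T hT (hTk.trans (le_max_right _ _))⟩
  choose x hx1 hx2 hx3 using ex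
  have hK : IsCompact (closure {y | dd h w.1.1 y ≤ ε / 10}) :=
    (Q.rp.pro w.1.1 (ε / 10)).isCompact_closure
  have hC := (isCompact_Icc (a := -(ε / 10 + 2 * κ)) (b := ε / 10 + 2 * κ)).prod
    (uc_cpt Q.rp.riem hK)
  obtain ⟨y, hy, φ, hφ, hlim⟩ := hC.tendsto_subseq (x := x) fun k =>
    ⟨abs_le.mp (hx1 k), subset_closure (by
      show dd h w.1.1 (x k).2.1.1 ≤ ε / 10
      rw [db.symm]; exact hx2 k)⟩
  have big : ∀ T : ℝ, ∀ᶠ k : ℕ in atTop, T ≤ (φ k : ℝ) := fun T =>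
    (tendsto_natCast_atTop_atTop.comp hφ.tendsto_atTop).eventually_ge_atTop T
  have l1 : ∀ T, 0 ≤ T → cosh (a * dd h (Ψ (-T) y.2).1.1 (Ψ (-T) w).1.1) ≤
      1 + exp (-(2 * a * T)) * (cosh (a * (ε / 10)) - 1) := by
    intro T hT
    have c1 : Continuous fun z : ℝ × UT h => (Ψ (-T) z.2).1.1 :=
      (lps_foot Q.jc).comp (continuous_const.prodMk continuous_snd)
    have c2 : Continuous fun z : ℝ × UT h =>
        cosh (a * dd h (Ψ (-T) z.2).1.1 (Ψ (-T) w).1.1) :=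
      continuous_cosh.comp (continuous_const.mul (db.cont.comp (c1.prodMk continuous_const)))
    refine le_of_tendsto ((c2.tendsto y).comp hlim) ?_
    filter_upwards [big T] with k hk
    exact (hx3 (φ k) T hT hk).1
  have l2 : ∀ T, 0 ≤ T → cosh (a * dd h (Ψ (T + y.1) y.2).1.1 (Ψ T w').1.1) ≤
      1 + exp (-(2 * a * T)) * (cosh (a * (2 * (ε / 10 + 2 * κ))) - 1) := by
    intro T hT
    have c1 : Continuous fun z : ℝ × UT h => (Ψ (T + z.1) z.2).1.1 :=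
      (lps_foot Q.jc).comp ((continuous_const.add continuous_fst).prodMk continuous_snd)
    have c2 : Continuous fun z : ℝ × UT h =>
        cosh (a * dd h (Ψ (T + z.1) z.2).1.1 (Ψ T w').1.1) :=
      continuous_cosh.comp (continuous_const.mul (db.cont.comp (c1.prodMk continuous_const)))
    refine le_of_tendsto ((c2.tendsto y).comp hlim) ?_
    filter_upwards [big T] with k hk
    exact (hx3 (φ k) T hT hk).2
  obtain ⟨d1, d2⟩ := lps_decay ha (by positivity) (fun T => db.nonneg _ _) l1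
  obtain ⟨d3, d4⟩ := lps_decay ha (by positivity) (fun T => db.nonneg _ _) l2
  have hy1 : |y.1| ≤ ε / 10 + 2 * κ := abs_le.mpr hy.1
  refine ⟨y.2, y.1, fun t ht => ?_, ?_, ?_⟩
  · have ht' : t ∈ Icc (-1 : ℝ) 1 := abs_le.mp ht
    rcases le_total t 0 with h0 | h0
    · have t1 := d1 (-t) (by linarith)
      rw [neg_neg] at t1
      have t2 := db.tri (Ψ t y.2).1.1 (Ψ t w).1.1 (Ψ t w₀).1.1
      have t3 := hw t ht'
      linarith
    · have t1 := d3 t h0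
      have t2 := db.tri (Ψ t y.2).1.1 (Ψ (t + y.1) y.2).1.1 (Ψ t w₀).1.1
      have t3 := db.tri (Ψ (t + y.1) y.2).1.1 (Ψ t w').1.1 (Ψ t w₀).1.1
      have t4 := hw' t ht'
      have t5 := hm y.2 t (t + y.1)
      have t6 : t - (t + y.1) = -y.1 := by ring
      rw [t6, abs_neg] at t5
      linarith
  · refine (d2.comp tendsto_neg_atBot_atTop).congr fun t => ?_
    simp only [Function.comp, neg_neg]
  · refine d4.congr fun t => ?_
    rw [Q.add]

end Pool.Agent.MP_3ee8cb_gt.LV
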