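import Pool.Agent.MP_3ee8cb_gt.LV.Spec
import Pool.Agent.MP_3ee8cb_gt.CR.RMIN

/-! Geodesics of a flow conjugate to a flow with the Morse property realise the distance. -/

namespace Pool.Agent.MP_3ee8cb_gt.LV

open CR Set Filter Topology

variable {n : ℕ}

lemma min2_lim {g h : Met n} {Φ : ℝ → UT g → UT g} {Ψ : ℝ → UT h → UT h} {F : UT g ≃ₜ UT h}
    (db : DBP g) (hadd : AddP Ψ) (hfl : ∀ t p, F (Φ t p) = Ψ t (F p)) (uq : UQ g h Ψ F)
    (l : Filter ℝ) (hl : ∀ P : ℝ → Prop, (∀ᶠ t in l, P t) → ∀ᶠ t in l, ∀ τ ∈ Icc (0 : ℝ) 1, P (τ + t))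
    (p p' : UT g) (hp : Tendsto (fun t => dd h (Ψ t (F p)).1.1 (Ψ t (F p')).1.1) l (𝓝 0)) :
    Tendsto (fun t => dd g (Φ t p).1.1 (Φ t p').1.1) l (𝓝 0) := by
  refine tendsto_order.2 ⟨fun a ha => Eventually.of_forall fun t => ha.trans_le (db.nonneg _ _),
    fun a ha => ?_⟩
  obtain ⟨δ, hδ, hf⟩ := uq.foot (a / 2) (by linarith)
  filter_upwards [hl _ ((tendsto_order.1 hp).2 δ hδ)] with t ht
  refine (hf (Φ t p) (Φ t p') fun τ hτ => ?_).trans_lt (by linarith)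
  rw [hfl, hfl, ← hadd, ← hadd]
  exact (ht τ hτ).le

theorem min2 : SMIN2 := by
  intro n g h Γ Λ _ _ _ _ Φ Ψ ρ F qg qh cj uq mo
  have rp := qg.rp
  refine ⟨fun p s t => le_antisymm (rp.fl.lip p s t) (le_of_forall_pos_le_add fun ε hε => ?_),
    cj.flow, min2_lim rp.db qh.add cj.flow uq atTop fun P hP => ?_,
    min2_lim rp.db qh.add cj.flow uq atBot fun P hP => ?_⟩
  · obtain ⟨δ, hδ, hf⟩ := uq.foot (ε / 2) (by linarith)
    obtain ⟨D, hD⟩ := uq.bdd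
    obtain ⟨j, hj⟩ := mo D (|s| + |t| + 1) δ hδ
    obtain ⟨v, hv1, hv2⟩ := rp.hr (Φ (-j) p).1.1 (Φ j p).1.1
    have h1 := hD v (Φ (-j) p) hv1
    have h2 := hD _ (Φ j p) hv2
    rw [cj.flow] at h1
    rw [cj.flow, cj.flow] at h2
    obtain ⟨s₀, hs1, hs2, hs3⟩ := hj j le_rfl (F p) (F v) _ (rp.db.nonneg _ _) h1 h2
    have hs := abs_nonneg s
    have ht := abs_nonneg t
    have near : ∀ r : ℝ, |r| ≤ |s| + |t| → dd g (Φ (s₀ + r) v).1.1 (Φ r p).1.1 ≤ ε / 2 := by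
      intro r hr
      refine hf _ _ fun τ hτ => ?_
      rw [cj.flow, cj.flow, ← qh.add, ← qh.add, show τ + (s₀ + r) = s₀ + (τ + r) by ring]
      refine hs3 _ ((abs_add_le _ _).trans ?_)
      rw [abs_of_nonneg hτ.1]
      linarith [hτ.2]
    have h4 : dd g (Φ 0 v).1.1 (Φ (dd g (Φ (-j) p).1.1 (Φ j p).1.1) v).1.1 =
        dd g (Φ (-j) p).1.1 (Φ j p).1.1 := by rw [rp.flow.zero, hv1, hv2]
    have h5 := min_seg rp.db rp.fl v _ h4 (s₀ + s) (s₀ + t)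
      ⟨by linarith [neg_abs_le s], by linarith [le_abs_self s]⟩
      ⟨by linarith [neg_abs_le t], by linarith [le_abs_self t]⟩
    rw [add_sub_add_left_eq_sub] at h5
    have h6 := rp.db.tri (Φ (s₀ + s) v).1.1 (Φ s p).1.1 (Φ (s₀ + t) v).1.1
    have h7 := rp.db.tri (Φ s p).1.1 (Φ t p).1.1 (Φ (s₀ + t) v).1.1
    have h8 := near s (by linarith)
    have h9 := near t (by linarith)
    rw [rp.db.symm] at h9
    linarith
  · obtain ⟨T, hT⟩ := eventually_atTop.1 hP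
    exact eventually_atTop.2 ⟨T, fun t ht τ hτ => hT _ (by linarith [hτ.1])⟩
  · obtain ⟨T, hT⟩ := eventually_atBot.1 hP
    exact eventually_atBot.2 ⟨T - 1, fun t ht τ hτ => hT _ (by linarith [hτ.2])⟩

end Pool.Agent.MP_3ee8cb_gt.LV
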