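import Pool.Agent.MP_3ee8cb_gt.LV.Spec

namespace Pool.Agent.MP_3ee8cb_gt.LV

open CR Set Filter MeasureTheory Topology Real
open scoped RealInnerProductSpace

theorem morse_small (a ε K : ℝ) (ha : 0 < a) (hε : 0 < ε) : ∃ M : ℝ, 0 ≤ M ∧ ∀ m d x : ℝ, M ≤ m →
    0 ≤ d → 0 ≤ x → x ≤ K → cosh (a * d) ≤ 1 + exp (-(2 * a * m)) * (cosh (a * x) - 1) →
      d ≤ ε := by
  have hη : 0 < cosh (a * ε) - 1 := by
    have := one_lt_cosh.2 (mul_pos ha hε).ne'
    linarith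
  have h1 : Tendsto (fun m : ℝ => 2 * a * m) atTop atTop :=
    Tendsto.const_mul_atTop (by positivity) tendsto_id
  have h2 : Tendsto (fun m : ℝ => exp (-(2 * a * m)) * (cosh (a * K) - 1)) atTop (𝓝 0) := by
    simpa using (tendsto_exp_neg_atTop_nhds_zero.comp h1).mul_const (cosh (a * K) - 1)
  obtain ⟨M, hM⟩ := eventually_atTop.1 (h2.eventually (gt_mem_nhds hη))
  refine ⟨max M 0, le_max_right _ _, fun m d x hm hd hx hxK h => ?_⟩
  have h3 := hM m ((le_max_left _ _).trans hm)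
  have h4 : cosh (a * x) ≤ cosh (a * K) := by
    rw [cosh_le_cosh, abs_of_nonneg (mul_nonneg ha.le hx),
      abs_of_nonneg (mul_nonneg ha.le (hx.trans hxK))]
    exact mul_le_mul_of_nonneg_left hxK ha.le
  have h5 : exp (-(2 * a * m)) * (cosh (a * x) - 1) ≤ exp (-(2 * a * m)) * (cosh (a * K) - 1) :=
    mul_le_mul_of_nonneg_left (by linarith) (exp_pos _).le
  have h6 : cosh (a * d) ≤ cosh (a * ε) := by linarith
  rw [cosh_le_cosh, abs_of_nonneg (mul_nonneg ha.le hd), abs_of_pos (mul_pos ha hε)] at h6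
  exact le_of_mul_le_mul_left h6 ha

theorem morse : SMORSE := by
  intro n h Γ _ _ Ψ Q a ha hmin hth D T ε hε
  have db := Q.rp.db
  obtain ⟨M, hM0, hM⟩ := morse_small a (ε / 2) (2 * D) ha (by linarith)
  refine ⟨M + |D| + |T|, fun j hj w w' L hL hA hB => ?_⟩
  have hD : 0 ≤ D := (db.nonneg _ _).trans hA
  have hT := le_abs_self T
  have hT0 := abs_nonneg T
  rw [abs_of_nonneg hD] at hj
  have hj0 : 0 ≤ j := by linarith
  obtain ⟨u, hu0, hu1⟩ := Q.rp.hr w'.1.1 (Ψ j w).1.1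
  set L1 := dd h w'.1.1 (Ψ j w).1.1 with hL1
  have hAB : dd h (Ψ (-j) w).1.1 (Ψ j w).1.1 = 2 * j := by
    rw [hmin, show -j - j = -(2 * j) by ring, abs_neg, abs_of_nonneg (by linarith)]
  have hLe : dd h w'.1.1 (Ψ L w').1.1 = L := by
    have := hmin w' 0 L
    rwa [Q.rp.flow.zero, zero_sub, abs_neg, abs_of_nonneg hL] at this
  have t1 := db.tri w'.1.1 (Ψ (-j) w).1.1 (Ψ j w).1.1
  have t2 := db.tri (Ψ (-j) w).1.1 w'.1.1 (Ψ j w).1.1
  have s1 := db.symm (Ψ (-j) w).1.1 w'.1.1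
  have t3 := db.tri w'.1.1 (Ψ L w').1.1 (Ψ j w).1.1
  have t4 := db.tri w'.1.1 (Ψ j w).1.1 (Ψ L w').1.1
  have s2 := db.symm (Ψ j w).1.1 (Ψ L w').1.1
  have b1 : L1 ≤ 2 * j + D := by linarith
  have b2 : 2 * j - D ≤ L1 := by linarith
  have b3 : L1 ≤ L + D := by linarith
  have b4 : L - D ≤ L1 := by linarith
  refine ⟨L1 - j, by linarith, by linarith, fun t ht => ?_⟩
  obtain ⟨ht1, ht2⟩ := abs_le.1 ht
  have f1 : dd h (Ψ (L1 - j + t) w').1.1 (Ψ (L1 - j + t) u).1.1 ≤ ε / 2 := by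
    have k := hth w' u hu0.symm L1 (j - t) (by linarith) (by linarith)
    rw [show L1 - (j - t) = L1 - j + t by ring] at k
    refine hM (j - t) _ _ (by linarith) (db.nonneg _ _) (db.nonneg _ _) ?_ k
    have t5 := db.tri (Ψ L1 w').1.1 (Ψ L w').1.1 (Ψ j w).1.1
    have t6 : |L1 - L| ≤ D := abs_le.2 ⟨by linarith, by linarith⟩
    rw [hmin] at t5
    rw [hu1]
    linarith
  have foot : ∀ (v : UT h) (c r : ℝ), (Ψ r (ng (Ψ c v))).1.1 = (Ψ (c - r) v).1.1 := by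
    intro v c r
    rw [Q.rp.fl.rev, ← Q.add, show -r + c = c - r by ring]
    rfl
  have f2 : dd h (Ψ (L1 - j + t) u).1.1 (Ψ t w).1.1 ≤ ε / 2 := by
    have k := hth (ng (Ψ L1 u)) (ng (Ψ j w)) hu1 L1 (L1 - j + t) (by linarith) (by linarith)
    simp only [foot] at k
    rw [show L1 - (L1 - (L1 - j + t)) = L1 - j + t by ring,
      show j - (L1 - (L1 - j + t)) = t by ring, sub_self, Q.rp.flow.zero, hu0] at k
    refine hM (L1 - j + t) _ _ (by linarith) (db.nonneg _ _) (db.nonneg _ _) ?_ k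
    have t5 := db.tri w'.1.1 (Ψ (-j) w).1.1 (Ψ (j - L1) w).1.1
    have t6 : |-j - (j - L1)| ≤ D := abs_le.2 ⟨by linarith, by linarith⟩
    rw [hmin] at t5
    linarith
  have t7 := db.tri (Ψ (L1 - j + t) w').1.1 (Ψ (L1 - j + t) u).1.1 (Ψ t w).1.1
  linarith

end Pool.Agent.MP_3ee8cb_gt.LV
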