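import Pool.Agent.MP_3ee8cb_gt.LV.Spec

/-! Continuous dependence on the initial point for a continuously differentiable vector field. -/

namespace Pool.Agent.MP_3ee8cb_gt.LV

open CR Set Filter Topology

theorem odec_ici {Z : Type} [NormedAddCommGroup Z] [NormedSpace ℝ Z] {f : ℝ → Z} {T b t : ℝ}
    {w : Z} (hb : b ≤ T) (ht : t ∈ Ico 0 b) (h : HasDerivWithinAt f w (Icc 0 T) t) :
    HasDerivWithinAt f w (Ici t) t := by
  refine h.mono_of_mem_nhdsWithin ?_
  have h1 : Icc t T ∈ 𝓝[≥] t := Icc_mem_nhdsGE (lt_of_lt_of_le ht.2 hb)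
  exact Filter.mem_of_superset h1 (Icc_subset_Icc_left ht.1)

theorem odec : SODEC := by
  intro Z _ _ _ V ζ₀ T ε hV hε h0
  have : ProperSpace Z := FiniteDimensional.proper_real Z
  have hc0 : ContinuousOn ζ₀ (Icc 0 T) := fun t ht => (h0 t ht).continuousWithinAt
  obtain ⟨B, hB⟩ := isCompact_Icc.exists_bound_of_continuousOn hc0
  obtain ⟨K, hK⟩ := LocallyLipschitzOn.exists_lipschitzOnWith_of_compact
    (isCompact_closedBall (0 : Z) (B + 1)) hV.locallyLipschitz.locallyLipschitzOn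
  set η : ℝ := min ε (1 / 2) with hη
  have hη0 : 0 < η := lt_min hε (by norm_num)
  refine ⟨η * Real.exp (-(K * T)), mul_pos hη0 (Real.exp_pos _), ?_⟩
  intro ζ h1 hd
  have hc1 : ContinuousOn ζ (Icc 0 T) := fun t ht => (h1 t ht).continuousWithinAt
  have key : ∀ b ∈ Icc 0 T, (∀ t ∈ Icc 0 b, ‖ζ t - ζ₀ t‖ ≤ 1) → ‖ζ b - ζ₀ b‖ ≤ η := by
    intro b hb hs
    have hsub : ∀ t ∈ Ico 0 b, t ∈ Icc 0 T := fun t ht => ⟨ht.1, ht.2.le.trans hb.2⟩
    have hg := dist_le_of_trajectories_ODE_of_mem (v := fun _ => V)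
      (s := fun _ => Metric.closedBall (0 : Z) (B + 1)) (K := K) (f := ζ) (g := ζ₀) (a := 0)
      (b := b) (δ := η * Real.exp (-(K * T))) (fun _ _ => hK)
      (hc1.mono (Icc_subset_Icc_right hb.2))
      (fun t ht => odec_ici hb.2 ht (h1 t (hsub t ht)))
      (fun t ht => by
        rw [mem_closedBall_zero_iff]
        have e1 : ζ t = ζ₀ t + (ζ t - ζ₀ t) := by abel
        have e2 := hB t (hsub t ht)
        have e3 := hs t ⟨ht.1, ht.2.le⟩
        have e4 := norm_add_le (ζ₀ t) (ζ t - ζ₀ t)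
        rw [← e1] at e4
        linarith)
      (hc0.mono (Icc_subset_Icc_right hb.2))
      (fun t ht => odec_ici hb.2 ht (h0 t (hsub t ht)))
      (fun t ht => by
        rw [mem_closedBall_zero_iff]
        have e2 := hB t (hsub t ht)
        linarith)
      (by rw [dist_eq_norm]; exact hd) b ⟨hb.1, le_rfl⟩
    rw [dist_eq_norm, mul_assoc, ← Real.exp_add] at hg
    have hle : Real.exp (-(K * T) + K * (b - 0)) ≤ 1 := by
      rw [Real.exp_le_one_iff]
      have : (K : ℝ) * b ≤ K * T := mul_le_mul_of_nonneg_left hb.2 K.2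
      linarith
    calc ‖ζ b - ζ₀ b‖ ≤ η * Real.exp (-(K * T) + K * (b - 0)) := hg
      _ ≤ η * 1 := mul_le_mul_of_nonneg_left hle hη0.le
      _ = η := mul_one η
  have hcn : ContinuousOn (fun t => ‖ζ t - ζ₀ t‖) (Icc 0 T) := (hc1.sub hc0).norm
  have hall : ∀ hT : 0 ≤ T, Icc 0 T ⊆ {t | ‖ζ t - ζ₀ t‖ ≤ 1} := by
    intro hT
    refine IsClosed.Icc_subset_of_forall_mem_nhdsGT_of_Icc_subset ?_ ?_ ?_
    · rw [inter_comm]
      exact hcn.preimage_isClosed_of_isClosed isClosed_Icc (isClosed_Iic (a := (1 : ℝ)))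
    · have hle : Real.exp (-(K * T)) ≤ 1 := by
        rw [Real.exp_le_one_iff]
        have : 0 ≤ (K : ℝ) * T := mul_nonneg K.2 hT
        linarith
      have h2 : η ≤ 1 / 2 := min_le_right _ _
      have h3 : η * Real.exp (-(K * T)) ≤ η * 1 := mul_le_mul_of_nonneg_left hle hη0.le
      show ‖ζ 0 - ζ₀ 0‖ ≤ 1
      linarith
    · intro t ht hs
      have htT : t ∈ Icc 0 T := ⟨ht.1, ht.2.le⟩
      have h2 : ‖ζ t - ζ₀ t‖ < 1 := by
        have h3 := key t htT (fun s hs' => hs hs')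
        have h4 : η ≤ 1 / 2 := min_le_right _ _
        linarith
      have h5 : ∀ᶠ s in 𝓝[Icc 0 T] t, ‖ζ s - ζ₀ s‖ < 1 :=
        (hcn t htT).eventually_lt_const h2
      have h6 : 𝓝[>] t ≤ 𝓝[Icc 0 T] t := by
        refine nhdsWithin_le_of_mem ?_
        exact Filter.mem_of_superset (Ioc_mem_nhdsGT ht.2)
          (fun s hs' => ⟨ht.1.trans hs'.1.le, hs'.2⟩)
      exact (h5.filter_mono h6).mono fun s hs' => le_of_lt hs'
  intro t ht
  have hT : 0 ≤ T := ht.1.trans ht.2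
  exact (key t ht fun s hs => hall hT ⟨hs.1, hs.2.trans ht.2⟩).trans (min_le_left _ _)

end Pool.Agent.MP_3ee8cb_gt.LV
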