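import Pool.Agent.MP_3ee8cb_gt.LV.Spec

/-! The two opposite inequalities near a point. -/

namespace Pool.Agent.MP_3ee8cb_gt.LV

open CR Set Filter Topology
open scoped RealInnerProductSpace

theorem star : SSTAR := by
  intro n g h Φ Ψ F a₀ U q p C ε h0 jc bg bh tp lps ch
  obtain ⟨U', hU', hl⟩ := lps _ ε ch.pos
  have cm : Continuous fun a : UT g × ℝ => Ψ a.2 (F a.1) :=
    jc.comp (continuous_snd.prodMk (F.continuous.comp continuous_fst))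
  have cx : Continuous fun a : UT g × ℝ => ‖a.1.1.1‖ :=
    (continuous_fst.comp (continuous_subtype_val.comp continuous_fst)).norm
  obtain ⟨D, hD⟩ := bg.up (‖a₀.1.1.1‖ + 1)
  refine ⟨(fun a : UT g × ℝ => Ψ a.2 (F a.1)) ⁻¹' (U ∩ interior U') ∩
    {a | ‖a.1.1.1‖ < ‖a₀.1.1.1‖ + 1}, max C D,
    ((ch.op.inter isOpen_interior).preimage cm).inter (isOpen_lt cx continuous_const),
    ⟨⟨ch.mem, mem_interior_iff_mem_nhds.2 hU'⟩, by simp⟩, fun a ha => ha.1.1, ?_⟩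
  rintro ⟨v, s⟩ ⟨⟨ha1, ha2⟩, ha3⟩ ⟨v', s'⟩ ⟨⟨hb1, hb2⟩, hb3⟩
  obtain ⟨u, t₀, hu, hbot, htop⟩ := hl _ (interior_subset ha2) _ (interior_subset hb2)
  obtain ⟨t, k1, k2⟩ := ch.key _ ha1 _ hb1 u hu
  simp only at k1 k2 hbot htop ha3 hb3 ⊢
  rw [← bh.top _ _ htop, bh.shift, bh.self] at k1
  rw [← bh.bot _ _ hbot, bh.back] at k2
  obtain ⟨v'', rfl⟩ := F.surjective u
  have e1 := bg.top (Φ t₀ v'') (Φ s' v') (tp.top _ _ (by simpa only [tp.flow] using htop)) v'.1.1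
  have e2 := bg.bot v'' (Φ s v) (tp.bot _ _ (by simpa only [tp.flow] using hbot)) v'.1.1
  have e3 := bg.self v' 0
  rw [h0] at e3
  rw [bg.shift, bg.shift, e3] at e1
  rw [bg.bshift] at e2
  have e4 := bg.opp v'' v'.1.1
  have e5 := hD (ng v) v'.1.1 (le_of_lt ha3) (le_of_lt hb3)
  have e6 : g (ng v).1.1 (ng v).1.2 (v'.1.1 - (ng v).1.1) = -g v.1.1 v.1.2 (v'.1.1 - v.1.1) := by
    simp [ng]
  have e7 : (ng v).1.1 = v.1.1 := rfl
  rw [e6, e7] at e5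
  have m1 := mul_le_mul_of_nonneg_right (le_max_left C D)
    (sq_nonneg ‖q (Ψ s' (F v')) - q (Ψ s (F v))‖)
  have m2 := mul_le_mul_of_nonneg_right (le_max_right C D) (sq_nonneg ‖v'.1.1 - v.1.1‖)
  linarith

end Pool.Agent.MP_3ee8cb_gt.LV
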