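import Pool.Agent.MP_3ee8cb_gt.LV.Spec
import Pool.Agent.MP_3ee8cb_gt.H27.SV

/-! Row SV2: a semiconvex generating function gives a volume preserving correspondence. -/

namespace Pool.Agent.MP_3ee8cb_gt.LV

open CR H27 Set Filter Topology MeasureTheory MeasureTheory.Measure
open scoped RealInnerProductSpace NNReal ENNReal

theorem sv2_le {G : Type*} [NormedAddCommGroup G] [NormedSpace ℝ G] [FiniteDimensional ℝ G]
    [MeasurableSpace G] [BorelSpace G] (μ : Measure G) [IsAddHaarMeasure μ] {Z D : Set G}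
    (hZ : MeasurableSet Z) (hD : MeasurableSet D) (hD0 : μ Dᶜ = 0) {Φ Ψ : G → G} {K : ℝ≥0}
    (hK : LipschitzWith K Φ) {D₁ D₂ : G → G →L[ℝ] G} (d₁ : ∀ z ∈ D, HasFDerivAt Φ (D₁ z) z)
    (d₂ : ∀ z ∈ D, HasFDerivAt Ψ (D₂ z) z) (dd : ∀ z ∈ D, |(D₁ z).det| = |(D₂ z).det|)
    (hi : InjOn Ψ Z) : μ (Φ '' Z) ≤ μ (Ψ '' Z) :=
  calc μ (Φ '' Z) ≤ μ (Φ '' (Z ∩ D) ∪ Φ '' Dᶜ) := by
        refine measure_mono ?_
        rintro _ ⟨a, ha, rfl⟩
        by_cases h : a ∈ D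
        · exact Or.inl ⟨a, ⟨ha, h⟩, rfl⟩
        · exact Or.inr ⟨a, h, rfl⟩
    _ ≤ μ (Φ '' (Z ∩ D)) + μ (Φ '' Dᶜ) := measure_union_le _ _
    _ = μ (Φ '' (Z ∩ D)) := by rw [sv_null μ hK hD0, add_zero]
    _ ≤ ∫⁻ z in Z ∩ D, ENNReal.ofReal |(D₁ z).det| ∂μ :=
        addHaar_image_le_lintegral_abs_det_fderiv μ (hZ.inter hD)
          fun z hz => (d₁ z hz.2).hasFDerivWithinAt
    _ = ∫⁻ z in Z ∩ D, ENNReal.ofReal |(D₂ z).det| ∂μ :=
        setLIntegral_congr_fun (hZ.inter hD) fun z hz => by simp only [dd z hz.2]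
    _ ≤ μ (Ψ '' (Z ∩ D)) :=
        lintegral_abs_det_fderiv_le_addHaar_image μ (hZ.inter hD)
          (fun z hz => (d₂ z hz.2).hasFDerivWithinAt) (hi.mono inter_subset_left)
    _ ≤ _ := measure_mono (image_mono inter_subset_left)

variable {F : Type*} [NormedAddCommGroup F] [InnerProductSpace ℝ F] [FiniteDimensional ℝ F]

theorem sv2_det (L D₁ D₂ : F × F →L[ℝ] F × F) (C : ℝ)
    (hL : ∀ a b : F, ⟪(L (0, a)).1, b⟫ = ⟪(L (b, 0)).2, a⟫)
    (h₁ : ∀ z, D₁ z = (z.1 - (L z).1, -(L z).1 + C • (z.1 - (L z).1)))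
    (h₂ : ∀ z, D₂ z = (z.2 - (L z).2, (L z).2 - C • (z.2 - (L z).2))) : |D₁.det| = |D₂.det| := by
  let s' := ContinuousLinearMap.snd ℝ F F
  let D₃ : F × F →L[ℝ] F × F := (s'.comp L).prod (s' - s'.comp L)
  let f := LinearMap.fst ℝ F F
  let s := LinearMap.snd ℝ F F
  have e : (D₂ : F × F →ₗ[ℝ] F × F) = (f.prod (-s)) ∘ₗ (f.prod (C • f - s)) ∘ₗ (s.prod f) ∘ₗ
      (D₃ : F × F →ₗ[ℝ] F × F) := by
    refine LinearMap.ext fun z => ?_
    rw [ContinuousLinearMap.coe_coe, h₂]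
    refine Prod.ext ?_ ?_ <;> simp [D₃, s', f, s]
  have i₁ := sv_invol (f.prod (C • f - s)) (fun z => by simp [f, s])
  have i₂ := sv_invol (s.prod f) (fun z => by simp [f, s])
  have i₃ := sv_invol (f.prod (-s)) (fun z => by simp [f, s])
  rw [sv_det L D₁ D₃ C hL h₁ fun _ => rfl, ContinuousLinearMap.det, ContinuousLinearMap.det, e]
  simp only [LinearMap.det_comp, abs_mul, i₁, i₂, i₃, one_mul]

variable [MeasurableSpace F] [BorelSpace F] {ι : Type} [TopologicalSpace ι] [PolishSpace ι]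
  [MeasurableSpace ι] [BorelSpace ι]

theorem sv2_bdd (μ : Measure (F × F)) [IsAddHaarMeasure μ] (A : Set ι) (u : ι → ℝ)
    (x P q p : ι → F) (C R : ℝ) (hA : MeasurableSet A) (hx : ContinuousOn x A)
    (hP : ContinuousOn P A) (hq : ContinuousOn q A) (hp : ContinuousOn p A)
    (i₁ : InjOn (fun a => (x a, P a)) A) (i₂ : InjOn (fun a => (q a, p a)) A)
    (hR : ∀ a ∈ A, ‖(WithLp.toLp 2 (-P a + (2 * C) • x a, p a + (2 * C) • q a) :
      WithLp 2 (F × F))‖ ≤ R)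
    (hu : ∀ a ∈ A, ∀ b ∈ A, u a - ⟪P a, x b - x a⟫ + ⟪p a, q b - q a⟫ -
      C * (‖x b - x a‖ ^ 2 + ‖q b - q a‖ ^ 2) ≤ u b) :
    μ ((fun a => (x a, P a)) '' A) = μ ((fun a => (q a, p a)) '' A) := by
  let e := WithLp.prodContinuousLinearEquiv 2 ℝ F F
  obtain ⟨N, hN, hNa, hs⟩ := sv_minty (F := WithLp 2 (F × F)) A
    (fun a => WithLp.toLp 2 (x a, q a))
    (fun a => WithLp.toLp 2 (-P a + (2 * C) • x a, p a + (2 * C) • q a))
    (fun a => u a + C * (‖x a‖ ^ 2 + ‖q a‖ ^ 2)) R hR (by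
      intro a ha b hb
      have h1 := hu b hb a ha
      rw [norm_sub_sq_real, norm_sub_sq_real] at h1
      simp only [WithLp.prod_inner_apply, inner_sub_right, inner_neg_left, inner_add_left,
        real_inner_smul_left, real_inner_self_eq_norm_sq] at h1 ⊢
      rw [real_inner_comm (x b) (x a), real_inner_comm (q b) (q a)] at h1
      nlinarith)
  let M : F × F → F × F := fun z => e (N (e.symm z))
  obtain ⟨K, hM⟩ : ∃ K, LipschitzWith K M :=
    ⟨_, (e : WithLp 2 (F × F) →L[ℝ] F × F).lipschitz.comp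
      (hN.comp (e.symm : F × F →L[ℝ] WithLp 2 (F × F)).lipschitz)⟩
  let ζ : ι → F × F := fun a => (x a + (-P a + (2 * C) • x a), q a + (p a + (2 * C) • q a))
  have hMa : ∀ a ∈ A, M (ζ a) = (-P a + (2 * C) • x a, p a + (2 * C) • q a) := by
    intro a ha
    have : e.symm (ζ a) = WithLp.toLp 2 (x a, q a) +
      WithLp.toLp 2 (-P a + (2 * C) • x a, p a + (2 * C) • q a) := rfl
    simp only [M]
    rw [this, hNa a ha]; rfl
  let Φ : F × F → F × F := fun z => (z.1 - (M z).1, -(M z).1 + (2 * C) • (z.1 - (M z).1))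
  let Ψ : F × F → F × F := fun z => (z.2 - (M z).2, (M z).2 - (2 * C) • (z.2 - (M z).2))
  have hΦ : ∀ a ∈ A, Φ (ζ a) = (x a, P a) := fun a ha => by
    simp only [Φ, hMa a ha]; simp [ζ]
  have hΨ : ∀ a ∈ A, Ψ (ζ a) = (q a, p a) := fun a ha => by
    simp only [Ψ, hMa a ha]; simp [ζ]
  have hζ : InjOn ζ A := fun a ha b hb h => i₂ ha hb (by
    simp only [← hΨ a ha, ← hΨ b hb, h])
  have hZ : MeasurableSet (ζ '' A) := hA.image_of_continuousOn_injOn (by
    simp only [ζ]; fun_prop) hζ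
  let D := {z | DifferentiableAt ℝ M z}
  have hD : MeasurableSet D := measurableSet_of_differentiableAt ℝ M
  have hD0 : μ Dᶜ = 0 := hM.ae_differentiableAt (μ := μ)
  let f := ContinuousLinearMap.fst ℝ F F
  let s := ContinuousLinearMap.snd ℝ F F
  let f' := ContinuousLinearMap.fst ℝ (F × F) (F × F)
  let s' := ContinuousLinearMap.snd ℝ (F × F) (F × F)
  have k₁ : LipschitzWith _ Φ := ((f.comp f' - f.comp s').prod
    (-f.comp s' + (2 * C) • (f.comp f' - f.comp s'))).lipschitz.comp (LipschitzWith.id.prodMk hM)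
  have k₂ : LipschitzWith _ Ψ := ((s.comp f' - s.comp s').prod
    (s.comp s' - (2 * C) • (s.comp f' - s.comp s'))).lipschitz.comp (LipschitzWith.id.prodMk hM)
  let D₁ : F × F → F × F →L[ℝ] F × F := fun z => (f - f.comp (fderiv ℝ M z)).prod
    (-f.comp (fderiv ℝ M z) + (2 * C) • (f - f.comp (fderiv ℝ M z)))
  let D₂ : F × F → F × F →L[ℝ] F × F := fun z => (s - s.comp (fderiv ℝ M z)).prod
    (s.comp (fderiv ℝ M z) - (2 * C) • (s - s.comp (fderiv ℝ M z)))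
  have d₁ : ∀ z ∈ D, HasFDerivAt Φ (D₁ z) z := by
    intro z hz
    have h := hz.hasFDerivAt.fst
    exact (hasFDerivAt_fst.sub h).prodMk (h.neg.add ((hasFDerivAt_fst.sub h).const_smul (2 * C)))
  have d₂ : ∀ z ∈ D, HasFDerivAt Ψ (D₂ z) z := by
    intro z hz
    have h := hz.hasFDerivAt.snd
    exact (hasFDerivAt_snd.sub h).prodMk (h.sub ((hasFDerivAt_snd.sub h).const_smul (2 * C)))
  have dd : ∀ z ∈ D, |(D₁ z).det| = |(D₂ z).det| := by
    intro z hz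
    refine sv2_det (fderiv ℝ M z) _ _ (2 * C) (fun a b => ?_) (fun _ => rfl) (fun _ => rfl)
    have h0 : HasFDerivAt M (fderiv ℝ M z) (e (e.symm z)) := by
      rw [e.apply_symm_apply]; exact hz.hasFDerivAt
    have h1 := (e.symm.hasFDerivAt (x := M (e (e.symm z)))).comp (e.symm z)
      (h0.comp (e.symm z) e.hasFDerivAt)
    have h2 : (e.symm ∘ M ∘ e) = N := by funext y; simp [M]
    rw [h2] at h1
    have h3 := hs _ _ h1 (WithLp.toLp 2 (0, a)) (WithLp.toLp 2 (b, 0))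
    simpa [e] using h3
  have j₁ : InjOn Φ (ζ '' A) := by
    rintro _ ⟨a, ha, rfl⟩ _ ⟨b, hb, rfl⟩ h
    rw [hΦ a ha, hΦ b hb] at h
    rw [i₁ ha hb h]
  have j₂ : InjOn Ψ (ζ '' A) := by
    rintro _ ⟨a, ha, rfl⟩ _ ⟨b, hb, rfl⟩ h
    rw [hΨ a ha, hΨ b hb] at h
    rw [i₂ ha hb h]
  rw [← image_congr hΦ, ← image_congr hΨ, ← image_image Φ ζ, ← image_image Ψ ζ]
  exact le_antisymm (sv2_le μ hZ hD hD0 k₁ d₁ d₂ dd j₂)
    (sv2_le μ hZ hD hD0 k₂ d₂ d₁ (fun z hz => (dd z hz).symm) j₁)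

theorem sv2 : SSV2 := by
  intro n ι _ _ _ _ A u x P q p C hA hx hP hq hp i₁ i₂ hu
  let g : ι → ℝ := fun a =>
    ‖(WithLp.toLp 2 (-P a + (2 * C) • x a, p a + (2 * C) • q a) : WithLp 2 (E n × E n))‖
  have hg : ContinuousOn g A := by
    refine ContinuousOn.norm ((WithLp.prod_continuous_toLp 2 (E n) (E n)).comp_continuousOn ?_)
    fun_prop
  let B : ℕ → Set ι := fun m => g ⁻¹' Iic (m : ℝ) ∩ A
  have hB : ∀ m, MeasurableSet (B m) := fun m => by
    obtain ⟨v, hv, h⟩ := continuousOn_iff_isClosed.1 hg (Iic (m : ℝ)) isClosed_Iic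
    simp only [B]
    rw [h]; exact hv.measurableSet.inter hA
  have hU : ∀ φ : ι → E n × E n, volume (φ '' A) = ⨆ m, volume (φ '' B m) := fun φ => by
    have hmono : Monotone fun m => φ '' B m := fun m n h =>
      image_mono (inter_subset_inter_left _ (preimage_mono (Iic_subset_Iic.2 (Nat.cast_le.2 h))))
    rw [← hmono.measure_iUnion, ← image_iUnion]
    congr 2
    refine Subset.antisymm (fun a ha => ?_) (iUnion_subset fun m => inter_subset_right)
    obtain ⟨m, hm⟩ := exists_nat_ge (g a)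
    exact mem_iUnion.2 ⟨m, hm, ha⟩
  rw [hU, hU]
  refine iSup_congr fun m => ?_
  have hs : B m ⊆ A := inter_subset_right
  exact sv2_bdd (volume.prod volume) (B m) u x P q p C m (hB m) (hx.mono hs) (hP.mono hs)
    (hq.mono hs) (hp.mono hs) (i₁.mono hs) (i₂.mono hs) (fun a ha => ha.1)
    fun a ha b hb => hu a ha.2 b hb.2

end Pool.Agent.MP_3ee8cb_gt.LV
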