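import Pool.Agent.MP_3ee8cb_gt.LV.Spec
import Pool.Agent.MP_3ee8cb_gt.CR.RUC
import Pool.Agent.MP_3ee8cb_gt.CR.RDBRa

/-! Second order Taylor expansion of geodesics, and crossing of the hypersurfaces. -/

namespace Pool.Agent.MP_3ee8cb_gt.LV

open CR Set Filter Topology
open scoped RealInnerProductSpace

variable {n : ℕ}

theorem tay2 : STAY2 := by
  intro n h Γ _ _ Ψ hQ G hG hO R ε hε
  have hF := hQ.rp.flow
  have h1 : Continuous fun a : ℝ × UT h => (Ψ a.1 a.2).1.1 :=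
    continuous_fst.comp (continuous_subtype_val.comp hQ.jc)
  have h2 : Continuous fun a : ℝ × UT h => (Ψ a.1 a.2).1.2 :=
    continuous_snd.comp (continuous_subtype_val.comp hQ.jc)
  have hA : Continuous fun a : ℝ × UT h => G (Ψ a.1 a.2).1.1 (Ψ a.1 a.2).1.2 (Ψ a.1 a.2).1.2 :=
    ((hG.smooth.continuous.comp h1).clm_apply h2).clm_apply h2
  have h3 : Continuous fun a : ℝ × UT h => a.2.1.1 :=
    continuous_fst.comp (continuous_subtype_val.comp continuous_snd)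
  have h4 : Continuous fun a : ℝ × UT h => a.2.1.2 :=
    continuous_snd.comp (continuous_subtype_val.comp continuous_snd)
  have hA0 : Continuous fun a : ℝ × UT h => G a.2.1.1 a.2.1.2 a.2.1.2 :=
    ((hG.smooth.continuous.comp h3).clm_apply h4).clm_apply h4
  have hD := (hA0.sub hA).norm
  have hK := uc_cpt hQ.rp.riem (isCompact_closedBall (0 : E n) R)
  have hev := hK.eventually_forall_of_forall_eventually (x₀ := (0 : ℝ))
    (P := fun t (p : UT h) => ‖G p.1.1 p.1.2 p.1.2 -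
      G (Ψ t p).1.1 (Ψ t p).1.2 (Ψ t p).1.2‖ < ε) fun p _ => by
    apply hD.continuousAt.eventually_lt continuousAt_const
    simpa [hF.zero] using hε
  obtain ⟨r, hr, hrr⟩ := Metric.eventually_nhds_iff.1 hev
  refine ⟨r / 2, half_pos hr, fun p L hp hL0 hLr => ?_⟩
  have hb : ∀ t ∈ Ico 0 L, ‖-(G (Ψ t p).1.1 (Ψ t p).1.2 (Ψ t p).1.2) + G p.1.1 p.1.2 p.1.2‖ ≤ ε := by
    intro t ht
    rw [neg_add_eq_sub]
    refine (hrr ?_ p (mem_closedBall_zero_iff.2 hp)).le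
    rw [Real.dist_eq, sub_zero, abs_of_nonneg ht.1]
    linarith [ht.2]
  have hd1 : ∀ t, HasDerivAt (fun s => (Ψ s p).1.2 - p.1.2 + s • G p.1.1 p.1.2 p.1.2)
      (-(G (Ψ t p).1.1 (Ψ t p).1.2 (Ψ t p).1.2) + G p.1.1 p.1.2 p.1.2) t := fun t => by
    simpa using ((hO p t).sub_const p.1.2).fun_add
      ((hasDerivAt_id' t).smul_const (G p.1.1 p.1.2 p.1.2))
  have hm1 := norm_image_sub_le_of_norm_deriv_le_segment' (fun t _ => (hd1 t).hasDerivWithinAt) hb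
  have hd2 : ∀ t, HasDerivAt
      (fun s => (Ψ s p).1.1 - p.1.1 - s • p.1.2 + (s ^ 2 / 2) • G p.1.1 p.1.2 p.1.2)
      ((Ψ t p).1.2 - p.1.2 + t • G p.1.1 p.1.2 p.1.2) t := fun t => by
    have h5 : HasDerivAt (fun s : ℝ => s ^ 2 / 2) t t := by
      simpa using (hasDerivAt_pow 2 t).div_const 2
    simpa using (((hF.vel p t).sub_const p.1.1).fun_sub
      ((hasDerivAt_id' t).smul_const p.1.2)).fun_add (h5.smul_const (G p.1.1 p.1.2 p.1.2))
  have hm2 := norm_image_sub_le_of_norm_deriv_le_segment' (C := ε * L)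
    (fun t (_ : t ∈ Icc 0 L) => (hd2 t).hasDerivWithinAt) (fun t ht => by
      have h5 := hm1 t (Ico_subset_Icc_self ht)
      simp only [hF.zero, sub_self, zero_smul, add_zero, sub_zero] at h5
      exact h5.trans (mul_le_mul_of_nonneg_left ht.2.le hε.le)) L ⟨hL0, le_rfl⟩
  simp only [hF.zero, sub_self, zero_smul, sub_zero] at hm2
  simpa [sq, mul_assoc] using hm2

lemma tay2_near {h : Met n} (hg : Riem h) (hdb : DBP h) (hl : LowP h) (y₀ : E n) :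
    ∃ r, 0 < r ∧ ∀ η : ℝ, 0 < η → ∃ ε, 0 < ε ∧ ∀ y z, ‖y - y₀‖ ≤ r → dd h z y ≤ ε →
      ‖z - y‖ ≤ η := by
  obtain ⟨r, hr, h1⟩ := hl y₀ (1 / 2) (by norm_num)
  obtain ⟨c, hc, h2⟩ := dbr_coer hg y₀
  refine ⟨r, hr, fun η hη => ⟨min (r / 4) (c * η / 2), lt_min (by positivity) (by positivity),
    fun y z hy hz => ?_⟩⟩
  have h3 := h1 y z hy
  rw [hdb.symm] at h3
  have h4 := h2 (z - y)
  have h5 := min_le_left (r / 4) (c * η / 2)
  have h6 := min_le_right (r / 4) (c * η / 2)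
  rcases le_total r (√(h y₀ (z - y) (z - y))) with h7 | h7
  · rw [min_eq_left h7] at h3
    linarith
  · rw [min_eq_right h7] at h3
    exact le_of_mul_le_mul_left (by linarith) hc

theorem cross : SCROSS := by
  intro n h Γ _ _ Ψ hQ w₀ B δ hδ
  have hF := hQ.rp.flow
  obtain ⟨r, hr, hnear⟩ := tay2_near hQ.rp.riem hQ.rp.db hQ.rp.low w₀.1.1
  have hc : ∀ u : UT h, Continuous fun t => (Ψ t u).1.1 := fun u =>
    continuous_fst.comp (continuous_subtype_val.comp (hQ.rp.fl.cont u))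
  set Λ : E n × E n → ℝ := fun a => lv (h w₀.1.1 w₀.1.2) w₀.1.2 B a.1 (a.2 - w₀.1.1) with hΛ
  have hΛc : Continuous Λ := by
    simp only [hΛ, lv]
    generalize h w₀.1.1 w₀.1.2 = l
    fun_prop
  have hz : HasDerivAt (fun t => (Ψ t w₀).1.1 - w₀.1.1) w₀.1.2 0 := by
    simpa [hF.zero] using (hF.vel w₀ 0).sub_const w₀.1.1
  have hf : HasDerivAt (fun t => Λ (0, (Ψ t w₀).1.1)) 1 0 := by
    have h1 := (h w₀.1.1 w₀.1.2).hasFDerivAt.comp_hasDerivAt (0 : ℝ) hz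
    have h2 := ((B.hasFDerivAt.comp_hasDerivAt (0 : ℝ) hz).clm_apply hz).div_const 2
    have h3 := h1.fun_add h2
    simp only [Function.comp_apply, hF.zero, sub_self, map_zero, w₀.2,
      ContinuousLinearMap.zero_apply, add_zero, zero_div] at h3
    simpa [hΛ, lv] using h3
  have hf0 : Λ (0, (Ψ 0 w₀).1.1) = 0 := by simp [hΛ, lv, hF.zero]
  have hs := hasDerivAt_iff_tendsto_slope_zero.1 hf
  simp only [zero_add, hf0, sub_zero, smul_eq_mul] at hs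
  have e1 : ∀ᶠ t in 𝓝 (0 : ℝ), t ≠ 0 → 0 < t⁻¹ * Λ (0, (Ψ t w₀).1.1) :=
    eventually_nhdsWithin_iff.1 (hs.eventually_const_lt one_pos)
  have e2 : ∀ᶠ t in 𝓝 (0 : ℝ), ‖(Ψ t w₀).1.1 - w₀.1.1‖ < min r (δ / 2) := by
    apply ((hc w₀).sub continuous_const).norm.continuousAt.eventually_lt continuousAt_const
    simpa [hF.zero] using ⟨hr, hδ⟩
  obtain ⟨s, hs0, hss⟩ := Metric.eventually_nhds_iff.1 (e1.and e2)
  set τ := min (s / 2) 1 with hτ
  have hτ0 : 0 < τ := lt_min (half_pos hs0) one_pos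
  have hτ1 : τ ≤ 1 := min_le_right _ _
  have hτs : ∀ t, |t| ≤ τ → dist t 0 < s := fun t ht => by
    rw [Real.dist_eq, sub_zero]
    linarith [min_le_left (s / 2) 1]
  have a1 : |τ| ≤ τ := (abs_of_pos hτ0).le
  have a2 : |-τ| ≤ τ := by rwa [abs_neg]
  have hp : 0 < Λ (0, (Ψ τ w₀).1.1) :=
    (mul_pos_iff_of_pos_left (inv_pos.2 hτ0)).1 ((hss (hτs τ a1)).1 hτ0.ne')
  have hn : Λ (0, (Ψ (-τ) w₀).1.1) < 0 := by
    have h1 := (hss (hτs (-τ) a2)).1 (neg_ne_zero.2 hτ0.ne')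
    rw [inv_neg, neg_mul, ← mul_neg] at h1
    exact neg_pos.1 ((mul_pos_iff_of_pos_left (inv_pos.2 hτ0)).1 h1)
  obtain ⟨η₁, hη₁, h1⟩ := Metric.eventually_nhds_iff.1
    (continuousAt_const.eventually_lt hΛc.continuousAt hp)
  obtain ⟨η₂, hη₂, h2⟩ := Metric.eventually_nhds_iff.1
    (hΛc.continuousAt.eventually_lt continuousAt_const hn)
  set η := min (min (η₁ / 2) (η₂ / 2)) (δ / 2) with hη
  have hη0 : 0 < η := lt_min (lt_min (half_pos hη₁) (half_pos hη₂)) (half_pos hδ)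
  have b1 : η ≤ η₁ / 2 := (min_le_left _ _).trans (min_le_left _ _)
  have b2 : η ≤ η₂ / 2 := (min_le_left _ _).trans (min_le_right _ _)
  have b3 : η ≤ δ / 2 := min_le_right _ _
  obtain ⟨ε, hε, h3⟩ := hnear η hη0
  refine ⟨ε, η, hε, hη0, fun u q hu hq => ?_⟩
  have h4 : ∀ t, |t| ≤ τ → ‖(Ψ t u).1.1 - (Ψ t w₀).1.1‖ ≤ η := fun t ht =>
    h3 _ _ ((hss (hτs t ht)).2.le.trans (min_le_left _ _)) (hu t (ht.trans hτ1))
  have h5 : ∀ t, |t| ≤ τ → dist (q, (Ψ t u).1.1) (0, (Ψ t w₀).1.1) ≤ η := fun t ht => by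
    rw [Prod.dist_eq, dist_eq_norm, dist_eq_norm, sub_zero]
    exact max_le hq (h4 t ht)
  have h6 := h1 (lt_of_le_of_lt (h5 τ a1) (by linarith))
  have h7 := h2 (lt_of_le_of_lt (h5 (-τ) a2) (by linarith))
  have h8 : ContinuousOn (fun t => Λ (q, (Ψ t u).1.1)) (Icc (-τ) τ) :=
    (hΛc.comp (continuous_const.prodMk (hc u))).continuousOn
  obtain ⟨t, ht, h9⟩ := intermediate_value_Icc (by linarith) h8 ⟨h7.le, h6.le⟩
  refine ⟨t, ?_, h9⟩
  have h10 := h4 t (abs_le.2 ht)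
  have h11 := (hss (hτs t (abs_le.2 ht))).2.le.trans (min_le_right _ _)
  have h12 := norm_sub_le_norm_sub_add_norm_sub (Ψ t u).1.1 (Ψ t w₀).1.1 w₀.1.1
  linarith

end Pool.Agent.MP_3ee8cb_gt.LV
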