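import Pool.Agent.MP_3ee8cb_gt.LV.Spec
import Pool.Agent.MP_3ee8cb_gt.CR.RW
import Pool.Agent.MP_3ee8cb_gt.CR.RFRAME

namespace Pool.Agent.MP_3ee8cb_gt.LV

open CR Set MeasureTheory
open scoped RealInnerProductSpace

variable {n : ℕ}

theorem vol_adj (L : E n →ₗ[ℝ] E n) :
    LinearMap.det (LinearMap.adjoint L) = LinearMap.det L := by
  classical
  let b := EuclideanSpace.basisFun (Fin n) ℝ
  rw [← LinearMap.det_toMatrix b.toBasis, LinearMap.toMatrix_adjoint, Matrix.det_conjTranspose,
    LinearMap.det_toMatrix]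
  simp

theorem vol_W {g : Met n} (hg : Riem g) (x : E n) :
    W g x = volume (Metric.closedBall (0 : E n) 1) * ENNReal.ofReal √(Matrix.of fun i j : Fin n =>
      g x (EuclideanSpace.single i 1) (EuclideanSpace.single j 1)).det := by
  classical
  obtain ⟨R, hR⟩ := frame n g x hg
  let A : E n →ₗ[ℝ] E n := R.symm.toLinearEquiv.toLinearMap
  have hA : ∀ u v, g x u v = ⟪A u, A v⟫ := fun u v => by
    rw [← hR (A u) (A v)]
    simp [A]
  have hset : {P : E n | ∃ u, g x u u ≤ 1 ∧ ∀ w, ⟪P, w⟫ = g x u w} =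
      LinearMap.adjoint A '' Metric.closedBall (0 : E n) 1 := by
    ext P
    constructor
    · rintro ⟨u, hu, h⟩
      refine ⟨A u, ?_, ?_⟩
      · rw [hA, real_inner_self_eq_norm_sq] at hu
        rw [mem_closedBall_zero_iff]
        nlinarith [norm_nonneg (A u)]
      · apply ext_inner_right ℝ
        intro w
        rw [LinearMap.adjoint_inner_left, h, hA]
    · rintro ⟨y, hy, rfl⟩
      have h1 : A (R y) = y := by simp [A]
      refine ⟨R y, ?_, fun w => ?_⟩
      · rw [hR, real_inner_self_eq_norm_sq]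
        rw [mem_closedBall_zero_iff] at hy
        nlinarith [norm_nonneg y]
      · rw [LinearMap.adjoint_inner_left, hA, h1]
  have hM : (Matrix.of fun i j : Fin n =>
      g x (EuclideanSpace.single i 1) (EuclideanSpace.single j 1)) =
      LinearMap.toMatrix (EuclideanSpace.basisFun (Fin n) ℝ).toBasis
        (EuclideanSpace.basisFun (Fin n) ℝ).toBasis (LinearMap.adjoint A ∘ₗ A) := by
    ext i j
    rw [LinearMap.toMatrix_apply, Matrix.of_apply, OrthonormalBasis.coe_toBasis_repr_apply,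
      OrthonormalBasis.repr_apply_apply, LinearMap.comp_apply, LinearMap.adjoint_inner_right, hA]
    simp
  unfold W
  rw [hset, Measure.addHaar_image_linearMap, hM, LinearMap.det_toMatrix, LinearMap.det_comp,
    vol_adj, Real.sqrt_mul_self_eq_abs, mul_comm]

theorem vol_cone {g : Met n} (hg : Riem g) (D : Set (E n)) :
    cone g {p | p.1.1 ∈ D} = D ×ˢ ({0}ᶜ : Set (E n)) ∩ w_S g := by
  ext z
  constructor
  · rintro ⟨p, hp, r, r0, r1, h1, h2⟩
    have hp2 := p.2
    refine ⟨⟨h1 ▸ hp, fun h0 => ?_⟩, (w_iff hg z.1 z.2).1 ⟨r • p.1.2, ?_, fun w => ?_⟩⟩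
    · have := h2 p.1.2
      have h3 : z.2 = 0 := h0
      rw [h3, inner_zero_left, hp2] at this
      linarith
    · rw [h1]
      simp only [map_smul, smul_apply, smul_eq_mul, hp2]
      nlinarith
    · rw [h2, h1]
      simp only [map_smul, smul_apply, smul_eq_mul]
  · rintro ⟨⟨h1, h2⟩, h3⟩
    obtain ⟨u, hu, h⟩ := (w_iff hg z.1 z.2).2 h3
    have hne : u ≠ 0 := by
      rintro rfl
      apply h2
      have := h z.2
      simpa using this
    have hpos := hg.pos z.1 u hne
    have hs : 0 < √(g z.1 u u) := Real.sqrt_pos.2 hpos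
    have hq := Real.mul_self_sqrt hpos.le
    refine ⟨⟨(z.1, (√(g z.1 u u))⁻¹ • u), ?_⟩, h1, √(g z.1 u u), hs, Real.sqrt_le_one.2 hu, rfl,
      fun w => ?_⟩
    · simp only [map_smul, smul_apply, smul_eq_mul]
      field_simp
      rw [Real.sq_sqrt hpos.le]
    · rw [h]
      simp only [map_smul, smul_apply, smul_eq_mul]
      field_simp

theorem vol' : SVOL := by
  intro n g D hn hg _ hD
  have : Nonempty (Fin n) := ⟨⟨0, hn⟩⟩
  have hm : MeasurableSet (D ×ˢ ({0}ᶜ : Set (E n)) ∩ w_S g) :=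
    (hD.prod (measurableSet_singleton 0).compl).inter (w_closed hg).measurableSet
  have h1 : volume (D ×ˢ ({0}ᶜ : Set (E n)) ∩ w_S g) = ∫⁻ x in D, W g x := by
    rw [Measure.volume_eq_prod, Measure.prod_apply hm, ← lintegral_indicator hD]
    refine lintegral_congr fun x => ?_
    by_cases hx : x ∈ D
    · rw [indicator_of_mem hx, w_eq hg]
      have : Prod.mk x ⁻¹' (D ×ˢ ({0}ᶜ : Set (E n)) ∩ w_S g) = (Prod.mk x ⁻¹' w_S g) \ {0} := by
        ext P
        simp [hx, and_comm]
      rw [this, measure_sdiff_null (measure_singleton 0)]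
    · rw [indicator_of_notMem hx]
      have : Prod.mk x ⁻¹' (D ×ˢ ({0}ᶜ : Set (E n)) ∩ w_S g) = ∅ := by
        ext P
        simp [hx]
      rw [this, measure_empty]
  rw [vol_cone hg, h1, vol, ← lintegral_const_mul' _ _ measure_closedBall_lt_top.ne]
  exact lintegral_congr fun x => vol_W hg x

end Pool.Agent.MP_3ee8cb_gt.LV
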