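import Pool.Agent.MP_3ee8cb_gt.LV.Fin
import Pool.Agent.MP_3ee8cb_gt.LV.RCHR
import Pool.Agent.MP_3ee8cb_gt.LV.RODEC
import Pool.Agent.MP_3ee8cb_gt.LV.RJC
import Pool.Agent.MP_3ee8cb_gt.LV.REQV
import Pool.Agent.MP_3ee8cb_gt.LV.RBP
import Pool.Agent.MP_3ee8cb_gt.LV.RHM
import Pool.Agent.MP_3ee8cb_gt.LV.RMORSE
import Pool.Agent.MP_3ee8cb_gt.LV.RLP1
import Pool.Agent.MP_3ee8cb_gt.LV.RLPS
import Pool.Agent.MP_3ee8cb_gt.LV.RUQ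
import Pool.Agent.MP_3ee8cb_gt.LV.RMIN2
import Pool.Agent.MP_3ee8cb_gt.LV.RLIFT2
import Pool.Agent.MP_3ee8cb_gt.LV.RTAY2
import Pool.Agent.MP_3ee8cb_gt.LV.RLB2
import Pool.Agent.MP_3ee8cb_gt.LV.RALG
import Pool.Agent.MP_3ee8cb_gt.LV.RKEY
import Pool.Agent.MP_3ee8cb_gt.LV.RCHART
import Pool.Agent.MP_3ee8cb_gt.LV.RSTAR
import Pool.Agent.MP_3ee8cb_gt.LV.RSV2
import Pool.Agent.MP_3ee8cb_gt.LV.RHALF
import Pool.Agent.MP_3ee8cb_gt.LV.RFUND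
import Pool.Agent.MP_3ee8cb_gt.LV.RVOL
import Pool.Agent.MP_3ee8cb_gt.CR.RDB
import Pool.Agent.MP_3ee8cb_gt.CR.RLOW
import Pool.Agent.MP_3ee8cb_gt.CR.RMID
import Pool.Agent.MP_3ee8cb_gt.CR.RLEN
import Pool.Agent.MP_3ee8cb_gt.CR.RINV
import Pool.Agent.MP_3ee8cb_gt.CR.RPRO
import Pool.Agent.MP_3ee8cb_gt.CR.RGEO
import Pool.Agent.MP_3ee8cb_gt.CR.RDBR
import Pool.Agent.MP_3ee8cb_gt.CR.RUNI
import Pool.Agent.MP_3ee8cb_gt.CR.RFL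
import Pool.Agent.MP_3ee8cb_gt.CR.RHR
import Pool.Agent.MP_3ee8cb_gt.CR.RSC
import Pool.Agent.MP_3ee8cb_gt.TB.RDER
import Pool.Agent.MP_3ee8cb_gt.TB.REXP
import Pool.Agent.MP_3ee8cb_gt.TB.RGAM
import Pool.Agent.MP_3ee8cb_gt.TB.RHIN
import Pool.Agent.MP_3ee8cb_gt.TB.RJAC
import Pool.Agent.MP_3ee8cb_gt.TB.RLIN
import Pool.Agent.MP_3ee8cb_gt.TB.RMOD
import Pool.Agent.MP_3ee8cb_gt.TB.RODE
import Pool.Agent.MP_3ee8cb_gt.TB.RPIC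
import Pool.Agent.MP_3ee8cb_gt.TB.RRAY
import Pool.Agent.MP_3ee8cb_gt.TB.RSEC
import Pool.Agent.MP_3ee8cb_gt.TB.RSTR
import Pool.Agent.MP_3ee8cb_gt.TB.RTST

/-! All rows together. -/

namespace Pool.Agent.MP_3ee8cb_gt.LV

open CR

theorem all_qp {n : ℕ} (hn : 0 < n) {g : Met n} {Γ : Type} [Group Γ] [MulAction Γ (E n)]
    {Φ : ℝ → UT g → UT g} (hg : Riem g) (hd : Deck g Γ) (hf : IsFlow g Φ) : QP g Γ Φ := by
  have h1 := CR.db n g hg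
  have h2 := CR.low n g hg h1
  have h3 := CR.mid n g hg h1
  have h4 := CR.len n g hg h1
  have h5 := CR.inv n g Γ hg hd h1 h4
  have h6 := CR.pro n g Γ hg hd h1 h2 h3 h5
  have h7 := CR.geo n g hg h1 h2 h3 h6
  have h8 := CR.dbr n g hg h1 h2 h4
  have h9 := CR.uni n g hg
  have h10 := CR.fl n g Φ hg hf h1 h4 h9
  have r : RP g Γ Φ := ⟨hg, hd, hf, h1, h2, h5, h6, h9, h10, CR.hr n g Φ hn hg hf h7 h8 h9 h1,
    CR.sc n g Φ hg hf h1 h4 h6 h10⟩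
  exact ⟨r, add n g Γ Φ r, jc odec chr ode n g Γ Φ r, h8⟩

theorem all_hinge (n : ℕ) (h : Met n) (Λ : Type) [Group Λ] [MulAction Λ (E n)]
    (Ψ : ℝ → UT h → UT h) (a : ℝ) (r : RP h Λ Ψ) (ha : 0 < a) (hc : TB.CurvLe h a) :
    Hinge h Ψ a := by
  intro p q e s t hs ht
  have := TB.hinge_of TB.gam TB.ode TB.exp_ (TB.der TB.lin TB.str (TB.jac TB.pic)) TB.ray TB.sec
    TB.mod_ (TB.hin TB.tst) n h Λ Ψ a r ha hc p q e s t hs ht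
  rwa [mul_assoc] at this

theorem all_main : Main :=
  fin_main all_qp all_hinge chr ode eqv mv bp hm th lb morse lp1 lps uq min2 lift2 cov' tay2 cross
    lb2 (chart alg key) star (half sv2) glob fund

end Pool.Agent.MP_3ee8cb_gt.LV
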