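import Pool.Agent.MP_3ee8cb_gt.LV.Spec
import Pool.Agent.MP_3ee8cb_gt.CR.RUC
import Pool.Agent.MP_3ee8cb_gt.CR.RGEO

/-! Uniform continuity of the inverse of a lifted conjugacy, from cocompactness. -/

namespace Pool.Agent.MP_3ee8cb_gt.LV

open CR Set Filter Topology

variable {n : ℕ}

/-- Two orbits with the same foot points on `[0, 1]` start at the same vector. -/
theorem uq_eq {h : Met n} {Ψ : ℝ → UT h → UT h} (hf : IsFlow h Ψ) {w w' : UT h}
    (e : ∀ t ∈ Icc (0 : ℝ) 1, (Ψ t w').1.1 = (Ψ t w).1.1) : w' = w := by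
  have h0 : (0 : ℝ) ∈ Icc (0 : ℝ) 1 := ⟨le_rfl, zero_le_one⟩
  have e1 := e 0 h0
  have d1 : HasDerivWithinAt (fun s => (Ψ s w').1.1) (Ψ 0 w').1.2 (Icc 0 1) 0 :=
    (hf.vel w' 0).hasDerivWithinAt
  have d2 : HasDerivWithinAt (fun s => (Ψ s w').1.1) (Ψ 0 w).1.2 (Icc 0 1) 0 :=
    (hf.vel w 0).hasDerivWithinAt.congr e e1
  have e2 := (uniqueDiffOn_Icc_zero_one 0 h0).eq_deriv _ d1 d2
  rw [hf.zero, hf.zero] at e1 e2
  exact Subtype.ext (Prod.ext e1 e2)

theorem uq : SUQ := by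
  intro n g h Γ Λ _ _ _ _ Φ Ψ ρ F qg qh cj hE
  have ftg : Continuous fun p : UT g => p.1.1 := continuous_fst.comp continuous_subtype_val
  have fth : Continuous fun p : UT h => p.1.1 := continuous_fst.comp continuous_subtype_val
  obtain ⟨K, hK, hΓ⟩ := qg.rp.deck.cpt
  have hC := uc_cpt qg.rp.riem hK
  have mv : ∀ (γ : Γ) (p : UT g) (t : ℝ),
      (Ψ t (F (uc_mv qg.rp.deck γ p))).1.1 = ρ γ • (Ψ t (F p)).1.1 := fun γ p t =>
    congrArg Prod.fst (hE (ρ γ) (F p) _ (cj.equi γ p (uc_mv qg.rp.deck γ p) rfl) t)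
  refine ⟨fun ε hε => ?_, ?_⟩
  · by_contra hne
    have h1 : ∀ j : ℕ, ∃ p q : UT g, p.1.1 ∈ K ∧ (∀ t ∈ Icc (0 : ℝ) 1,
        dd h (Ψ t (F p)).1.1 (Ψ t (F q)).1.1 ≤ 1 / ((j : ℝ) + 1)) ∧
        ε < dd g p.1.1 q.1.1 := fun j => by
      by_contra hh
      refine hne ⟨1 / ((j : ℝ) + 1), by positivity, fun p q hpq => ?_⟩
      by_contra h'
      obtain ⟨γ, hγ⟩ := hΓ p.1.1
      refine hh ⟨uc_mv qg.rp.deck γ p, uc_mv qg.rp.deck γ q, hγ, fun t ht => ?_, ?_⟩
      · rw [mv, mv, qh.rp.inv]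
        exact hpq t ht
      · exact lt_of_lt_of_eq (not_le.1 h') (qg.rp.inv γ _ _).symm
    choose p q hp hgap hG using h1
    let U : Ultrafilter ℕ := Ultrafilter.of atTop
    have hU : (U : Filter ℕ) ≤ atTop := Ultrafilter.of_le _
    obtain ⟨r, -, hr⟩ := hC.ultrafilter_le_nhds' (U.map p) (by
      rw [Ultrafilter.mem_map]
      exact univ_mem' hp)
    have tp : Tendsto p U (𝓝 r) := hr
    have c0 : Continuous fun z : UT g => dd h 0 (F z).1.1 :=
      qh.rp.db.cont.comp (continuous_const.prodMk (fth.comp F.continuous))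
    obtain ⟨R, hR⟩ := hC.bddAbove_image c0.continuousOn
    have hB := uc_cpt qh.rp.riem (qh.rp.pro 0 (R + 1)).isCompact_closure
    obtain ⟨w, -, hw⟩ := hB.ultrafilter_le_nhds' (U.map fun j => F (q j)) (by
      rw [Ultrafilter.mem_map]
      refine univ_mem' fun j => subset_closure ?_
      have a1 : dd h 0 (F (p j)).1.1 ≤ R := hR ⟨p j, hp j, rfl⟩
      have a2 := hgap j 0 ⟨le_rfl, zero_le_one⟩
      rw [qh.rp.flow.zero, qh.rp.flow.zero] at a2
      have a3 : 1 / ((j : ℝ) + 1) ≤ 1 := by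
        rw [div_le_one (by positivity)]
        linarith [Nat.cast_nonneg (α := ℝ) j]
      have a4 := qh.rp.db.tri 0 (F (p j)).1.1 (F (q j)).1.1
      change dd h 0 (F (q j)).1.1 ≤ R + 1
      linarith)
    have tw : Tendsto (fun j => F (q j)) U (𝓝 w) := hw
    have t0 : Tendsto (fun j : ℕ => 1 / ((j : ℝ) + 1)) U (𝓝 0) :=
      tendsto_one_div_add_atTop_nhds_zero_nat.mono_left hU
    have e : w = F r := by
      refine uq_eq qh.rp.flow fun t ht => geo_sep qh.rp.riem qh.rp.low ?_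
      have ct : Continuous fun z : UT h => (Ψ t z).1.1 :=
        fth.comp (qh.jc.comp (continuous_const.prodMk continuous_id))
      have t1 := (ct.tendsto _).comp ((F.continuous.tendsto r).comp tp)
      have t2 := (ct.tendsto _).comp tw
      have t3 := (qh.rp.db.cont.tendsto ((Ψ t (F r)).1.1, (Ψ t w).1.1)).comp (t1.prodMk_nhds t2)
      exact le_of_tendsto_of_tendsto' t3 t0 fun j => hgap j t ht
    have tq : Tendsto q U (𝓝 r) := by
      have := (F.symm.continuous.tendsto w).comp tw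
      rw [e, F.symm_apply_apply] at this
      exact this.congr fun j => F.symm_apply_apply _
    have tG := (qg.rp.db.cont.tendsto (r.1.1, r.1.1)).comp
      (((ftg.tendsto r).comp tp).prodMk_nhds ((ftg.tendsto r).comp tq))
    simp only [qg.rp.db.refl] at tG
    exact absurd (ge_of_tendsto' tG fun j => (hG j).le) (not_le.2 hε)
  · have cG : Continuous fun z : UT g × UT g => dd h (F z.1).1.1 (F z.2).1.1 :=
      qh.rp.db.cont.comp (((fth.comp F.continuous).comp continuous_fst).prodMk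
        ((fth.comp F.continuous).comp continuous_snd))
    obtain ⟨D, hD⟩ := (hC.prod hC).bddAbove_image cG.continuousOn
    refine ⟨D, fun p q hpq => ?_⟩
    obtain ⟨γ, hγ⟩ := hΓ p.1.1
    have h1 : dd h (F (uc_mv qg.rp.deck γ p)).1.1 (F (uc_mv qg.rp.deck γ q)).1.1 ≤ D :=
      hD ⟨(uc_mv qg.rp.deck γ p, uc_mv qg.rp.deck γ q),
        ⟨hγ, show γ • q.1.1 ∈ K from hpq ▸ hγ⟩, rfl⟩
    have a1 := mv γ p 0
    have a2 := mv γ q 0
    simp only [qh.rp.flow.zero] at a1 a2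
    rwa [a1, a2, qh.rp.inv] at h1

end Pool.Agent.MP_3ee8cb_gt.LV
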