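import Pool.Agent.MP_3ee8cb_gt.LV.Spec

/-! Assembly of the rows. -/

namespace Pool.Agent.MP_3ee8cb_gt.LV

open CR Set Filter MeasureTheory Topology

variable {n : ℕ}

/-- All facts on the negatively curved side. -/
structure NP (h : Met n) (Ψ : ℝ → UT h → UT h) : Prop where
  zero : ∀ w, Ψ 0 w = w
  add : AddP Ψ
  jc : JcP Ψ
  bp : BP h Ψ
  lps : LpsP h Ψ
  chart : ∀ w₀, ∃ U q p C ε, Chart h Ψ w₀ U q p C ε
  cov : CovP h

theorem fin_refl {h : Met n} (Ψ : ℝ → UT h → UT h) : TP h h Ψ Ψ (Homeomorph.refl _) :=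
  ⟨fun _ _ => rfl, fun _ _ H => H, fun _ _ H => H⟩

theorem fin_pres (star : SSTAR) (half : SHALF) (glob : SGLOB) {g h : Met n}
    {Φ : ℝ → UT g → UT g} {Ψ : ℝ → UT h → UT h} {F : UT g ≃ₜ UT h} (N : NP h Ψ)
    (z : ∀ v, Φ 0 v = v) (bg : BP g Φ) (cg : CovP g) (T : TP g h Φ Ψ F) :
    ∀ B, MeasurableSet B → Pres g h F B := by
  refine glob n g h F cg N.cov fun a₀ => ?_
  obtain ⟨U, q, p, C, ε, hc⟩ := N.chart (Ψ a₀.2 (F a₀.1))
  obtain ⟨W₁, C₁, o₁, m₁, u₁, s₁⟩ := star n g h Φ Ψ F a₀ U q p C ε z N.jc bg N.bp T N.lps hc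
  obtain ⟨W₂, C₂, o₂, m₂, u₂, s₂⟩ := star n h h Ψ Ψ (Homeomorph.refl _) (F a₀.1, a₀.2) U q p C ε
    N.zero N.jc N.bp N.bp (fin_refl Ψ) N.lps hc
  have cm : Continuous (Prod.map F id : UT g × ℝ → UT h × ℝ) := F.continuous.prodMap continuous_id
  refine ⟨W₁ ∩ Prod.map F id ⁻¹' W₂ ∩ {a | a.2 < a₀.2 + 1},
    (o₁.inter (o₂.preimage cm)).inter (isOpen_lt continuous_snd continuous_const),
    ⟨⟨m₁, m₂⟩, by simp⟩, fun B hB mB => ?_⟩
  have mB' : MeasurableSet (Prod.map F id '' B : Set (UT h × ℝ)) :=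
    (F.prodCongr (Homeomorph.refl ℝ)).toMeasurableEquiv.measurableSet_image.2 mB
  have e₁ := half n g h Ψ F _ U q p C ε C₁ (a₀.2 + 1) B cg N.zero N.add N.jc hc mB
    (fun a ha => ⟨u₁ a (hB ha).1.1, le_of_lt (hB ha).2⟩)
    (fun a ha b hb => s₁ a (hB ha).1.1 b (hB hb).1.1)
  have e₂ := half n h h Ψ (Homeomorph.refl _) _ U q p C ε C₂ (a₀.2 + 1) (Prod.map F id '' B)
    N.cov N.zero N.add N.jc hc mB'
    (by
      rintro _ ⟨a, ha, rfl⟩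
      exact ⟨u₂ _ (hB ha).1.2, le_of_lt (hB ha).2⟩)
    (by
      rintro _ ⟨a, ha, rfl⟩ _ ⟨b, hb, rfl⟩
      exact s₂ _ (hB ha).1.2 _ (hB hb).1.2)
  unfold Pres
  rw [e₁, e₂, image_image]
  rfl

/-- The statement of the theorem. -/
def Main : Prop := ∀ (n : ℕ) (g h : Met n) (Γ Λ : Type) [Group Γ] [Group Λ] [MulAction Γ (E n)]
  [MulAction Λ (E n)] (Φ : ℝ → UT g → UT g) (Ψ : ℝ → UT h → UT h) (f : UM g Γ ≃ₜ UM h Λ) (a : ℝ),
  3 ≤ n → Riem g → Riem h → Deck g Γ → Deck h Λ → IsFlow g Φ → IsFlow h Ψ → 0 < a →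
  TB.CurvLe h a →
  (∀ t p q, f (Quot.mk _ p) = Quot.mk _ q → f (Quot.mk _ (Φ t p)) = Quot.mk _ (Ψ t q)) →
  ∀ D D' : Set (E n), Fund Γ D → Fund Λ D' → ∀ B : Set (UM g Γ), MeasurableSet[borel _] B →
    liou g Γ D B = liou h Λ D' (f '' B)

theorem fin_main
    (qp : ∀ {n : ℕ}, 0 < n → ∀ {g : Met n} {Γ : Type} [Group Γ] [MulAction Γ (E n)]
      {Φ : ℝ → UT g → UT g}, Riem g → Deck g Γ → IsFlow g Φ → QP g Γ Φ)
    (hinge : ∀ (n : ℕ) (h : Met n) (Λ : Type) [Group Λ] [MulAction Λ (E n)]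
      (Ψ : ℝ → UT h → UT h) (a : ℝ), RP h Λ Ψ → 0 < a → TB.CurvLe h a → Hinge h Ψ a)
    (chr : SCHR) (ode : SODE) (eqv : SEQV) (mv : SMV) (bp : SBP) (hm : SHM) (th : STH) (lb : SLB)
    (morse : SMORSE) (lp1 : SLP1) (lps : SLPS) (uq : SUQ) (min2 : SMIN2) (lift2 : SLIFT2)
    (cov : SCOV) (tay2 : STAY2) (cross : SCROSS) (lb2 : SLB2) (chart : SCHART) (star : SSTAR)
    (half : SHALF) (glob : SGLOB) (fund : SFUND) : Main := by
  intro n g h Γ Λ _ _ _ _ Φ Ψ f a hn hg hh dg dh fg fh ha hc hf D D' hD hD' B hB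
  have h0 : 0 < n := by omega
  have qg := qp h0 hg dg fg
  have qh := qp h0 hh dh fh
  have hi := hinge n h Λ Ψ a qh.rp ha hc
  obtain ⟨mh, i2⟩ := hm n h Λ Ψ qh a ha hi
  have t := th n h Λ Ψ qh a ha mh i2
  have bh := bp n h Λ Ψ qh mh
  have eh := eqv n h Λ Ψ qh mh
  obtain ⟨G, hG⟩ := chr n h hh
  have N : NP h Ψ := ⟨fh.zero, qh.add, qh.jc, bh,
    lps n h Λ Ψ qh a ha mh t (lp1 n h Λ Ψ qh a ha mh i2),
    chart n h G Ψ a hh hG ha (lb2 n h Λ Ψ qh G a ha hG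
      (tay2 n h Λ Ψ qh G hG (ode n h G Ψ hh hG fh)) (lb n h Λ Ψ qh a ha hi bh))
      (cross n h Λ Ψ qh), cov n h hh⟩
  obtain ⟨ρ, F, cj, hF⟩ := lift2 n g h Γ Λ Φ Ψ f hn qg.rp qh.rp hf
  obtain ⟨mg, T⟩ := min2 n g h Γ Λ Φ Ψ ρ F qg qh cj (uq n g h Γ Λ Φ Ψ ρ F qg qh cj eh)
    (morse n h Λ Ψ qh a ha mh t)
  have P₁ := fin_pres star half glob N fg.zero (bp n g Γ Φ qg mg) (cov n g hg) T
  have P₂ : MvP h Λ := fun γ => by
    obtain ⟨M, m₁, m₂⟩ := mv n h Λ Ψ qh eh γ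
    exact ⟨M, m₁, fin_pres star half glob N fh.zero bh N.cov m₂⟩
  have mS : MeasurableSet ((Quot.mk _ : UT g → UM g Γ) ⁻¹' B) := by
    letI : MeasurableSpace (UM g Γ) := borel _
    haveI : BorelSpace (UM g Γ) := ⟨rfl⟩
    exact continuous_quot_mk.measurable hB
  have key := fund n g h Γ Λ Φ Ψ ρ F D D' _ dg dh (cov n g hg) N.cov cj P₁ P₂ hD hD' mS
    (fun γ p q e hp => by
      have : (Quot.mk _ p : UM g Γ) = Quot.mk _ q := Quot.sound ⟨γ, e⟩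
      simpa only [mem_preimage, ← this] using hp)
  have e : ∀ w : UT h, w ∈ F '' ((Quot.mk _ : UT g → UM g Γ) ⁻¹' B) ↔
      (Quot.mk _ w : UM h Λ) ∈ f '' B := by
    intro w
    constructor
    · rintro ⟨p, hp, rfl⟩
      exact ⟨_, hp, hF p⟩
    · rintro ⟨b, hb, e⟩
      refine ⟨F.symm w, ?_, F.apply_symm_apply w⟩
      have h1 := hF (F.symm w)
      rw [F.apply_symm_apply, ← e] at h1
      rw [mem_preimage, f.injective h1]
      exact hb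
  simp only [e] at key
  exact key

theorem fin_vol (vol' : SVOL) (cov : SCOV) {g h : Met n} {Γ Λ : Type} [Group Γ] [Group Λ]
    [MulAction Γ (E n)] [MulAction Λ (E n)] (f : UM g Γ ≃ₜ UM h Λ) (hn : 0 < n) (hg : Riem g)
    (hh : Riem h) {D D' : Set (E n)} (hD : MeasurableSet D) (hD' : MeasurableSet D')
    (H : liou g Γ D univ = liou h Λ D' (f '' univ)) : vol g D = vol h D' := by
  rw [image_univ, f.surjective.range_eq] at H
  simp only [liou, mem_univ, and_true] at H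
  rw [vol' n g D hn hg (cov n g hg) hD, vol' n h D' hn hh (cov n h hh) hD'] at H
  exact (ENNReal.mul_right_inj (Metric.measure_closedBall_pos _ _ one_pos).ne'
    measure_closedBall_lt_top.ne).1 H

end Pool.Agent.MP_3ee8cb_gt.LV
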