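import Pool.Agent.MP_3ee8cb_gt.LV.Spec
import Pool.Agent.MP_3ee8cb_gt.CR.RPACK
import Pool.Agent.MP_3ee8cb_gt.CR.RFD
import Pool.Agent.MP_3ee8cb_gt.CR.RLIFT

/-! Row FUND: the volume of the cone does not depend on the fundamental domain. -/

namespace Pool.Agent.MP_3ee8cb_gt.LV

open CR Set MeasureTheory

variable {n : ℕ}

theorem fund_le {h : Met n} {Λ : Type} [Group Λ] [MulAction Λ (E n)] (d : Deck h Λ) (c : CovP h)
    (M : Λ → UT h ≃ₜ UT h) (hM : ∀ γ w, (M γ w).1 = tm γ w.1)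
    (hP : ∀ γ B, MeasurableSet B → Pres h h (M γ) B) (O A₁ A₂ : Set (UT h))
    (mO : MeasurableSet O) (m₁ : MeasurableSet A₁) (m₂ : MeasurableSet A₂) (s₁ : A₁ ⊆ O)
    (s₂ : A₂ ⊆ O) (hO : ∀ γ, ∀ w ∈ O, M γ w ∈ O) (u₁ : ∀ w ∈ O, ∃! γ, M γ w ∈ A₁)
    (u₂ : ∀ w ∈ O, ∃! γ, M γ w ∈ A₂) :
    volume (cov h '' (A₁ ×ˢ Iic (0 : ℝ))) ≤ volume (cov h '' (A₂ ×ˢ Iic (0 : ℝ))) := by
  have := fd_count d
  have hμ : ∀ B : Set (UT h × ℝ), MeasurableSet B →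
      Measure.comap (cov h) volume B = volume (cov h '' B) := fun B hB =>
    Measure.comap_apply _ c.inj c.meas _ hB
  have hinv : ∀ γ w, M γ⁻¹ (M γ w) = w := fun γ w => Subtype.ext (by
    rw [hM, hM, ← lift_tm_mul d, inv_mul_cancel, lift_tm_one])
  rw [← hμ _ (m₁.prod measurableSet_Iic), ← hμ _ (m₂.prod measurableSet_Iic)]
  refine pack (UT h × ℝ) Λ _ (fun γ => Prod.map (M γ) id) (O ×ˢ Iic (0 : ℝ)) _ _ (fun γ => ?_)
    (fun γ z hz => ⟨⟨hO γ _ hz.1, hz.2⟩, Prod.ext (hinv γ _) rfl⟩) (mO.prod measurableSet_Iic)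
    (m₁.prod measurableSet_Iic) (prod_mono s₁ subset_rfl) (prod_mono s₂ subset_rfl)
    (fun γ δ z hz h1 h2 => (u₁ _ hz.1).unique h1.1 h2.1) fun z hz => ?_
  · have hm : Measurable (Prod.map (M γ) (id : ℝ → ℝ)) :=
      (M γ).continuous.measurable.prodMap measurable_id
    refine ⟨hm, Measure.ext fun B hB => ?_⟩
    rw [Measure.map_apply hm hB, hμ _ (hm hB), hμ _ hB, hP γ _ (hm hB),
      image_preimage_eq _ ((M γ).surjective.prodMap Function.surjective_id)]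
  · obtain ⟨γ, hγ, -⟩ := u₂ _ (s₁ hz.1)
    exact ⟨γ⁻¹, (M γ z.1, z.2), ⟨hγ, hz.2⟩, Prod.ext (hinv γ _).symm rfl⟩

theorem fund : SFUND := by
  intro n g h Γ Λ _ _ _ _ Φ Ψ ρ F D D' S dg dh cg ch cj hF mv fD fD' mS hS
  choose M hM hP using mv
  have foot : ∀ k : Met n, Measurable fun p : UT k => p.1.1 := fun k =>
    measurable_fst.comp measurable_subtype_coe
  have mF : ∀ B : Set (UT g), MeasurableSet B → MeasurableSet (F '' B) := fun B hB =>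
    F.measurableEmbedding.measurableSet_image.2 hB
  have mB : MeasurableSet {p : UT g | p.1.1 ∈ D ∧ p ∈ S} := (foot g fD.1).inter mS
  have mB' : MeasurableSet {w : UT h | w.1.1 ∈ D' ∧ w ∈ F '' S} := (foot h fD'.1).inter (mF S mS)
  let a : Γ → UT g → UT g := fun γ p => ⟨tm γ p.1, (dg.iso γ p.1.1 p.1.2 p.1.2).trans p.2⟩
  have ha : ∀ γ p, M (ρ γ) (F p) = F (a γ p) := fun γ p =>
    Subtype.ext ((hM _ _).trans (cj.equi γ p (a γ p) rfl).symm)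
  have hO : ∀ δ, ∀ w ∈ F '' S, M δ w ∈ F '' S := by
    rintro δ _ ⟨p, hp, rfl⟩
    obtain ⟨γ, rfl⟩ := ρ.surjective δ
    exact ⟨a γ p, hS γ p _ rfl hp, (ha γ p).symm⟩
  have u₁ : ∀ w ∈ F '' S, ∃! δ, M δ w ∈ F '' {p : UT g | p.1.1 ∈ D ∧ p ∈ S} := by
    rintro _ ⟨p, hp, rfl⟩
    obtain ⟨γ, hγ, hu⟩ := fD.2 p.1.1
    refine ⟨ρ γ, ⟨a γ p, ⟨hγ, hS γ p _ rfl hp⟩, (ha γ p).symm⟩, fun δ hδ => ?_⟩
    obtain ⟨γ', rfl⟩ := ρ.surjective δ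
    obtain ⟨q, hq, he⟩ := hδ
    rw [ha] at he
    rw [F.injective he] at hq
    exact congrArg ρ (hu γ' hq.1)
  have u₂ : ∀ w ∈ F '' S, ∃! δ, M δ w ∈ {w : UT h | w.1.1 ∈ D' ∧ w ∈ F '' S} := by
    intro w hw
    obtain ⟨δ, hδ, hu⟩ := fD'.2 w.1.1
    have e : ∀ δ : Λ, (M δ w).1.1 = δ • w.1.1 := fun δ => congrArg Prod.fst (hM δ w)
    exact ⟨δ, ⟨(e δ).symm ▸ hδ, hO δ w hw⟩,
      fun δ' h' => hu δ' (show δ' • w.1.1 ∈ D' from e δ' ▸ h'.1)⟩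
  have s₁ : F '' {p : UT g | p.1.1 ∈ D ∧ p ∈ S} ⊆ F '' S := image_mono fun p hp => hp.2
  have s₂ : {w : UT h | w.1.1 ∈ D' ∧ w ∈ F '' S} ⊆ F '' S := fun w hw => hw.2
  rw [cg.cone, ch.cone, hF _ (mB.prod measurableSet_Iic), prodMap_image_prod, image_id]
  exact le_antisymm
    (fund_le dh ch M hM hP _ _ _ (mF S mS) (mF _ mB) mB' s₁ s₂ hO u₁ u₂)
    (fund_le dh ch M hM hP _ _ _ (mF S mS) mB' (mF _ mB) s₂ s₁ hO u₂ u₁)

end Pool.Agent.MP_3ee8cb_gt.LV
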